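import Mathlib

/-! # Constant depth: growth sequences from the continued fraction numbers (row E1) -/

set_option autoImplicit false

namespace Pool.CD

open Finset

/-- the threshold condition (same text as in helper41's file) -/
def NumThr' (m HU HV x y x' y' : ℝ) : Prop := ∀ b e : ℕ, (b, e) ≠ (0, 0) →
  m * 4 ^ (b + e) * x ^ b * y ^ e ≤ x' ^ b * y' ^ e ∨ HU ^ b ≤ x' ^ b * y' ^ e ∨
    HV ^ e ≤ x' ^ b * y' ^ e

theorem two_rpow_mul (u v : ℝ) (b e : ℕ) :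
    ((2 : ℝ) ^ u) ^ b * ((2 : ℝ) ^ v) ^ e = (2 : ℝ) ^ (u * b + v * e) := by
  rw [← Real.rpow_natCast, ← Real.rpow_natCast, ← Real.rpow_mul (by norm_num),
    ← Real.rpow_mul (by norm_num), ← Real.rpow_add (by norm_num)]

theorem numThr_of (A B : ℕ) {c c' ω μ m x y f : ℝ} {τ : ℕ}
    (h1 : ∀ b e : ℕ, 1 ≤ b + e → b + e ≤ τ → 2 * c' * (b + e) ≤ |(A : ℝ) * b - B * e|)
    (hx0 : 0 ≤ x) (hx : x ≤ f * (2 : ℝ) ^ ((A : ℝ) / 2 - c))
    (hy0 : 0 ≤ y) (hy : y ≤ f * (2 : ℝ) ^ ((B : ℝ) / 2 - c))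
    (hf0 : 0 ≤ f) (hf : 4 * f ≤ (2 : ℝ) ^ ω) (hm : m ≤ (2 : ℝ) ^ μ)
    (hg : 0 ≤ c - c' - ω) (hμ : μ ≤ (τ + 1) * (c - c' - ω)) :
    NumThr' m ((2 : ℝ) ^ A) ((2 : ℝ) ^ B) x y ((2 : ℝ) ^ ((A : ℝ) / 2 - c'))
      ((2 : ℝ) ^ ((B : ℝ) / 2 - c')) := by
  intro b e hbe
  have hbe1 : 1 ≤ b + e := by
    by_contra hlt
    apply hbe
    have h1 : b = 0 := by omega
    have h2 : e = 0 := by omega
    rw [h1, h2]
  rw [two_rpow_mul]
  rcases Nat.lt_or_ge τ (b + e) with hlt | hle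
  · left
    have h2 : x ^ b ≤ (f * (2 : ℝ) ^ ((A : ℝ) / 2 - c)) ^ b := pow_le_pow_left₀ hx0 hx b
    have h3 : y ^ e ≤ (f * (2 : ℝ) ^ ((B : ℝ) / 2 - c)) ^ e := pow_le_pow_left₀ hy0 hy e
    have h4 : m * 4 ^ (b + e) * x ^ b * y ^ e ≤
        (2 : ℝ) ^ μ * 4 ^ (b + e) * (f * (2 : ℝ) ^ ((A : ℝ) / 2 - c)) ^ b *
          (f * (2 : ℝ) ^ ((B : ℝ) / 2 - c)) ^ e := by
      have p1 : 0 ≤ x ^ b := pow_nonneg hx0 b
      have p2 : 0 ≤ y ^ e := pow_nonneg hy0 e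
      have p3 : 0 ≤ (2 : ℝ) ^ μ := (Real.rpow_pos_of_pos (by norm_num) μ).le
      gcongr
    refine h4.trans ?_
    have h5 : (2 : ℝ) ^ μ * 4 ^ (b + e) * (f * (2 : ℝ) ^ ((A : ℝ) / 2 - c)) ^ b *
          (f * (2 : ℝ) ^ ((B : ℝ) / 2 - c)) ^ e =
        (2 : ℝ) ^ μ * (4 * f) ^ (b + e) *
          (((2 : ℝ) ^ ((A : ℝ) / 2 - c)) ^ b * ((2 : ℝ) ^ ((B : ℝ) / 2 - c)) ^ e) := by
      rw [mul_pow, mul_pow, mul_pow, pow_add f]
      ring
    rw [h5, two_rpow_mul]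
    have h6 : (4 * f) ^ (b + e) ≤ (2 : ℝ) ^ (ω * (b + e : ℕ)) := by
      rw [Real.rpow_mul (by norm_num), Real.rpow_natCast]
      exact pow_le_pow_left₀ (by positivity) hf _
    have h7 : (2 : ℝ) ^ μ * (4 * f) ^ (b + e) *
          (2 : ℝ) ^ (((A : ℝ) / 2 - c) * b + ((B : ℝ) / 2 - c) * e) ≤
        (2 : ℝ) ^ μ * (2 : ℝ) ^ (ω * (b + e : ℕ)) *
          (2 : ℝ) ^ (((A : ℝ) / 2 - c) * b + ((B : ℝ) / 2 - c) * e) := by
      gcongr
    refine h7.trans ?_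
    rw [← Real.rpow_add (by norm_num), ← Real.rpow_add (by norm_num)]
    apply Real.rpow_le_rpow_of_exponent_le (by norm_num)
    have h8 : ((τ : ℝ) + 1) ≤ ((b + e : ℕ) : ℝ) := by exact_mod_cast hlt
    have h9 : ((τ : ℝ) + 1) * (c - c' - ω) ≤ ((b + e : ℕ) : ℝ) * (c - c' - ω) :=
      mul_le_mul_of_nonneg_right h8 hg
    push_cast at h9 ⊢
    linarith
  · right
    have h2 := h1 b e hbe1 hle
    have hA : ((2 : ℝ) ^ A) ^ b = (2 : ℝ) ^ ((A : ℝ) * b) := by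
      rw [Real.rpow_mul (by norm_num), Real.rpow_natCast, Real.rpow_natCast]
    have hB : ((2 : ℝ) ^ B) ^ e = (2 : ℝ) ^ ((B : ℝ) * e) := by
      rw [Real.rpow_mul (by norm_num), Real.rpow_natCast, Real.rpow_natCast]
    rw [hA, hB]
    rcases le_total 0 ((A : ℝ) * b - B * e) with h3 | h3
    · right
      rw [abs_of_nonneg h3] at h2
      apply Real.rpow_le_rpow_of_exponent_le (by norm_num)
      linarith
    · left
      rw [abs_of_nonpos h3] at h2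
      apply Real.rpow_le_rpow_of_exponent_le (by norm_num)
      linarith

/-- the output of the numbers rows: everything the class induction needs -/
theorem growth_exists (L σ ω μ A0 B0 s S w w0 : ℕ) (c0 : ℕ → ℝ) (τ : ℕ → ℕ) (hL : 1 ≤ L)
    (hσ : 1 ≤ σ) (hω : 1 ≤ ω) (hμ : 1 ≤ μ) (hs : 1 ≤ s) (hB0 : 1 ≤ B0) (hBA : B0 ≤ A0)
    (h1 : ∀ i, 1 ≤ i → i ≤ L → ∀ b e : ℕ, 1 ≤ b + e → b + e ≤ τ i →
        2 * c0 i * (b + e) ≤ |(A0 : ℝ) * b - B0 * e|)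
    (h2 : (σ : ℝ) * B0 ≤ τ 1 * (B0 / 4)) (h3 : c0 1 ≤ (B0 : ℝ) / 8)
    (h4 : ∀ i, 1 ≤ i → i + 1 ≤ L → (σ : ℝ) * B0 ≤ τ (i + 1) * (c0 i / 2) ∧
      c0 (i + 1) ≤ c0 i / 4)
    (h5 : c0 L = 1 / (4 * s)) (hw1 : 1 ≤ w) (hw : 16 * w ≤ 2 ^ ω) (P : ℕ) (hP : P ≤ 3 * (s * B0))
    (hS : S ≤ 2 ^ (5 * σ * ω * μ * P)) (hw0 : (16 * w0) ^ 8 ≤ 2 ^ (5 * ω * μ * P)) :
    ∃ c : ℕ → ℝ, (∀ i, 1 ≤ i → i ≤ L → 4 * (ω : ℝ) ≤ c i) ∧
      (let A : ℕ := 16 * s * ω * μ * A0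
       let B : ℕ := 16 * s * ω * μ * B0
       let X : ℕ → ℝ := fun i => (2 : ℝ) ^ ((A : ℝ) / 2 - c i)
       let Y : ℕ → ℝ := fun i => (2 : ℝ) ^ ((B : ℝ) / 2 - c i)
       (w0 : ℝ) ≤ X 1 ∧ (w0 : ℝ) ≤ Y 1 ∧
       NumThr' S ((2 : ℝ) ^ A) ((2 : ℝ) ^ B) w0 w0 (X 1) (Y 1) ∧
       ∀ i, 1 ≤ i → i + 1 ≤ L →
         4 * w * X i ≤ X (i + 1) ∧ 4 * w * Y i ≤ Y (i + 1) ∧
         NumThr' S ((2 : ℝ) ^ A) ((2 : ℝ) ^ B) (X i) (Y i) (X (i + 1)) (Y (i + 1)) ∧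
         NumThr' S ((2 : ℝ) ^ A) ((2 : ℝ) ^ B) (4 * w * X i) (4 * w * Y i) (X (i + 1))
           (Y (i + 1))) := by
  set M : ℕ := 16 * s * ω * μ with hM
  have hM1 : 1 ≤ M := by
    have : 0 < 16 * s * ω * μ := by positivity
    omega
  have hMr : (0 : ℝ) < M := by exact_mod_cast hM1
  have hsr : (0 : ℝ) < s := by exact_mod_cast hs
  have hωr : (1 : ℝ) ≤ ω := by exact_mod_cast hω
  have hμr : (1 : ℝ) ≤ μ := by exact_mod_cast hμ
  have hσr : (1 : ℝ) ≤ σ := by exact_mod_cast hσ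
  have hB0r : (1 : ℝ) ≤ B0 := by exact_mod_cast hB0
  -- lower bound for c0
  have hc0 : ∀ j, j < L → 1 / (4 * (s : ℝ)) ≤ c0 (L - j) := by
    intro j
    induction j with
    | zero => intro _; rw [Nat.sub_zero, h5]
    | succ j ih =>
      intro hj
      have e1 := ih (by omega)
      have e2 := (h4 (L - (j + 1)) (by omega) (by omega)).2
      rw [show L - (j + 1) + 1 = L - j by omega] at e2
      have e3 : 0 < 1 / (4 * (s : ℝ)) := by positivity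
      linarith
  have hc0' : ∀ i, 1 ≤ i → i ≤ L → 1 / (4 * (s : ℝ)) ≤ c0 i := by
    intro i hi hiL
    have := hc0 (L - i) (by omega)
    rwa [show L - (L - i) = i by omega] at this
  have hc : ∀ i, 1 ≤ i → i ≤ L → 4 * (ω : ℝ) ≤ M * c0 i := by
    intro i hi hiL
    have e1 := mul_le_mul_of_nonneg_left (hc0' i hi hiL) hMr.le
    have e2 : (M : ℝ) * (1 / (4 * s)) = 4 * ω * μ := by
      rw [hM]
      push_cast
      field_simp
      ring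
    rw [e2] at e1
    have e3 : 4 * (ω : ℝ) * 1 ≤ 4 * ω * μ := by gcongr
    linarith
  refine ⟨fun i => M * c0 i, hc, ?_⟩
  intro A B X Y
  have hAr : (A : ℝ) = M * A0 := by simp only [A]; push_cast; ring
  have hBr : (B : ℝ) = M * B0 := by simp only [B]; push_cast; ring
  have hBAr : (B : ℝ) ≤ A := by
    rw [hAr, hBr]
    exact mul_le_mul_of_nonneg_left (by exact_mod_cast hBA) hMr.le
  have hB0' : (0 : ℝ) ≤ B := Nat.cast_nonneg _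
  -- the imbalance
  have g1 : ∀ i, 1 ≤ i → i ≤ L → ∀ b e : ℕ, 1 ≤ b + e → b + e ≤ τ i →
      2 * ((M : ℝ) * c0 i) * (b + e) ≤ |(A : ℝ) * b - B * e| := by
    intro i hi hiL b e hb he
    have e1 := h1 i hi hiL b e hb he
    rw [hAr, hBr, show (M : ℝ) * A0 * b - M * B0 * e = M * (A0 * b - B0 * e) by ring, abs_mul,
      abs_of_pos hMr]
    have e2 := mul_le_mul_of_nonneg_left e1 hMr.le
    linarith
  -- size of B
  have hPB : 5 * ω * μ * P ≤ B := by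
    have e1 : 5 * ω * μ * P ≤ 5 * ω * μ * (3 * (s * B0)) := Nat.mul_le_mul_left _ hP
    have e2 : 5 * ω * μ * (3 * (s * B0)) ≤ 16 * s * ω * μ * B0 := by
      have : 5 * ω * μ * (3 * (s * B0)) = 15 * (s * ω * μ * B0) := by ring
      have e4 : 16 * s * ω * μ * B0 = 16 * (s * ω * μ * B0) := by ring
      rw [this, e4]
      omega
    exact e1.trans e2
  have hSr : (S : ℝ) ≤ (2 : ℝ) ^ ((σ : ℝ) * B) := by
    have e1 : S ≤ 2 ^ (σ * B) := by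
      refine hS.trans (Nat.pow_le_pow_right (by norm_num) ?_)
      calc 5 * σ * ω * μ * P = σ * (5 * ω * μ * P) := by ring
        _ ≤ σ * B := Nat.mul_le_mul_left _ hPB
    have e2 : ((2 ^ (σ * B) : ℕ) : ℝ) = (2 : ℝ) ^ ((σ : ℝ) * B) := by
      rw [← Nat.cast_mul, Real.rpow_natCast]
      push_cast
      rfl
    rw [← e2]
    exact_mod_cast e1
  have hw0r : 16 * (w0 : ℝ) ≤ (2 : ℝ) ^ ((B : ℝ) / 8) := by
    have e1 : (16 * w0) ^ 8 ≤ 2 ^ B := hw0.trans (Nat.pow_le_pow_right (by norm_num) hPB)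
    have e2 : (16 * (w0 : ℝ)) ^ 8 ≤ ((2 : ℝ) ^ ((B : ℝ) / 8)) ^ 8 := by
      rw [← Real.rpow_natCast ((2 : ℝ) ^ ((B : ℝ) / 8)), ← Real.rpow_mul (by norm_num)]
      rw [show (B : ℝ) / 8 * ((8 : ℕ) : ℝ) = B by push_cast; ring, Real.rpow_natCast]
      exact_mod_cast e1
    exact le_of_pow_le_pow_left₀ (by norm_num) (Real.rpow_nonneg (by norm_num) _) e2
  have hwr : 16 * (w : ℝ) ≤ (2 : ℝ) ^ (ω : ℝ) := by
    rw [Real.rpow_natCast]
    exact_mod_cast hw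
  have hc1 : (M : ℝ) * c0 1 ≤ B / 8 := by
    rw [hBr]
    have := mul_le_mul_of_nonneg_left h3 hMr.le
    linarith
  have hexp : ∀ z : ℝ, 0 < (2 : ℝ) ^ z := fun z => Real.rpow_pos_of_pos (by norm_num) z
  have hY1 : (w0 : ℝ) ≤ Y 1 := by
    have e1 : (2 : ℝ) ^ ((B : ℝ) / 8) ≤ Y 1 := by
      apply Real.rpow_le_rpow_of_exponent_le (by norm_num)
      linarith
    have e2 : (0 : ℝ) ≤ w0 := Nat.cast_nonneg _
    linarith
  have hX1 : (w0 : ℝ) ≤ X 1 := by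
    refine hY1.trans ?_
    apply Real.rpow_le_rpow_of_exponent_le (by norm_num)
    linarith
  refine ⟨hX1, hY1, ?_, ?_⟩
  · refine numThr_of A B (c := (B : ℝ) / 2) (ω := (B : ℝ) / 8) (μ := (σ : ℝ) * B) (f := w0)
      (τ := τ 1) (g1 1 le_rfl hL) (Nat.cast_nonneg _) ?_ (Nat.cast_nonneg _) ?_
      (Nat.cast_nonneg _) ?_ hSr ?_ ?_
    · have e1 : (1 : ℝ) ≤ (2 : ℝ) ^ ((A : ℝ) / 2 - B / 2) :=
        Real.one_le_rpow (by norm_num) (by linarith)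
      have e2 : (0 : ℝ) ≤ w0 := Nat.cast_nonneg _
      nlinarith
    · rw [sub_self, Real.rpow_zero, mul_one]
    · have e2 : (0 : ℝ) ≤ w0 := Nat.cast_nonneg _
      linarith
    · linarith
    · have e1 : (σ : ℝ) * B ≤ τ 1 * (B / 4) := by
        rw [hBr]
        have := mul_le_mul_of_nonneg_left h2 hMr.le
        linarith
      have e2 : (τ 1 : ℝ) * (B / 4) ≤ (τ 1 + 1) * ((B : ℝ) / 2 - M * c0 1 - B / 8) := by
        have e3 : (B : ℝ) / 4 ≤ (B : ℝ) / 2 - M * c0 1 - B / 8 := by linarith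
        have e4 : (0 : ℝ) ≤ τ 1 := Nat.cast_nonneg _
        have e5 : (τ 1 : ℝ) * (B / 4) ≤ (τ 1 + 1) * (B / 4) := by nlinarith
        have e6 : ((τ 1 : ℝ) + 1) * (B / 4) ≤ (τ 1 + 1) * ((B : ℝ) / 2 - M * c0 1 - B / 8) :=
          mul_le_mul_of_nonneg_left e3 (by linarith)
        linarith
      linarith
  · intro i hi hiL
    obtain ⟨h41, h42⟩ := h4 i hi hiL
    have e0 := hc i hi (by omega)
    have e42 : (M : ℝ) * c0 (i + 1) ≤ M * c0 i / 4 := by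
      have := mul_le_mul_of_nonneg_left h42 hMr.le
      linarith
    have hgap : (M : ℝ) * c0 i / 2 ≤ M * c0 i - M * c0 (i + 1) - ω := by linarith
    have hgap0 : 0 ≤ (M : ℝ) * c0 i - M * c0 (i + 1) - ω := by linarith
    have hμ' : (σ : ℝ) * B ≤ (τ (i + 1) + 1) * ((M : ℝ) * c0 i - M * c0 (i + 1) - ω) := by
      have e1 : (σ : ℝ) * B ≤ τ (i + 1) * (M * c0 i / 2) := by
        rw [hBr]
        have := mul_le_mul_of_nonneg_left h41 hMr.le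
        linarith
      have e2 : (0 : ℝ) ≤ τ (i + 1) := Nat.cast_nonneg _
      have e3 : (τ (i + 1) : ℝ) * (M * c0 i / 2) ≤
          τ (i + 1) * ((M : ℝ) * c0 i - M * c0 (i + 1) - ω) := mul_le_mul_of_nonneg_left hgap e2
      linarith
    have hw4 : (0 : ℝ) ≤ 4 * w := by positivity
    have hexpo : ∀ D : ℝ, 4 * w * (2 : ℝ) ^ (D / 2 - M * c0 i) ≤ (2 : ℝ) ^ (D / 2 - M * c0 (i + 1)) := by
      intro D
      have e1 : 4 * (w : ℝ) ≤ (2 : ℝ) ^ (ω : ℝ) := by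
        have : (0 : ℝ) ≤ w := Nat.cast_nonneg _
        linarith
      calc 4 * w * (2 : ℝ) ^ (D / 2 - M * c0 i)
          ≤ (2 : ℝ) ^ (ω : ℝ) * (2 : ℝ) ^ (D / 2 - M * c0 i) :=
            mul_le_mul_of_nonneg_right e1 (hexp _).le
        _ = (2 : ℝ) ^ ((ω : ℝ) + (D / 2 - M * c0 i)) := by rw [Real.rpow_add (by norm_num)]
        _ ≤ _ := by
          apply Real.rpow_le_rpow_of_exponent_le (by norm_num)
          linarith
    refine ⟨hexpo A, hexpo B, ?_, ?_⟩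
    · refine numThr_of A B (c := M * c0 i) (ω := ω) (μ := (σ : ℝ) * B) (f := 1)
        (τ := τ (i + 1)) (g1 (i + 1) (by omega) hiL) (hexp _).le (by rw [one_mul]) (hexp _).le
        (by rw [one_mul]) zero_le_one ?_ hSr hgap0 hμ'
      have e2 : (1 : ℝ) ≤ w := by exact_mod_cast hw1
      linarith
    · exact numThr_of A B (c := M * c0 i) (ω := ω) (μ := (σ : ℝ) * B) (f := 4 * w)
        (τ := τ (i + 1)) (g1 (i + 1) (by omega) hiL) (mul_nonneg hw4 (hexp _).le) le_rfl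
        (mul_nonneg hw4 (hexp _).le) le_rfl hw4 (by linarith) hSr hgap0 hμ'

end Pool.CD
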