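import Pool.Agent.Helper41.CD.Gate
import Pool.Agent.CDep.Chain
import Pool.Agent.Helper10.CD.Nu

/-!
# Constant depth: the machine (induction on the number of levels), abstract cost

`machine_abs`: the cost of a coefficient of a sum of `T` products of `S` elements of `Cls w0 w S k`.
-/

set_option autoImplicit false

namespace Pool.CD

open Finset Pool.Agent.Helper87.D3 Pool.Agent.Helper41.CD

section abstract_machine

variable {σ K B : Type} [Field K] [CommRing B] [Algebra K B] {ν : B → ℝ → Prop}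

theorem cf00_aeval {w : ℕ} (G : Fin w → Ser B) (d : Fin w → K)
    (hd : ∀ t, cf 0 0 (G t) = algebraMap K B (d t)) (Q : MvPolynomial (Fin w) K) :
    cf 0 0 (MvPolynomial.aeval G Q) = algebraMap K B (MvPolynomial.eval d Q) := by
  induction Q using MvPolynomial.induction_on with
  | C c =>
    rw [MvPolynomial.aeval_C, Pool.Agent.Helper59.CD.algebraMap_ser, cf_cst, if_pos ⟨rfl, rfl⟩,
      MvPolynomial.eval_C]
  | add p q hp hq => rw [map_add, cf_add, hp, hq, map_add, map_add]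
  | mul_X p i hp =>
    rw [map_mul, MvPolynomial.aeval_X, cf_zero_zero_mul, hp, map_mul, MvPolynomial.eval_X,
      map_mul, hd]

/-- an arbitrary gate of fan-in `w` -/
theorem polyGate_good (h : Cost K ν) {M : ℕ → ℕ → Submodule K B} (hM : Big M) {x y : ℝ}
    (hx : 0 < x) (hy : 0 < y) {w : ℕ} (hw : 1 ≤ w) (G : Fin w → Ser B)
    (hG : ∀ t, GoodSer M ν x y (G t)) (Q : MvPolynomial (Fin w) K) :
    GoodSer M ν (4 * w * x) (4 * w * y) (MvPolynomial.aeval G Q) := by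
  choose d hd using fun t => (hG t).cst
  exact ⟨Pool.Agent.Helper59.CD.InB.aeval hM _ (fun t => (hG t).mem) Q, ⟨_, cf00_aeval G d hd Q⟩,
    poly_gate h hx hy hw _ d hd (fun t => (hG t).bd) Q⟩

/-- the numerical hypotheses, in the form of `growth_exists` -/
structure Grw (w0 w S : ℕ) (HU HV : ℝ) (L : ℕ) (X Y : ℕ → ℝ) : Prop where
  X1 : (w0 : ℝ) ≤ X 1
  Y1 : (w0 : ℝ) ≤ Y 1
  thr0 : NumThr' S HU HV w0 w0 (X 1) (Y 1)
  X2 : ∀ i, 1 ≤ i → i + 1 ≤ L → 4 * w * X i ≤ X (i + 1)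
  Y2 : ∀ i, 1 ≤ i → i + 1 ≤ L → 4 * w * Y i ≤ Y (i + 1)
  thr1 : ∀ i, 1 ≤ i → i + 1 ≤ L → NumThr' S HU HV (X i) (Y i) (X (i + 1)) (Y (i + 1))
  thr2 : ∀ i, 1 ≤ i → i + 1 ≤ L →
    NumThr' S HU HV (4 * w * X i) (4 * w * Y i) (X (i + 1)) (Y (i + 1))

theorem Grw.pos {w0 w S : ℕ} {HU HV : ℝ} {L : ℕ} {X Y : ℕ → ℝ} (hw0 : 1 ≤ w0) (hw : 1 ≤ w)
    (hG : Grw w0 w S HU HV L X Y) : ∀ i, 1 ≤ i → i ≤ L → 0 < X i ∧ 0 < Y i := by
  have h0 : (0 : ℝ) < w0 := by exact_mod_cast hw0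
  have h1 : (0 : ℝ) < w := by exact_mod_cast hw
  intro i hi
  induction i, hi using Nat.le_induction with
  | base => intro _; exact ⟨lt_of_lt_of_le h0 hG.X1, lt_of_lt_of_le h0 hG.Y1⟩
  | succ i hi ih =>
    intro hiL
    obtain ⟨h2, h3⟩ := ih (by omega)
    exact ⟨lt_of_lt_of_le (by positivity) (hG.X2 i hi hiL),
      lt_of_lt_of_le (by positivity) (hG.Y2 i hi hiL)⟩

/-- the growth before the products of the stage `2 l + 1` -/
noncomputable def inp (w0 w : ℕ) (X : ℕ → ℝ) (l : ℕ) : ℝ := if l = 0 then w0 else 4 * w * X (2 * l)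

theorem inp_pos {w0 w S : ℕ} {HU HV : ℝ} {L : ℕ} {X Y : ℕ → ℝ} (hw0 : 1 ≤ w0) (hw : 1 ≤ w)
    (hG : Grw w0 w S HU HV L X Y) (l : ℕ) (hl : 2 * l ≤ L) :
    0 < inp w0 w X l ∧ 0 < inp w0 w Y l := by
  have h1 : (0 : ℝ) < w := by exact_mod_cast hw
  unfold inp
  split_ifs with h
  · exact ⟨by exact_mod_cast hw0, by exact_mod_cast hw0⟩
  · obtain ⟨h2, h3⟩ := hG.pos hw0 hw (2 * l) (by omega) hl
    exact ⟨by positivity, by positivity⟩

theorem inp_step {w0 w S : ℕ} {HU HV : ℝ} {L : ℕ} {X Y : ℕ → ℝ}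
    (hG : Grw w0 w S HU HV L X Y) (l : ℕ) (hl : 2 * l + 1 ≤ L) :
    inp w0 w X l ≤ X (2 * l + 1) ∧ inp w0 w Y l ≤ Y (2 * l + 1) ∧
      NumThr S HU HV (inp w0 w X l) (inp w0 w Y l) (X (2 * l + 1)) (Y (2 * l + 1)) := by
  unfold inp
  split_ifs with h
  · rw [h]
    exact ⟨hG.X1, hG.Y1, hG.thr0⟩
  · exact ⟨hG.X2 _ (by omega) hl, hG.Y2 _ (by omega) hl, hG.thr2 _ (by omega) hl⟩

/-- **the level induction** -/
theorem machine_good [CharZero K] (h : Cost K ν) {M : ℕ → ℕ → Submodule K B} (hM : Big M)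
    {HU HV : ℝ} (hL : Leaf M ν HU HV) (Φ : MvPolynomial σ K →ₐ[K] Ser B) {w0 w S k : ℕ}
    (hw0 : 1 ≤ w0) (hw : 1 ≤ w) {X Y : ℕ → ℝ} (hG : Grw w0 w S HU HV (2 * k) X Y)
    (hbase : ∀ f ∈ Cls (R := K) w0 w S 0, GoodSer M ν w0 w0 (Φ f)) :
    ∀ f ∈ Cls w0 w S k, GoodSer M ν (inp w0 w X k) (inp w0 w Y k) (Φ f) := by
  have key : ∀ l, l ≤ k → ∀ f ∈ Cls w0 w S l,
      GoodSer M ν (inp w0 w X l) (inp w0 w Y l) (Φ f) := by
    intro l
    induction l with
    | zero => intro _ f hf; exact hbase f hf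
    | succ l ih =>
      intro hl f hf
      obtain ⟨F, Q, hF, rfl⟩ := hf
      obtain ⟨h1, h2⟩ := inp_pos hw0 hw hG l (by omega)
      obtain ⟨h3, h4, h5⟩ := inp_step hG l (by omega)
      obtain ⟨h6, h7⟩ := hG.pos hw0 hw (2 * l + 2) (by omega) (by omega)
      have hS : ∀ t : Fin w, GoodSer M ν (X (2 * l + 2)) (Y (2 * l + 2))
          (Φ (∑ i, ∏ j, F t i j)) := by
        intro t
        have e1 : Φ (∑ i, ∏ j, F t i j) = ∑ i, ∏ j, Φ (F t i j) := by
          rw [map_sum]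
          exact sum_congr rfl fun i _ => by rw [map_prod]
        rw [e1]
        exact Pool.Agent.Helper41.CD.GoodSer.gate h hM hL h1 h2 h3 h4 h5
          (hG.thr1 (2 * l + 1) (by omega) (by omega)) S (fun _ => S) (fun i j => Φ (F t i j))
          le_rfl (fun _ => le_rfl) (fun i j => ih (by omega) _ (hF t i j))
      have e2 : Φ (MvPolynomial.aeval (fun t => ∑ i, ∏ j, F t i j) Q) =
          MvPolynomial.aeval (fun t => Φ (∑ i, ∏ j, F t i j)) Q := by
        rw [MvPolynomial.comp_aeval_apply]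
      rw [e2]
      have h8 := polyGate_good h hM h6 h7 hw (fun t => Φ (∑ i, ∏ j, F t i j)) hS Q
      have e3 : ∀ Z : ℕ → ℝ, inp w0 w Z (l + 1) = 4 * w * Z (2 * l + 2) := by
        intro Z
        unfold inp
        rw [if_neg (by omega)]
        rfl
      rw [e3, e3]
      exact h8
  exact key k le_rfl

/-- **THE MACHINE**, abstract form -/
theorem machine_abs [CharZero K] (h : Cost K ν) {M : ℕ → ℕ → Submodule K B} (hM : Big M)
    {HU HV : ℝ} (hL : Leaf M ν HU HV) (Φ : MvPolynomial σ K →ₐ[K] Ser B) {w0 w S k : ℕ}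
    (hw0 : 1 ≤ w0) (hw : 1 ≤ w) {X Y : ℕ → ℝ} (hG : Grw w0 w S HU HV (2 * k + 1) X Y)
    (hbase : ∀ f ∈ Cls (R := K) w0 w S 0, GoodSer M ν w0 w0 (Φ f)) (T : ℕ)
    (f : Fin T → Fin S → MvPolynomial σ K) (hf : ∀ i j, f i j ∈ Cls w0 w S k) (b e : ℕ) :
    ν (cf b e (Φ (∑ i, ∏ j, f i j)))
      (T * (4 ^ (b + e) * X (2 * k + 1) ^ b * Y (2 * k + 1) ^ e)) := by
  have hG' : Grw w0 w S HU HV (2 * k) X Y := ⟨hG.X1, hG.Y1, hG.thr0,
    fun i h1 h2 => hG.X2 i h1 (by omega), fun i h1 h2 => hG.Y2 i h1 (by omega),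
    fun i h1 h2 => hG.thr1 i h1 (by omega), fun i h1 h2 => hG.thr2 i h1 (by omega)⟩
  have hgood := machine_good h hM hL Φ hw0 hw hG' hbase
  obtain ⟨h1, h2⟩ := inp_pos hw0 hw hG k (by omega)
  obtain ⟨h3, h4, h5⟩ := inp_step hG k (by omega)
  rw [map_sum, cf_sum]
  refine h.mono (h.sum univ _
    (fun _ => 4 ^ (b + e) * X (2 * k + 1) ^ b * Y (2 * k + 1) ^ e) fun i _ => ?_) ?_
  · rw [map_prod]
    choose d hd using fun j => (hgood (f i j) (hf i j)).cst
    exact prod_step h hM hL h1 h2 h3 h4 h5 univ (by rw [card_univ, Fintype.card_fin])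
      (fun j => Φ (f i j)) d (fun j _ => (hgood (f i j) (hf i j)).mem) (fun j _ => hd j)
      (fun j _ => (hgood (f i j) (hf i j)).bd) b e
  · rw [sum_const, nsmul_eq_mul, card_univ, Fintype.card_fin]

end abstract_machine

section instance_Nu

variable {K F : Type} [Field K] [CommRing F] [Algebra K F] {V U : ℕ → Submodule K F}

/-- helper10's norm predicate is a cost -/
theorem cost_Nu (hV : Filt V) (hU : Filt U) {hv hu : ℝ} (h0v : 0 ≤ hv) (h0u : 0 ≤ hu) :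
    Cost K (fun f κ => Nu V U hv hu f κ) where
  nonneg := fun h => Nu.nonneg h0v h0u h
  mono := fun h h' => Nu.mono h h'
  zero := Nu.zero
  one := Nu.one hV hU
  add := fun h h' => Nu.add h h'
  mul := fun h h' => Nu.mul hV hU h0v h0u h h'
  smul := fun c _ _ h => Nu.smul c h

/-- the family of the elements of degree at most `b` on the left and at most `e` on the right -/
def Bi (V U : ℕ → Submodule K F) (b e : ℕ) : Submodule K F := U b ⊓ V e

theorem big_Bi (hV : Filt V) (hU : Filt U) : Big (Bi V U) where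
  one := ⟨hU.one, hV.one⟩
  mul := fun hx hy => ⟨hU.mul _ _ _ _ hx.1 hy.1, hV.mul _ _ _ _ hx.2 hy.2⟩

theorem leaf_Bi (hV : Filt V) (hU : Filt U) (hv hu : ℝ) :
    Leaf (Bi V U) (fun f κ => Nu V U hv hu f κ) hu hv where
  left := fun h => Nu.ofU hV h.1
  right := fun h => Nu.ofV hU h.2

end instance_Nu

end Pool.CD
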