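import Mathlib

/-!
# CDep: the choice of the parameters
-/

set_option autoImplicit false

namespace Pool.CDep

open Real

/-- powers of two and binary logarithms -/
theorem le_two_pow_of_logb {a k : ℕ} (ha : 1 ≤ a) (h : logb 2 a ≤ k) : a ≤ 2 ^ k := by
  have ha' : (0 : ℝ) < a := by exact_mod_cast ha
  have h1 : (a : ℝ) ≤ 2 ^ (k : ℝ) := by
    rw [← logb_le_iff_le_rpow (by norm_num) ha']
    exact h
  rw [rpow_natCast] at h1
  exact_mod_cast h1

theorem final_params (F : ℕ) (hF : 3 ≤ F) : ∃ C : ℝ, 0 < C ∧ ∀ S w w0 : ℕ, 2 ≤ S → 1 ≤ w →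
    w ≤ S → 1 ≤ w0 → ∃ σ ω μ : ℕ, 1 ≤ σ ∧ 1 ≤ ω ∧ 1 ≤ μ ∧ 16 * w ≤ 2 ^ ω ∧
      S ≤ 2 ^ (5 * σ * ω * μ * (8 * σ) ^ (F - 2)) ∧
      (16 * w0) ^ 8 ≤ 2 ^ (5 * ω * μ * (8 * σ) ^ (F - 2)) ∧
      ((64 * ω * μ * (18 * σ) ^ (F - 2) : ℕ) : ℝ) ≤
        C * (Real.log S ^ (1 - 1 / ((F : ℝ) - 1)) * Real.log (2 * w) ^ (1 / ((F : ℝ) - 1)) +
          Real.log w0) := by
  obtain ⟨f, rfl⟩ : ∃ f, F = f + 2 := ⟨F - 2, by omega⟩
  have hf : 1 ≤ f := by omega
  simp only [Nat.add_sub_cancel]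
  set η : ℝ := 1 / (((f + 2 : ℕ) : ℝ) - 1) with hη
  have hη' : η = 1 / ((f : ℝ) + 1) := by rw [hη]; push_cast; congr 1; ring
  have hf0 : (0 : ℝ) < (f : ℝ) + 1 := by positivity
  have hη0 : 0 < η := by rw [hη']; positivity
  have hη1 : η * (f + 1) = 1 := by rw [hη']; field_simp
  have hη2 : η * f = 1 - η := by linarith
  have hη3 : η ≤ 1 := by
    rw [hη', div_le_one hf0]
    have : (0 : ℝ) ≤ f := by positivity
    linarith
  have hl2 : 0 < log 2 := log_pos (by norm_num)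
  refine ⟨2368 * 54 ^ f / log 2, by positivity, fun S w w0 hS hw hwS hw0 => ?_⟩
  have hS' : (2 : ℝ) ≤ S := by exact_mod_cast hS
  have hw' : (1 : ℝ) ≤ w := by exact_mod_cast hw
  have hwS' : (w : ℝ) ≤ S := by exact_mod_cast hwS
  have hw0' : (1 : ℝ) ≤ w0 := by exact_mod_cast hw0
  set x := logb 2 S with hx
  set y := logb 2 (2 * w) with hy
  set z := logb 2 w0 with hz
  have hx1 : 1 ≤ x := by
    rw [hx, le_logb_iff_rpow_le (by norm_num) (by linarith), rpow_one]
    exact hS'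
  have hy1 : 1 ≤ y := by
    rw [hy, le_logb_iff_rpow_le (by norm_num) (by linarith), rpow_one]
    linarith
  have hz0 : 0 ≤ z := logb_nonneg (by norm_num) hw0'
  have hyx : y ≤ 2 * x := by
    rw [hy, logb_mul (by norm_num) (by positivity), logb_self_eq_one (by norm_num)]
    have : logb 2 w ≤ x := logb_le_logb_of_le (by norm_num) (by linarith) hwS'
    linarith
  -- the number `ω`
  set ω := Nat.clog 2 (16 * w) with hω
  have hω1 : 16 * w ≤ 2 ^ ω := Nat.le_pow_clog (by norm_num) _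
  have hωy : y ≤ ω := by
    rw [hy, logb_le_iff_le_rpow (by norm_num) (by linarith), rpow_natCast]
    have : ((16 * w : ℕ) : ℝ) ≤ ((2 ^ ω : ℕ) : ℝ) := by exact_mod_cast hω1
    push_cast at this
    linarith
  have hω0 : 1 ≤ ω := by
    have : (1 : ℝ) ≤ ω := hy1.trans hωy
    exact_mod_cast this
  have hω5 : (ω : ℝ) ≤ 5 * y := by
    have h1 : 2 ^ ω.pred < 16 * w := Nat.pow_pred_clog_lt_self (by norm_num) (by omega)
    have h2 : ((ω.pred : ℕ) : ℝ) ≤ y + 3 := by
      have h3 : ((2 ^ ω.pred : ℕ) : ℝ) ≤ ((16 * w : ℕ) : ℝ) := by exact_mod_cast h1.le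
      push_cast at h3
      have h4 : ((ω.pred : ℕ) : ℝ) ≤ logb 2 (16 * w) := by
        rw [le_logb_iff_rpow_le (by norm_num) (by positivity), rpow_natCast]
        exact h3
      have h5 : logb 2 (16 * w) = y + 3 := by
        have : (16 * w : ℝ) = 2 ^ (3 : ℝ) * (2 * w) := by norm_num; ring
        rw [this, logb_mul (by positivity) (by positivity), logb_rpow (by norm_num) (by norm_num)]
        ring
      linarith
    have h6 : (ω : ℝ) = ((ω.pred : ℕ) : ℝ) + 1 := by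
      have : ω = ω.pred + 1 := (Nat.succ_pred_eq_of_pos hω0).symm
      exact_mod_cast this
    rw [h6]
    linarith
  have hω0' : (0 : ℝ) < ω := by exact_mod_cast hω0
  -- the number `σ`
  set σ := ⌊(x / ω) ^ η⌋₊ + 1 with hσ
  have hxω : 0 ≤ (x / ω) ^ η := by positivity
  have hσ1 : (x / ω) ^ η ≤ σ := by
    rw [hσ]; push_cast
    exact (Nat.lt_floor_add_one _).le
  have hσ2 : (σ : ℝ) ≤ (x / ω) ^ η + 1 := by
    rw [hσ]; push_cast
    linarith [Nat.floor_le hxω]
  have hσ0 : 1 ≤ σ := by omega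
  have hσ0' : (0 : ℝ) < σ := by exact_mod_cast hσ0
  have hσ3 : x ≤ ω * (σ : ℝ) ^ (f + 1) := by
    have h1 : x / ω ≤ (σ : ℝ) ^ (f + 1) := by
      have h2 : ((x / ω) ^ η) ^ (f + 1) ≤ (σ : ℝ) ^ (f + 1) := pow_le_pow_left₀ hxω hσ1 _
      have h3 : ((x / ω) ^ η) ^ (f + 1) = x / ω := by
        rw [← rpow_natCast, ← rpow_mul (by positivity)]
        push_cast
        rw [hη1, rpow_one]
      rwa [h3] at h2
    rw [div_le_iff₀ hω0'] at h1
    linarith
  have hxy : 1 ≤ 2 * (x / y) ^ η := by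
    have h1 : (1 / 2 : ℝ) ≤ x / y := by
      rw [div_le_div_iff₀ (by norm_num) (by linarith)]
      linarith
    have h2 : (1 / 2 : ℝ) ^ η ≤ (x / y) ^ η := rpow_le_rpow (by norm_num) h1 hη0.le
    have h3 : (1 / 2 : ℝ) ^ (1 : ℝ) ≤ (1 / 2 : ℝ) ^ η :=
      rpow_le_rpow_of_exponent_ge (by norm_num) (by norm_num) hη3
    rw [rpow_one] at h3
    linarith
  have hσ4 : (σ : ℝ) ≤ 3 * (x / y) ^ η := by
    have h1 : (x / ω) ^ η ≤ (x / y) ^ η := by
      apply rpow_le_rpow (by positivity) _ hη0.le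
      apply div_le_div_of_nonneg_left (by linarith) (by linarith) hωy
    linarith
  -- the number `μ`
  set R : ℝ := ω * (8 * σ) ^ f with hR
  have hR0 : 0 < R := by positivity
  set q : ℝ := 8 * (z + 4) / R with hq
  have hq0 : 0 ≤ q := by positivity
  set μ := ⌊q⌋₊ + 1 with hμ
  have hμ1 : q ≤ μ := by
    rw [hμ]; push_cast
    exact (Nat.lt_floor_add_one _).le
  have hμ2 : (μ : ℝ) ≤ q + 1 := by
    rw [hμ]; push_cast
    linarith [Nat.floor_le hq0]
  have hμ0 : 1 ≤ μ := by omega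
  have hμ0' : (1 : ℝ) ≤ μ := by exact_mod_cast hμ0
  refine ⟨σ, ω, μ, hσ0, hω0, hμ0, hω1, ?_, ?_, ?_⟩
  · apply le_two_pow_of_logb (by omega)
    push_cast
    have h1 : ω * (σ : ℝ) ^ (f + 1) ≤ 5 * σ * ω * μ * (8 * σ) ^ f := by
      have h2 : (5 * σ * ω * μ * (8 * σ) ^ f : ℝ) = ω * (σ : ℝ) ^ (f + 1) * (5 * μ * 8 ^ f) := by
        rw [mul_pow]; ring
      rw [h2]
      have h3 : (1 : ℝ) ≤ 5 * μ * 8 ^ f := by
        have : (1 : ℝ) ≤ 8 ^ f := one_le_pow₀ (by norm_num)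
        nlinarith
      exact le_mul_of_one_le_right (by positivity) h3
    exact hσ3.trans h1
  · apply le_two_pow_of_logb (Nat.one_le_pow _ _ (by omega))
    push_cast
    have h1 : logb 2 ((16 * (w0 : ℝ)) ^ 8) = 8 * (z + 4) := by
      rw [logb_pow, logb_mul (by norm_num) (by positivity)]
      have : logb 2 16 = 4 := by
        have : (16 : ℝ) = 2 ^ (4 : ℝ) := by norm_num
        rw [this, logb_rpow (by norm_num) (by norm_num)]
      rw [this]
      push_cast
      ring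
    rw [h1]
    have h2 : 8 * (z + 4) ≤ μ * R := by
      rw [hq, div_le_iff₀ hR0] at hμ1
      exact hμ1
    have h3 : (5 * ω * μ * (8 * σ) ^ f : ℝ) = 5 * (μ * R) := by rw [hR]; ring
    rw [h3]
    have : 0 ≤ μ * R := by positivity
    linarith
  · push_cast
    set U := x ^ (1 - η) * y ^ η with hU
    have hU1 : 1 ≤ U := by
      have h1 : 1 ≤ x ^ (1 - η) := one_le_rpow hx1 (by linarith)
      have h2 : 1 ≤ y ^ η := one_le_rpow hy1 hη0.le
      rw [hU]
      nlinarith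
    have h1 : (64 * ω * μ * (18 * σ) ^ f : ℝ) ≤
        64 * ω * (18 * σ) ^ f + 512 * (9 / 4) ^ f * (z + 4) := by
      have h2 : (64 * ω * μ * (18 * σ) ^ f : ℝ) ≤ 64 * ω * (q + 1) * (18 * σ) ^ f := by
        apply mul_le_mul_of_nonneg_right _ (by positivity)
        apply mul_le_mul_of_nonneg_left hμ2 (by positivity)
      refine h2.trans (le_of_eq ?_)
      have h3 : 64 * ω * q * (18 * σ : ℝ) ^ f = 512 * (9 / 4) ^ f * (z + 4) := by
        have h4 : (18 * σ : ℝ) ^ f = (9 / 4) ^ f * (8 * σ) ^ f := by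
          rw [← mul_pow]; congr 1; ring
        rw [h4, hq, hR]
        field_simp
        ring
      rw [← h3]; ring
    have h2 : (64 * ω * (18 * σ) ^ f : ℝ) ≤ 320 * 54 ^ f * U := by
      have h3 : (σ : ℝ) ^ f ≤ 3 ^ f * (x / y) ^ (1 - η) := by
        calc (σ : ℝ) ^ f ≤ (3 * (x / y) ^ η) ^ f := pow_le_pow_left₀ hσ0'.le hσ4 _
          _ = 3 ^ f * (x / y) ^ (1 - η) := by
            rw [mul_pow, ← rpow_natCast ((x / y) ^ η), ← rpow_mul (by positivity), hη2]
      have h4 : y * (x / y) ^ (1 - η) = U := by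
        rw [hU, div_rpow (by linarith) (by linarith)]
        have h5 : y = y ^ (1 - η) * y ^ η := by
          rw [← rpow_add (by linarith)]
          simp
        nth_rewrite 1 [h5]
        have : y ^ (1 - η) ≠ 0 := by positivity
        field_simp
      calc (64 * ω * (18 * σ) ^ f : ℝ) = 64 * 18 ^ f * (ω * σ ^ f) := by rw [mul_pow]; ring
        _ ≤ 64 * 18 ^ f * ((5 * y) * (3 ^ f * (x / y) ^ (1 - η))) := by
          apply mul_le_mul_of_nonneg_left _ (by positivity)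
          exact mul_le_mul hω5 h3 (by positivity) (by positivity)
        _ = 320 * (18 * 3) ^ f * (y * (x / y) ^ (1 - η)) := by rw [mul_pow (18 : ℝ)]; ring
        _ = 320 * 54 ^ f * U := by rw [h4]; norm_num
    have h5 : (512 * (9 / 4) ^ f * (z + 4) : ℝ) ≤ 2048 * 54 ^ f * (U + z) := by
      have h6 : ((9 / 4 : ℝ)) ^ f ≤ 54 ^ f := pow_le_pow_left₀ (by norm_num) (by norm_num) _
      have h7 : z + 4 ≤ 4 * (U + z) := by linarith
      calc (512 * (9 / 4) ^ f * (z + 4) : ℝ) ≤ 512 * 54 ^ f * (4 * (U + z)) := by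
            apply mul_le_mul _ h7 (by positivity) (by positivity)
            apply mul_le_mul_of_nonneg_left h6 (by norm_num)
        _ = _ := by ring
    have h8 : (64 * ω * μ * (18 * σ) ^ f : ℝ) ≤ 2368 * 54 ^ f * (U + z) := by
      have h9 : 320 * 54 ^ f * U ≤ 320 * 54 ^ f * (U + z) := by
        apply mul_le_mul_of_nonneg_left _ (by positivity)
        linarith
      calc _ ≤ _ := h1
        _ ≤ 320 * 54 ^ f * (U + z) + 2048 * 54 ^ f * (U + z) := by linarith
        _ = _ := by ring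
    refine h8.trans (le_of_eq ?_)
    have h10 : U = log S ^ (1 - η) * log (2 * w) ^ η / log 2 := by
      rw [hU, hx, hy, logb, logb, div_rpow (log_nonneg (by linarith)) hl2.le,
        div_rpow (log_nonneg (by linarith)) hl2.le, div_mul_div_comm, ← rpow_add hl2]
      congr 1
      have : 1 - η + η = 1 := by ring
      rw [this, rpow_one]
    have h11 : z = log w0 / log 2 := rfl
    rw [h10, h11]
    field_simp

end Pool.CDep
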