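import Pool.Agent.CDep.Gadget

/-! # Constant depth: the two block structures on `N` digits (row E2) -/

set_option autoImplicit false

namespace Pool.CD

open Finset

/-- reading times of the first reader: blocks of length `A`, even times -/
def tu (A N : ℕ) (d : Fin N) : ℕ := 2 * (A * (d.val / A))

/-- reading times of the second reader: blocks of length `B`, odd times -/
def tv (B N : ℕ) (d : Fin N) : ℕ := 2 * (B * (d.val / B)) + 1

theorem tu_ne_tv (A B N : ℕ) (d d' : Fin N) : tu A N d ≠ tv B N d' := by
  unfold tu tv
  omega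

theorem tu_lt (A N : ℕ) (d : Fin N) : tu A N d < 2 * N := by
  unfold tu
  have h1 := Nat.mul_div_le d.val A
  have h2 := d.2
  omega

theorem tv_lt (B N : ℕ) (d : Fin N) : tv B N d < 2 * N := by
  unfold tv
  have h1 := Nat.mul_div_le d.val B
  have h2 := d.2
  omega

theorem card_block {A N : ℕ} (f : Fin N → ℕ) (t : ℕ) (hA : 1 ≤ A)
    (h : ∀ d, f d = t → ∃ q, d.val / A = q ∧ ∀ d', f d' = t → d'.val / A = q) :
    (univ.filter fun d : Fin N => f d = t).card ≤ A := by
  classical
  rcases (univ.filter fun d : Fin N => f d = t).eq_empty_or_nonempty with h0 | ⟨d0, h0⟩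
  · rw [h0, card_empty]
    omega
  · obtain ⟨q, _, hq⟩ := h d0 (mem_filter.1 h0).2
    have h1 : (univ.filter fun d : Fin N => f d = t).card ≤ (Finset.range A).card := by
      refine card_le_card_of_injOn (fun d => d.val % A) ?_ ?_
      · intro d _
        simpa using Nat.mod_lt _ hA
      · intro d hd d' hd' he
        have e1 := hq d (mem_filter.1 hd).2
        have e2 := hq d' (mem_filter.1 hd').2
        have e3 : d.val % A = d'.val % A := he
        have e4 := Nat.div_add_mod d.val A
        have e5 := Nat.div_add_mod d'.val A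
        rw [e1, e3] at e4
        rw [e2] at e5
        ext
        omega
    rwa [card_range] at h1

theorem card_tu {A N : ℕ} (hA : 1 ≤ A) (t : ℕ) :
    (univ.filter fun d : Fin N => tu A N d = t).card ≤ A := by
  refine card_block _ t hA fun d hd => ⟨d.val / A, rfl, fun d' hd' => ?_⟩
  unfold tu at hd hd'
  have h1 : A * (d'.val / A) = A * (d.val / A) := by omega
  exact Nat.eq_of_mul_eq_mul_left hA h1

theorem card_tv {B N : ℕ} (hB : 1 ≤ B) (t : ℕ) :
    (univ.filter fun d : Fin N => tv B N d = t).card ≤ B := by
  refine card_block _ t hB fun d hd => ⟨d.val / B, rfl, fun d' hd' => ?_⟩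
  unfold tv at hd hd'
  have h1 : B * (d'.val / B) = B * (d.val / B) := by omega
  exact Nat.eq_of_mul_eq_mul_left hB h1

theorem card_image_tu {A r : ℕ} (hA : 1 ≤ A) : (univ.image (tu A (A * r))).card = r := by
  classical
  have h1 : univ.image (tu A (A * r)) = (Finset.range r).image fun i => 2 * (A * i) := by
    ext x
    simp only [mem_image, mem_univ, true_and, mem_range, tu]
    constructor
    · rintro ⟨d, rfl⟩
      exact ⟨d.val / A, Nat.div_lt_of_lt_mul d.2, rfl⟩
    · rintro ⟨i, hi, rfl⟩
      refine ⟨⟨A * i, Nat.mul_lt_mul_of_pos_left hi hA⟩, ?_⟩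
      simp only
      rw [Nat.mul_div_cancel_left _ hA]
  rw [h1, card_image_of_injective, card_range]
  intro i j hij
  have h2 : 2 * (A * i) = 2 * (A * j) := hij
  have : A * i = A * j := by omega
  exact Nat.eq_of_mul_eq_mul_left hA this

theorem card_image_tv {B r : ℕ} (hB : 1 ≤ B) : (univ.image (tv B (B * r))).card = r := by
  classical
  have h1 : univ.image (tv B (B * r)) = (Finset.range r).image fun i => 2 * (B * i) + 1 := by
    ext x
    simp only [mem_image, mem_univ, true_and, mem_range, tv]
    constructor
    · rintro ⟨d, rfl⟩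
      exact ⟨d.val / B, Nat.div_lt_of_lt_mul d.2, rfl⟩
    · rintro ⟨i, hi, rfl⟩
      refine ⟨⟨B * i, Nat.mul_lt_mul_of_pos_left hi hB⟩, ?_⟩
      simp only
      rw [Nat.mul_div_cancel_left _ hB]
  rw [h1, card_image_of_injective, card_range]
  intro i j hij
  have h2 : 2 * (B * i) + 1 = 2 * (B * j) + 1 := hij
  have : B * i = B * j := by omega
  exact Nat.eq_of_mul_eq_mul_left hB this

/-- the window has at most `A + 1` digits -/
theorem card_window {A B N : ℕ} (hB : 1 ≤ B) (hBA : B ≤ A) (t : ℕ) :
    (Pool.CDep.win (tu A N) (tv B N) t).card ≤ A + 1 := by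
  classical
  have h1 : (Pool.CDep.win (tu A N) (tv B N) t).card ≤
      (Finset.Icc ((t - 1) / 2) ((t - 1) / 2 + A)).card := by
    refine card_le_card_of_injOn (fun d => d.val) ?_ ?_
    · intro d hd
      have hd' := (mem_filter.1 hd).2
      unfold tu tv at hd'
      have a1 := Nat.div_add_mod d.val A
      have a2 := Nat.mod_lt d.val (show 0 < A by omega)
      have b1 := Nat.div_add_mod d.val B
      have b2 := Nat.mod_lt d.val (show 0 < B by omega)
      generalize A * (d.val / A) = x at hd' a1
      generalize B * (d.val / B) = y at hd' b1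
      generalize d.val % A = z at a1 a2
      generalize d.val % B = v at b1 b2
      simp only [coe_Icc, Set.mem_Icc]
      by_cases c1 : 2 * x < t
      · by_cases c2 : 2 * y + 1 < t
        · exact absurd (iff_of_true c1 c2) hd'
        · omega
      · by_cases c2 : 2 * y + 1 < t
        · omega
        · exact absurd (iff_of_false c1 c2) hd'
    · intro d _ d' _ he
      exact Fin.ext he
  rw [Nat.card_Icc] at h1
  omega

end Pool.CD
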