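import Pool.Agent.CDep.Chain

/-! # Constant depth: the final count (row E3) -/

set_option autoImplicit false

namespace Pool.CD

open Finset

/-- from the rank inequality to the number of summands -/
theorem count_final {A B r E N T : ℕ} {c : ℝ} (hc : 4 ≤ c) (hA : A * r = N) (hB : B * E = N)
    (h : (2 : ℝ) ^ N ≤ 2 ^ (r + E) * (T * 4 ^ (r + E) * ((2 : ℝ) ^ ((A : ℝ) / 2 - c)) ^ r *
      ((2 : ℝ) ^ ((B : ℝ) / 2 - c)) ^ E)) : (2 : ℝ) ^ (r + E) ≤ T := by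
  have hA' : (A : ℝ) * r = N := by exact_mod_cast hA
  have hB' : (B : ℝ) * E = N := by exact_mod_cast hB
  have h1 : (2 : ℝ) ^ (r + E) * (T * 4 ^ (r + E) * ((2 : ℝ) ^ ((A : ℝ) / 2 - c)) ^ r *
      ((2 : ℝ) ^ ((B : ℝ) / 2 - c)) ^ E) =
      T * (2 : ℝ) ^ ((N : ℝ) + (3 - c) * (r + E)) := by
    have e1 : (2 : ℝ) ^ (r + E) * (T * 4 ^ (r + E) * ((2 : ℝ) ^ ((A : ℝ) / 2 - c)) ^ r *
      ((2 : ℝ) ^ ((B : ℝ) / 2 - c)) ^ E) = T * (((2 : ℝ) ^ (3 : ℕ)) ^ (r + E) *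
        (((2 : ℝ) ^ ((A : ℝ) / 2 - c)) ^ r * ((2 : ℝ) ^ ((B : ℝ) / 2 - c)) ^ E)) := by
      have : ((2 : ℝ) ^ (3 : ℕ)) ^ (r + E) = 2 ^ (r + E) * 4 ^ (r + E) := by
        rw [← mul_pow]; norm_num
      rw [this]
      ring
    rw [e1, two_rpow_mul]
    have e2 : ((2 : ℝ) ^ (3 : ℕ)) ^ (r + E) = (2 : ℝ) ^ ((3 : ℝ) * (r + E)) := by
      rw [← pow_mul, ← Real.rpow_natCast]
      congr 1
      push_cast
      ring
    rw [e2, ← Real.rpow_add (by norm_num)]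
    congr 2
    linarith
  rw [h1, Real.rpow_add (by norm_num), Real.rpow_natCast] at h
  have h2 : (0 : ℝ) < 2 ^ N := by positivity
  have h3 : (2 : ℝ) ^ N * 1 ≤ 2 ^ N * (T * (2 : ℝ) ^ ((3 - c) * (r + E))) := by
    calc (2 : ℝ) ^ N * 1 = 2 ^ N := mul_one _
      _ ≤ T * (2 ^ N * (2 : ℝ) ^ ((3 - c) * (r + E))) := h
      _ = _ := by ring
  have h4 := le_of_mul_le_mul_left h3 h2
  have h5 : (2 : ℝ) ^ ((3 - c) * (r + E)) ≤ (2 : ℝ) ^ (-((r : ℝ) + E)) := by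
    apply Real.rpow_le_rpow_of_exponent_le (by norm_num)
    have : (0 : ℝ) ≤ (r : ℝ) + E := by positivity
    nlinarith
  have h6 : 1 ≤ (T : ℝ) * (2 : ℝ) ^ (-((r : ℝ) + E)) := by
    refine h4.trans (mul_le_mul_of_nonneg_left h5 (Nat.cast_nonneg _))
  rw [Real.rpow_neg (by norm_num), ← div_eq_mul_inv, le_div_iff₀ (Real.rpow_pos_of_pos (by norm_num) _),
    one_mul] at h6
  have h7 : (2 : ℝ) ^ ((r : ℝ) + E) = 2 ^ (r + E) := by
    rw [← Nat.cast_add, Real.rpow_natCast]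
  rwa [h7] at h6

/-- the size of the gadget -/
theorem size_bound {A A0 B0 m t : ℕ} (hA : A = m * A0) (hB : B0 ≤ A) (hA16 : 16 ≤ A)
    (ht : 1 ≤ t) : (2 * (t * m * A0 * B0) + 1) * 2 ^ (A + 1) + 1 ≤ t * 2 ^ (2 * A + 4) := by
  have h1 : ∀ x : ℕ, 16 ≤ x → x * x ≤ 2 ^ x := by
    intro x hx
    induction x, hx using Nat.le_induction with
    | base => norm_num
    | succ x hx ih =>
      rw [pow_succ]
      nlinarith
  have h2 : m * A0 * B0 ≤ A * A := by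
    rw [← hA]
    exact Nat.mul_le_mul_left _ hB
  have h3 : m * A0 * B0 ≤ 2 ^ A := h2.trans (h1 A hA16)
  have h4 : t * m * A0 * B0 ≤ t * 2 ^ A := by
    calc t * m * A0 * B0 = t * (m * A0 * B0) := by ring
      _ ≤ t * 2 ^ A := Nat.mul_le_mul_left _ h3
  have h5 : 1 ≤ 2 ^ A := Nat.one_le_two_pow
  have e1 : 2 ^ (A + 1) = 2 * 2 ^ A := by rw [pow_succ]; ring
  have e2 : 2 ^ (2 * A + 4) = 16 * (2 ^ A * 2 ^ A) := by
    rw [pow_add, two_mul, pow_add]; ring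
  rw [e1, e2]
  set q := 2 ^ A with hq
  have h6 : t * m * A0 * B0 * q ≤ t * q * q := Nat.mul_le_mul_right _ h4
  have h7 : t * 1 ≤ t * q := Nat.mul_le_mul_left _ h5
  have h8 : t * q * 1 ≤ t * q * q := Nat.mul_le_mul_left _ h5
  have h9 : 1 * q ≤ t * q := Nat.mul_le_mul_right _ ht
  calc (2 * (t * m * A0 * B0) + 1) * (2 * q) + 1
      = 4 * (t * m * A0 * B0 * q) + 2 * q + 1 := by ring
    _ ≤ 4 * (t * q * q) + 2 * (t * q * q) + t * q * q := by
        have : 1 ≤ t * q * q := by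
          have := Nat.mul_le_mul (Nat.mul_le_mul ht h5) h5
          simpa using this
        omega
    _ ≤ t * (16 * (q * q)) := by nlinarith

/-- the final real inequality -/
theorem log_final {n A T : ℕ} {C' G : ℝ} (hC' : 0 < C') (hG : 0 ≤ G) (hA : (A : ℝ) ≤ C' * G)
    (hT : (2 : ℝ) ^ (n / 2 ^ (2 * A + 4)) ≤ T) :
    n * Real.exp (-(max 24 (2 * C') * G)) ≤ max 24 (2 * C') * Real.log (2 * T) := by
  set D : ℝ := max 24 (2 * C') with hD
  have hD24 : 24 ≤ D := le_max_left _ _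
  have hDC : 2 * C' ≤ D := le_max_right _ _
  set t := n / 2 ^ (2 * A + 4) with ht
  have hl2 : (0.6931 : ℝ) < Real.log 2 := by
    have := Real.log_two_gt_d9
    linarith
  have hl2' : Real.log 2 < 0.6932 := by
    have := Real.log_two_lt_d9
    linarith
  have hTpos : (0 : ℝ) < T := lt_of_lt_of_le (by positivity) hT
  have h1 : ((t : ℝ) + 1) * Real.log 2 ≤ Real.log (2 * T) := by
    have e1 : Real.log ((2 : ℝ) ^ (t + 1)) ≤ Real.log (2 * T) := by
      apply Real.log_le_log (by positivity)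
      rw [pow_succ]
      linarith
    rw [Real.log_pow] at e1
    push_cast at e1
    exact e1
  have h2 : (n : ℝ) ≤ (t + 1) * 2 ^ (2 * A + 4) := by
    have e1 : n < (t + 1) * 2 ^ (2 * A + 4) := by
      have e2 := Nat.div_add_mod n (2 ^ (2 * A + 4))
      have e3 := Nat.mod_lt n (show 0 < 2 ^ (2 * A + 4) by positivity)
      rw [← ht] at e2
      nlinarith
    exact_mod_cast e1.le
  have h3 : (2 : ℝ) ^ (2 * A + 4) ≤ 16 * Real.exp (D * G) := by
    have e1 : (2 : ℝ) ^ (2 * A + 4) = 16 * (2 : ℝ) ^ (2 * A) := by rw [pow_add]; norm_num; ring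
    have e2 : (2 : ℝ) ^ (2 * A) = Real.exp ((2 * A : ℕ) * Real.log 2) := by
      rw [Real.exp_nat_mul, Real.exp_log (by norm_num)]
    rw [e1, e2]
    have e3 : ((2 * A : ℕ) : ℝ) * Real.log 2 ≤ D * G := by
      push_cast
      have e4 : (0 : ℝ) ≤ A := Nat.cast_nonneg _
      have e5 : 2 * (A : ℝ) * Real.log 2 ≤ 2 * A := by nlinarith
      have e6 : 2 * C' * G ≤ D * G := mul_le_mul_of_nonneg_right hDC hG
      linarith
    have := Real.exp_le_exp.2 e3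
    linarith
  have h4 : (0 : ℝ) ≤ (t : ℝ) + 1 := by positivity
  have h5 : (n : ℝ) ≤ (t + 1) * (16 * Real.exp (D * G)) :=
    h2.trans (mul_le_mul_of_nonneg_left h3 h4)
  have h6 : (n : ℝ) * Real.exp (-(D * G)) ≤ (t + 1) * 16 := by
    calc (n : ℝ) * Real.exp (-(D * G)) ≤ (t + 1) * (16 * Real.exp (D * G)) * Real.exp (-(D * G)) :=
          mul_le_mul_of_nonneg_right h5 (Real.exp_pos _).le
      _ = (t + 1) * 16 * (Real.exp (D * G) * Real.exp (-(D * G))) := by ring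
      _ = (t + 1) * 16 := by rw [← Real.exp_add, add_neg_cancel, Real.exp_zero, mul_one]
  have h7 : ((t : ℝ) + 1) * 16 ≤ 24 * (((t : ℝ) + 1) * Real.log 2) := by nlinarith
  have h8 : 0 ≤ Real.log (2 * T) := by
    have : 0 ≤ ((t : ℝ) + 1) * Real.log 2 := by nlinarith
    linarith
  have h9 : 24 * Real.log (2 * T) ≤ D * Real.log (2 * T) := mul_le_mul_of_nonneg_right hD24 h8
  linarith

end Pool.CD
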