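import Pool.Agent.Helper87.D3.Series

/-!
# Constant depth: every field, and up to errors of valuation less than one

The coefficient matrix of a polynomial at an integral gadget, over every commutative ring.
-/

set_option autoImplicit false

namespace Pool.CDep

open Finset MvPolynomial Pool.Agent.Helper87.D3

section Val

variable {E Γ : Type} [Field E] [LinearOrderedCommGroupWithZero Γ] (v : Valuation E Γ)

theorem det_one_add_ne_zero {ι : Type} [Fintype ι] [DecidableEq ι] (e : Matrix ι ι E)
    (he : ∀ i j, v (e i j) < 1) : (1 + e).det ≠ 0 := by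
  intro h0
  obtain ⟨x, hx, hx0⟩ := Matrix.exists_mulVec_eq_zero_iff.2 h0
  obtain ⟨k, hk⟩ : ∃ k, x k ≠ 0 := by
    by_contra hcon
    push Not at hcon
    exact hx (funext hcon)
  obtain ⟨i, -, hi⟩ := Finset.exists_max_image univ (fun i => v (x i)) ⟨k, mem_univ k⟩
  have hpos : v (x i) ≠ 0 := by
    intro h
    have := hi k (mem_univ k)
    rw [h, le_zero_iff, Valuation.zero_iff] at this
    exact hk this
  have h1 : x i = - ∑ j, e i j * x j := by
    have := congrFun hx0 i
    rw [Matrix.add_mulVec, Matrix.one_mulVec, Pi.add_apply, Pi.zero_apply] at this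
    exact eq_neg_of_add_eq_zero_left this
  have h2 : v (x i) < v (x i) := by
    conv_lhs => rw [h1, Valuation.map_neg]
    refine Valuation.map_sum_lt v hpos fun j _ => ?_
    rw [map_mul]
    by_cases hj : v (x j) = 0
    · rw [hj, mul_zero]
      exact zero_lt_iff.2 hpos
    · calc v (e i j) * v (x j) < 1 * v (x j) :=
            mul_lt_mul_of_pos_right (he i j) (zero_lt_iff.2 hj)
        _ ≤ v (x i) := by rw [one_mul]; exact hi j (mem_univ j)
  exact lt_irrefl _ h2

/-- series whose coefficients lie in the valuation ring -/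
def IntSer (F : Ser E) : Prop := ∀ b e, v (cf b e F) ≤ 1

variable {v}

theorem IntSer.one : IntSer v (1 : Ser E) := fun b e => by
  rw [cf_one]
  split_ifs
  · rw [map_one]
  · rw [map_zero]; exact zero_le

theorem IntSer.mul {F G : Ser E} (hF : IntSer v F) (hG : IntSer v G) : IntSer v (F * G) :=
  fun b e => by
    rw [cf_mul]
    refine Valuation.map_sum_le v fun i _ => Valuation.map_sum_le v fun j _ => ?_
    rw [map_mul]
    exact mul_le_one' (hF _ _) (hG _ _)

theorem IntSer.add {F G : Ser E} (hF : IntSer v F) (hG : IntSer v G) : IntSer v (F + G) :=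
  fun b e => by
    rw [cf_add]
    exact Valuation.map_add_le v (hF _ _) (hG _ _)

theorem IntSer.pow {F : Ser E} (hF : IntSer v F) (n : ℕ) : IntSer v (F ^ n) := by
  induction n with
  | zero => rw [pow_zero]; exact IntSer.one
  | succ n ih => rw [pow_succ]; exact ih.mul hF

theorem IntSer.prod {ι : Type} (s : Finset ι) (F : ι → Ser E) (h : ∀ i ∈ s, IntSer v (F i)) :
    IntSer v (∏ i ∈ s, F i) := by
  classical
  induction s using Finset.induction_on with
  | empty => rw [prod_empty]; exact IntSer.one
  | insert a s ha ih =>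
    rw [prod_insert ha]
    exact (h a (mem_insert_self _ _)).mul (ih fun i hi => h i (mem_insert_of_mem hi))

theorem v_intCast_le (k : ℤ) : v (k : E) ≤ 1 := by
  have h : ∀ n : ℕ, v (n : E) ≤ 1 := by
    intro n
    induction n with
    | zero => rw [Nat.cast_zero, map_zero]; exact zero_le
    | succ n ih =>
      rw [Nat.cast_succ]
      exact Valuation.map_add_le v ih (by rw [map_one])
  rcases Int.eq_nat_or_neg k with ⟨n, rfl | rfl⟩
  · exact_mod_cast h n
  · rw [Int.cast_neg, Valuation.map_neg]
    exact_mod_cast h n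

theorem intSer_cst {x : E} (hx : v x ≤ 1) : IntSer v (cst x) := fun b e => by
  rw [cf_cst]
  split_ifs
  · exact hx
  · rw [map_zero]; exact zero_le

theorem intSer_lam {x : E} (hx : v x ≤ 1) : IntSer v (lam E * cst x) := fun b e => by
  rw [cf_lam_mul]
  split_ifs
  · exact hx
  · rw [map_zero]; exact zero_le

theorem intSer_mu {x : E} (hx : v x ≤ 1) : IntSer v (mu E * cst x) := fun b e => by
  rw [cf_mu_mul]
  split_ifs
  · exact hx
  · rw [map_zero]; exact zero_le

/-- a polynomial with small coefficients has small values at integral series -/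
theorem v_cf_aeval_lt {σ : Type} (P : MvPolynomial σ E) (hP : ∀ m, v (coeff m P) < 1)
    (g : σ → Ser E) (hg : ∀ s, IntSer v (g s)) (b e : ℕ) : v (cf b e (aeval g P)) < 1 := by
  rw [aeval_def, eval₂_eq, cf_sum]
  refine Valuation.map_sum_lt v one_ne_zero fun m _ => ?_
  have h1 : algebraMap E (Ser E) (coeff m P) = cst (coeff m P) := by
    rw [PowerSeries.algebraMap_apply, PowerSeries.algebraMap_apply]
    rfl
  rw [h1, cf_cst_mul, map_mul]
  have h2 : IntSer v (∏ i ∈ m.support, g i ^ m i) := IntSer.prod _ _ fun i _ => (hg i).pow _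
  calc v (coeff m P) * v (cf b e (∏ i ∈ m.support, g i ^ m i))
      ≤ v (coeff m P) * 1 := mul_le_mul_right (h2 b e) _
    _ < 1 := by rw [mul_one]; exact hP m

end Val

section Gad

/-- the permanent as a polynomial in the entries -/
noncomputable def permP (n : ℕ) (S : Type) [CommRing S] : MvPolynomial (Fin n × Fin n) S :=
  (Matrix.of fun i j => (X (i, j) : MvPolynomial (Fin n × Fin n) S)).permanent

theorem map_permanent' {A B : Type} [CommRing A] [CommRing B] {ι : Type} [Fintype ι]
    [DecidableEq ι] (f : A →+* B) (M : Matrix ι ι A) : f M.permanent = (M.map f).permanent := by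
  unfold Matrix.permanent
  rw [map_sum]
  exact sum_congr rfl fun σ _ => by rw [map_prod]; rfl

theorem cst_intCast {S : Type} [CommRing S] (k : ℤ) : cst (k : S) = (k : Ser S) := by
  unfold cst
  rw [map_intCast, map_intCast]

/-- the map on series induced by a ring homomorphism -/
noncomputable def serMap {S R : Type} [CommRing S] [CommRing R] (f : S →+* R) : Ser S →+* Ser R :=
  PowerSeries.map (PowerSeries.map f)

theorem cf_serMap {S R : Type} [CommRing S] [CommRing R] (f : S →+* R) (b e : ℕ) (F : Ser S) :
    cf b e (serMap f F) = f (cf b e F) := by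
  unfold cf serMap
  rw [PowerSeries.coeff_map, PowerSeries.coeff_map]

theorem serMap_cst {S R : Type} [CommRing S] [CommRing R] (f : S →+* R) (x : S) :
    serMap f (cst x) = cst (f x) := by
  unfold serMap cst
  rw [PowerSeries.map_C, PowerSeries.map_C]

theorem serMap_lam {S R : Type} [CommRing S] [CommRing R] (f : S →+* R) :
    serMap f (lam S) = lam R := by
  unfold serMap lam
  rw [PowerSeries.map_X]

theorem serMap_mu {S R : Type} [CommRing S] [CommRing R] (f : S →+* R) :
    serMap f (mu S) = mu R := by
  unfold serMap mu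
  rw [PowerSeries.map_C, PowerSeries.map_X]

theorem algebraMap_ser' {S R : Type} [CommRing S] [CommRing R] [Algebra S R] (x : S) :
    algebraMap S (Ser R) x = cst (algebraMap S R x) := by
  rw [PowerSeries.algebraMap_apply, PowerSeries.algebraMap_apply]
  rfl

/-- integral data of a substitution which is affine in two variables `lam`, `mu`; the coefficient
of `lam` depends on the first word, the coefficient of `mu` on the second word -/
structure IntDat (σ : Type) (N h : ℕ) where
  C : σ → ℤ
  a : σ → (Fin N → Fin h) → ℤ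
  b : σ → (Fin N → Fin h) → ℤ

variable {σ : Type} {N h : ℕ} (D : IntDat σ N h)

/-- the substitution, over functions on pairs of words -/
noncomputable def IntDat.Phi (R : Type) [CommRing R] :
    MvPolynomial σ R →ₐ[R] Ser ((Fin N → Fin h) × (Fin N → Fin h) → R) :=
  aeval fun i => cst ((D.C i : ℤ) : (Fin N → Fin h) × (Fin N → Fin h) → R) +
    lam _ * cst (fun p => (D.a i p.1 : R)) + mu _ * cst (fun p => (D.b i p.2 : R))

/-- the matrix of the coefficients of `lam ^ r * mu ^ E` -/
noncomputable def IntDat.Mat (R : Type) [CommRing R] (r E : ℕ) (F : MvPolynomial σ R) :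
    Matrix (Fin N → Fin h) (Fin N → Fin h) R :=
  Matrix.of fun p p' => cf r E (D.Phi R F) (p, p')

/-- the values of the substitution at a pair of words -/
noncomputable def IntDat.ent (R : Type) [CommRing R] (p q : Fin N → Fin h) (i : σ) : Ser R :=
  (D.C i : Ser R) + lam R * (D.a i p : Ser R) + mu R * (D.b i q : Ser R)

theorem IntDat.serMap_Phi {R R' : Type} [CommRing R] [CommRing R'] (f : R →+* R')
    (p q : Fin N → Fin h) (F : MvPolynomial σ R) :
    serMap (f.comp (Pi.evalRingHom _ (p, q))) (D.Phi R F) = aeval (D.ent R' p q) (map f F) := by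
  unfold IntDat.Phi
  rw [aeval_def, aeval_def, hom_eval₂, eval₂_map]
  have h2 : (serMap (f.comp (Pi.evalRingHom _ (p, q)))).comp
      (algebraMap R (Ser ((Fin N → Fin h) × (Fin N → Fin h) → R))) =
      (algebraMap R' (Ser R')).comp f := by
    ext x : 1
    show serMap _ (algebraMap R _ x) = algebraMap R' (Ser R') (f x)
    rw [algebraMap_ser', serMap_cst, algebraMap_ser']
    rfl
  rw [h2]
  congr 1
  ext i : 1
  rw [map_add, map_add, map_mul, map_mul, serMap_cst, serMap_cst, serMap_cst, serMap_lam,
    serMap_mu, map_intCast, cst_intCast]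
  unfold IntDat.ent
  rw [← cst_intCast (D.a i p), ← cst_intCast (D.b i q)]
  simp

theorem IntDat.Mat_eq {R : Type} [CommRing R] (r E : ℕ) (F : MvPolynomial σ R)
    (p q : Fin N → Fin h) : D.Mat R r E F p q = cf r E (aeval (D.ent R p q) F) := by
  have h1 := D.serMap_Phi (RingHom.id R) p q F
  rw [map_id, RingHom.id_comp] at h1
  rw [← h1, cf_serMap]
  rfl

theorem IntDat.Mat_map {R R' : Type} [CommRing R] [CommRing R'] (f : R →+* R') (r E : ℕ)
    (F : MvPolynomial σ R) : D.Mat R' r E (map f F) = (D.Mat R r E F).map f := by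
  ext p q
  rw [D.Mat_eq, ← D.serMap_Phi f p q F, cf_serMap]
  rfl

theorem IntDat.Mat_add {R : Type} [CommRing R] (r E : ℕ) (F G : MvPolynomial σ R) :
    D.Mat R r E (F + G) = D.Mat R r E F + D.Mat R r E G := by
  ext p q
  rw [Matrix.add_apply, D.Mat_eq, D.Mat_eq, D.Mat_eq, map_add, cf_add]

/-- if the image of the coefficient matrix is regular, the coefficient matrix is regular -/
theorem IntDat.det_lift {R R' : Type} [CommRing R] [CommRing R'] (f : R →+* R') (r E : ℕ)
    (F : MvPolynomial σ R) (hd : (D.Mat R' r E (map f F)).det ≠ 0) :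
    (D.Mat R r E F).det ≠ 0 := by
  intro h0
  rw [D.Mat_map, ← RingHom.mapMatrix_apply, ← RingHom.map_det, h0, map_zero] at hd
  exact hd rfl

/-- an injective homomorphism preserves regularity -/
theorem IntDat.det_inj {R R' : Type} [CommRing R] [CommRing R'] (f : R →+* R')
    (hf : Function.Injective f) (r E : ℕ)
    (F : MvPolynomial σ R) (hd : (D.Mat R r E F).det ≠ 0) :
    (D.Mat R' r E (map f F)).det ≠ 0 := by
  rw [D.Mat_map, ← RingHom.mapMatrix_apply, ← RingHom.map_det]
  intro h0
  exact hd (hf (by rw [h0, map_zero]))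

/-- the entries of the coefficient matrix of a polynomial with small coefficients are small -/
theorem IntDat.Mat_lt {F Γ : Type} [Field F] [LinearOrderedCommGroupWithZero Γ]
    (v : Valuation F Γ) (r E : ℕ) (P : MvPolynomial σ F) (hP : ∀ m, v (coeff m P) < 1)
    (p q : Fin N → Fin h) : v (D.Mat F r E P p q) < 1 := by
  rw [D.Mat_eq]
  refine v_cf_aeval_lt P hP _ (fun i => ?_) _ _
  have h1 : D.ent F p q i = cst ((D.C i : ℤ) : F) + lam F * cst ((D.a i p : ℤ) : F) +
      mu F * cst ((D.b i q : ℤ) : F) := by
    rw [cst_intCast, cst_intCast, cst_intCast]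
    rfl
  rw [h1]
  exact ((intSer_cst (v_intCast_le _)).add (intSer_lam (v_intCast_le _))).add
    (intSer_mu (v_intCast_le _))

/-- a polynomial whose coefficient matrix is the identity matrix, up to coefficients of valuation
less than one -/
theorem IntDat.det_ne_zero {F Γ : Type} [Field F] [LinearOrderedCommGroupWithZero Γ]
    (v : Valuation F Γ) (r E : ℕ) (P P₀ : MvPolynomial σ F) (h1 : D.Mat F r E P₀ = 1)
    (hP : ∀ m, v (coeff m (P - P₀)) < 1) : (D.Mat F r E P).det ≠ 0 := by
  have h2 : D.Mat F r E P = 1 + D.Mat F r E (P - P₀) := by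
    rw [← h1, ← D.Mat_add, add_sub_cancel]
  rw [h2]
  exact det_one_add_ne_zero v _ fun p q => D.Mat_lt v r E _ hP p q

variable {n : ℕ} (G : IntDat (Fin n × Fin n) N h)

/-- the permanent of the matrix of the substitution is the identity matrix -/
def IntDat.IsGad (r E : ℕ) : Prop :=
  ∀ (A : Type) [CommRing A] (x y : A) (p q : Fin N → Fin h),
    (Matrix.of fun i j => (G.C (i, j) : A) + x * (G.a (i, j) p : A) +
      y * (G.b (i, j) q : A)).permanent = if p = q then x ^ r * y ^ E else 0

variable {r E : ℕ}

theorem IntDat.Mat_perm (hG : G.IsGad r E) (S : Type) [CommRing S] :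
    G.Mat S r E (permP n S) = 1 := by
  ext p q
  have h1 : aeval (G.ent S p q) (permP n S) =
      if p = q then lam S ^ r * mu S ^ E else 0 := by
    rw [← hG (Ser S) (lam S) (mu S) p q]
    have h2 : aeval (G.ent S p q) (permP n S) =
        ((aeval (G.ent S p q) : MvPolynomial (Fin n × Fin n) S →ₐ[S] Ser S) : _ →+* _)
          (permP n S) := rfl
    rw [h2]
    unfold permP
    rw [map_permanent']
    congr 1
    refine Matrix.ext fun i j => ?_
    show aeval (G.ent S p q) (X (i, j) : MvPolynomial (Fin n × Fin n) S) = _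
    rw [aeval_X]
    rfl
  rw [G.Mat_eq, h1]
  by_cases hpq : p = q
  · rw [if_pos hpq, hpq, Matrix.one_apply_eq]
    have := cf_lam_pow_mul r E r E (1 : S)
    rw [cst_one, mul_one] at this
    rw [this, if_pos ⟨rfl, rfl⟩]
  · rw [if_neg hpq, Matrix.one_apply_ne hpq, cf_zero]

theorem map_permP {S R : Type} [CommRing S] [CommRing R] (f : S →+* R) :
    map f (permP n S) = permP n R := by
  unfold permP
  rw [map_permanent']
  congr 1
  refine Matrix.ext fun i j => ?_
  show map f (X (i, j)) = X (i, j)
  rw [map_X]

/-- (V2), valuation form -/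
theorem IntDat.det_val (hG : G.IsGad r E) {F Γ : Type} [Field F]
    [LinearOrderedCommGroupWithZero Γ] (v : Valuation F Γ) (P : MvPolynomial (Fin n × Fin n) F)
    (hP : ∀ m, v (coeff m (P - permP n F)) < 1) : (G.Mat F r E P).det ≠ 0 :=
  G.det_ne_zero v r E P _ (G.Mat_perm hG F) hP

/-- (V2), ring form -/
theorem IntDat.det_ring (hG : G.IsGad r E) {R k F : Type} [CommRing R] [CommRing k]
    [Nontrivial k] [Field F] (ι : R →+* F) (hι : Function.Injective ι) (ev : R →+* k)
    (P : MvPolynomial (Fin n × Fin n) R) (hP : map ev P = permP n k) :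
    (G.Mat F r E (map ι P)).det ≠ 0 := by
  refine G.det_inj ι hι r E P (G.det_lift ev r E P ?_)
  rw [hP, G.Mat_perm hG, Matrix.det_one]
  exact one_ne_zero

end Gad

end Pool.CDep
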