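import Pool.Agent.Helper41.CD.Gate
import Pool.Agent.CDep.Val

/-!
# CDep: lifting the classes of constant depth to characteristic zero

The classes `Cls w0 w S k` are stable under changes of coefficients, and every member over a
quotient ring is the image of a member over the ring.  Every commutative ring `E` is a quotient of
`LRing E = MvPolynomial E ℤ`, a domain of characteristic zero with fraction field `LField E`.  So a
sum of products with a regular coefficient matrix over `E` lifts to one over a field of
characteristic zero (`exists_charZero`).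
-/

set_option autoImplicit false

namespace Pool.CDep

open Finset MvPolynomial Pool.Agent.Helper41.CD

section Map

variable {R R' σ : Type} [CommRing R] [CommRing R']

theorem map_aeval_eq {τ : Type} (φ : R →+* R') (g : τ → MvPolynomial σ R)
    (p : MvPolynomial τ R) :
    MvPolynomial.map φ (aeval g p) =
      aeval (fun i => MvPolynomial.map φ (g i)) (MvPolynomial.map φ p) :=
  map_bind₁ φ g p

/-- the classes are stable under changes of coefficients -/
theorem cls_map {w0 w S : ℕ} (φ : R →+* R') :
    ∀ (k : ℕ) {f : MvPolynomial σ R}, f ∈ Cls w0 w S k → MvPolynomial.map φ f ∈ Cls w0 w S k := by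
  intro k
  induction k with
  | zero =>
    rintro f ⟨L, Q, hL, rfl⟩
    exact ⟨fun i => MvPolynomial.map φ (L i), MvPolynomial.map φ Q,
      fun i => (Finset.sup_mono (support_map_subset φ (L i))).trans (hL i), map_aeval_eq φ L Q⟩
  | succ k ih =>
    rintro f ⟨F, Q, hF, rfl⟩
    refine ⟨fun l i j => MvPolynomial.map φ (F l i j), MvPolynomial.map φ Q,
      fun l i j => ih (hF l i j), ?_⟩
    rw [map_aeval_eq]
    simp only [map_sum, map_prod]

/-- lifting of a polynomial without new monomials -/
theorem exists_lift_degree (π : R →+* R') (hπ : Function.Surjective π) (f : MvPolynomial σ R') :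
    ∃ g : MvPolynomial σ R, MvPolynomial.map π g = f ∧ g.totalDegree ≤ f.totalDegree := by
  classical
  choose s hs using hπ
  refine ⟨∑ m ∈ f.support, monomial m (s (coeff m f)), ?_, ?_⟩
  · rw [map_sum]
    simp only [map_monomial, hs]
    exact f.support_sum_monomial_coeff
  · refine (totalDegree_finsetSum _ _).trans (Finset.sup_le fun m hm => ?_)
    exact (totalDegree_monomial_le m _).trans (le_totalDegree hm)

/-- the members of the classes lift -/
theorem cls_lift {w0 w S : ℕ} (π : R →+* R') (hπ : Function.Surjective π) :
    ∀ (k : ℕ) {f : MvPolynomial σ R'}, f ∈ Cls w0 w S k →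
      ∃ g : MvPolynomial σ R, g ∈ Cls w0 w S k ∧ MvPolynomial.map π g = f := by
  intro k
  induction k with
  | zero =>
    rintro f ⟨L, Q, hL, rfl⟩
    choose L' hL' hd using fun i => exists_lift_degree π hπ (L i)
    obtain ⟨Q', hQ'⟩ := map_surjective π hπ Q
    refine ⟨aeval L' Q', ⟨L', Q', fun i => (hd i).trans (hL i), rfl⟩, ?_⟩
    rw [map_aeval_eq, hQ']
    simp only [hL']
  | succ k ih =>
    rintro f ⟨F, Q, hF, rfl⟩
    choose F' hF' hm using fun l i j => ih (hF l i j)
    obtain ⟨Q', hQ'⟩ := map_surjective π hπ Q
    refine ⟨aeval (fun l => ∑ i, ∏ j, F' l i j) Q', ⟨F', Q', hF', rfl⟩, ?_⟩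
    rw [map_aeval_eq, hQ']
    simp only [map_sum, map_prod, hm]

end Map

section Ring

/-- the ring over which everything is lifted: a domain of characteristic zero which has `E` as a
quotient -/
abbrev LRing (E : Type) : Type := MvPolynomial E ℤ

/-- the projection `X a ↦ a` -/
noncomputable def proj (E : Type) [CommRing E] : LRing E →+* E :=
  (aeval (R := ℤ) (fun a : E => a)).toRingHom

theorem proj_surjective (E : Type) [CommRing E] : Function.Surjective (proj E) := fun a =>
  ⟨X a, by simp [proj]⟩

/-- the field in which the upper bounds for ranks are used -/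
abbrev LField (E : Type) : Type := FractionRing (LRing E)

instance (E : Type) : CharZero (LField E) :=
  charZero_of_injective_algebraMap (IsFractionRing.injective (LRing E) (LField E))

/-- (V3) a sum of products of members of `Cls w0 w S k` with a regular coefficient matrix over a
commutative ring lifts to a field of characteristic zero -/
theorem exists_charZero {σ E : Type} [CommRing E] {N h : ℕ} (D : IntDat σ N h)
    {T m w0 w S k r e : ℕ} (f : Fin T → Fin m → MvPolynomial σ E)
    (hf : ∀ i j, f i j ∈ Cls w0 w S k)
    (hd : (D.Mat E r e (∑ i, ∏ j, f i j)).det ≠ 0) :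
    ∃ f' : Fin T → Fin m → MvPolynomial σ (LField E), (∀ i j, f' i j ∈ Cls w0 w S k) ∧
      (D.Mat (LField E) r e (∑ i, ∏ j, f' i j)).det ≠ 0 := by
  choose g hg hgf using fun i j => cls_lift (proj E) (proj_surjective E) k (hf i j)
  refine ⟨fun i j => MvPolynomial.map (algebraMap (LRing E) (LField E)) (g i j),
    fun i j => cls_map _ k (hg i j), ?_⟩
  have h1 : MvPolynomial.map (proj E) (∑ i, ∏ j, g i j) = ∑ i, ∏ j, f i j := by
    simp only [map_sum, map_prod, hgf]
  have h2 := D.det_inj (algebraMap (LRing E) (LField E))
    (IsFractionRing.injective (LRing E) (LField E)) r e (∑ i, ∏ j, g i j)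
    (D.det_lift (proj E) r e _ (by rw [h1]; exact hd))
  simpa only [map_sum, map_prod] using h2

end Ring

end Pool.CDep
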