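import Pool.Agent.Helper10.CD.Nu

/-!
# Constant depth: words with a label function, degree in the letters, rank bound

A word is a digit string `Fin N → Fin h`; a label function `l : Fin N → ℕ` (the time of reading)
cuts it into letters. `WGen K h l x`: the functions which depend only on the digits of at most `x`
letters.
-/

set_option autoImplicit false
set_option linter.unusedSectionVars false

namespace Pool.CDep

open Finset Pool.Agent.Helper87.D3 Pool.CD

/-- words: digit strings -/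
abbrev Wo (N h : ℕ) : Type := Fin N → Fin h

/-- functions on pairs of words -/
abbrev Fw (K : Type) (N h : ℕ) : Type := Wo N h × Wo N h → K

section defs

variable (K : Type) [Field K] {N : ℕ}

/-- functions which depend only on the digits whose label is in a set of at most `x` labels -/
def WGen (h : ℕ) (l : Fin N → ℕ) (x : ℕ) : Set (Wo N h → K) :=
  {f | ∃ J : Finset ℕ, J ⊆ univ.image l ∧ J.card ≤ x ∧
    ∀ p p' : Wo N h, (∀ d, l d ∈ J → p d = p' d) → f p = f p'}

/-- degree at most `x` in the letters of the first word -/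
def WU (h : ℕ) (l : Fin N → ℕ) (x : ℕ) : Submodule K (Fw K N h) :=
  Submodule.span K {f | ∃ g ∈ WGen K h l x, ∃ a : Wo N h → K, f = fun p => g p.1 * a p.2}

/-- degree at most `x` in the letters of the second word -/
def WV (h : ℕ) (l : Fin N → ℕ) (x : ℕ) : Submodule K (Fw K N h) :=
  Submodule.span K {f | ∃ g ∈ WGen K h l x, ∃ a : Wo N h → K, f = fun p => a p.1 * g p.2}

end defs

section basic

variable {K : Type} [Field K] {N h : ℕ} {l : Fin N → ℕ}

theorem WGen_one : (1 : Wo N h → K) ∈ WGen K h l 0 :=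
  ⟨∅, empty_subset _, le_rfl, fun _ _ _ => rfl⟩

theorem WGen_mono {x y : ℕ} (hxy : x ≤ y) {f : Wo N h → K} (hf : f ∈ WGen K h l x) :
    f ∈ WGen K h l y := by
  obtain ⟨J, hJ, hc, hd⟩ := hf
  exact ⟨J, hJ, hc.trans hxy, hd⟩

theorem WGen_mul {x y : ℕ} {f g : Wo N h → K} (hf : f ∈ WGen K h l x)
    (hg : g ∈ WGen K h l y) : f * g ∈ WGen K h l (x + y) := by
  obtain ⟨J, hJ, hc, hd⟩ := hf
  obtain ⟨J', hJ', hc', hd'⟩ := hg
  refine ⟨J ∪ J', union_subset hJ hJ', (card_union_le _ _).trans (by omega), fun p p' hp => ?_⟩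
  rw [Pi.mul_apply, Pi.mul_apply, hd p p' fun k hk => hp k (mem_union_left _ hk),
    hd' p p' fun k hk => hp k (mem_union_right _ hk)]

theorem filt_WU : Filt (WU K h l) where
  one := Submodule.subset_span ⟨1, WGen_one, 1, by ext p; simp⟩
  mul := by
    intro x y f g hf hg
    refine mul_mem_span ?_ hf hg
    rintro _ ⟨g1, h1, a1, rfl⟩ _ ⟨g2, h2, a2, rfl⟩
    exact ⟨g1 * g2, WGen_mul h1 h2, a1 * a2, by ext p; simp only [Pi.mul_apply]; ring⟩

theorem filt_WV : Filt (WV K h l) where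
  one := Submodule.subset_span ⟨1, WGen_one, 1, by ext p; simp⟩
  mul := by
    intro x y f g hf hg
    refine mul_mem_span ?_ hf hg
    rintro _ ⟨g1, h1, a1, rfl⟩ _ ⟨g2, h2, a2, rfl⟩
    exact ⟨g1 * g2, WGen_mul h1 h2, a1 * a2, by ext p; simp only [Pi.mul_apply]; ring⟩

/-- products of a function of the first and a function of the second word have norm one -/
theorem Nu_sep (lu lv : Fin N → ℕ) (hv hu : ℝ) (f g : Wo N h → K) :
    Nu (WV K h lv) (WU K h lu) hv hu (fun p => f p.1 * g p.2) 1 := by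
  have h1 : (fun p : Wo N h × Wo N h => f p.1 * (1 : Wo N h → K) p.2) ∈ WV K h lv 0 :=
    Submodule.subset_span ⟨1, WGen_one, f, rfl⟩
  have h2 : (fun p : Wo N h × Wo N h => (1 : Wo N h → K) p.1 * g p.2) ∈ WU K h lu 0 :=
    Submodule.subset_span ⟨1, WGen_one, g, rfl⟩
  have h3 := Nu.ofMul (hv := hv) (hu := hu) h1 h2
  have h4 : (fun p : Wo N h × Wo N h => f p.1 * (1 : Wo N h → K) p.2) *
      (fun p : Wo N h × Wo N h => (1 : Wo N h → K) p.1 * g p.2) = fun p => f p.1 * g p.2 := by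
    ext p
    simp
  rw [h4] at h3
  simpa using h3

/-- a function of one letter of the first word -/
theorem mem_WU_of_gen {x : ℕ} {g : Wo N h → K} (hg : g ∈ WGen K h l x) :
    (fun p : Wo N h × Wo N h => g p.1) ∈ WU K h l x :=
  Submodule.subset_span ⟨g, hg, 1, by ext p; simp⟩

theorem mem_WV_of_gen {x : ℕ} {g : Wo N h → K} (hg : g ∈ WGen K h l x) :
    (fun p : Wo N h × Wo N h => g p.2) ∈ WV K h l x :=
  Submodule.subset_span ⟨g, hg, 1, by ext p; simp⟩

theorem mem_WU_snd (g : Wo N h → K) : (fun p : Wo N h × Wo N h => g p.2) ∈ WU K h l 0 :=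
  Submodule.subset_span ⟨1, WGen_one, g, by ext p; simp⟩

theorem mem_WV_fst (g : Wo N h → K) : (fun p : Wo N h × Wo N h => g p.1) ∈ WV K h l 0 :=
  Submodule.subset_span ⟨1, WGen_one, g, by ext p; simp⟩

end basic

section Dim

variable {K : Type} [Field K] {N h : ℕ} {l : Fin N → ℕ}

/-- index type of the indicator functions -/
abbrev WIx (h : ℕ) (l : Fin N → ℕ) (x : ℕ) : Type :=
  (J : {J // J ∈ (univ.image l).powerset.filter (fun J => J.card ≤ x)}) ×
    ({d : Fin N // l d ∈ J.1} → Fin h)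

theorem card_class {A : ℕ} (hA : ∀ t, (univ.filter fun d => l d = t).card ≤ A) (J : Finset ℕ) :
    Fintype.card {d : Fin N // l d ∈ J} ≤ A * J.card := by
  classical
  rw [Fintype.card_subtype]
  have h1 : (univ.filter fun d => l d ∈ J) = J.biUnion fun t => univ.filter fun d => l d = t := by
    ext d
    simp
  rw [h1]
  refine card_biUnion_le.trans ?_
  refine (sum_le_card_nsmul _ _ A fun t _ => hA t).trans ?_
  rw [smul_eq_mul, mul_comm]

theorem card_WIx {A : ℕ} (hh : 1 ≤ h) (hA : ∀ t, (univ.filter fun d => l d = t).card ≤ A)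
    (x : ℕ) : Fintype.card (WIx h l x) ≤ 2 ^ (univ.image l).card * (h ^ A) ^ x := by
  classical
  rw [Fintype.card_sigma]
  simp only [Fintype.card_fun, Fintype.card_fin]
  have h1 : ∀ J : {J // J ∈ (univ.image l).powerset.filter (fun J => J.card ≤ x)},
      h ^ Fintype.card {d : Fin N // l d ∈ J.1} ≤ (h ^ A) ^ x := by
    rintro ⟨J, hJ⟩
    rw [← pow_mul]
    apply Nat.pow_le_pow_right hh
    refine (card_class hA J).trans (Nat.mul_le_mul_left _ ?_)
    exact (mem_filter.1 hJ).2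
  refine (sum_le_card_nsmul _ _ _ fun J _ => h1 J).trans ?_
  rw [smul_eq_mul, card_univ, Fintype.card_coe]
  refine Nat.mul_le_mul_right _ ((card_filter_le _ _).trans ?_)
  rw [card_powerset]

open Classical in
/-- indicator functions -/
noncomputable def wind (K : Type) [Field K] {N h : ℕ} {l : Fin N → ℕ} {x : ℕ} (i : WIx h l x) :
    Wo N h → K :=
  fun p => if ∀ k : {d : Fin N // l d ∈ i.1.1}, p k.1 = i.2 k then 1 else 0

theorem exists_wcomb {x : ℕ} {g : Wo N h → K} (hg : g ∈ WGen K h l x) :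
    ∃ c : WIx h l x → K, g = fun p => ∑ i, c i * wind K i p := by
  classical
  obtain ⟨J, hJ, hc, hd⟩ := hg
  have hmem : J ∈ (univ.image l).powerset.filter (fun J => J.card ≤ x) := by
    rw [mem_filter, mem_powerset]
    exact ⟨hJ, hc⟩
  refine ⟨fun i => if hi : i.1.1 = J then
    (if h2 : ∃ p : Wo N h, ∀ k : {d : Fin N // l d ∈ i.1.1}, p k.1 = i.2 k then g h2.choose
      else 0) else 0, ?_⟩
  ext p
  let i0 : WIx h l x := ⟨⟨J, hmem⟩, fun k => p k.1⟩
  have hex : ∃ p' : Wo N h, ∀ k : {d : Fin N // l d ∈ i0.1.1}, p' k.1 = i0.2 k :=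
    ⟨p, fun k => rfl⟩
  rw [sum_eq_single i0]
  · have h1 : wind K i0 p = 1 := if_pos fun k => rfl
    beta_reduce
    rw [h1, mul_one, dif_pos rfl, dif_pos hex]
    refine hd _ _ fun k hk => ?_
    exact (hex.choose_spec ⟨k, hk⟩).symm
  · rintro ⟨⟨J', hJ'⟩, y⟩ _ hne
    beta_reduce
    by_cases hJJ : J' = J
    · subst hJJ
      rw [dif_pos rfl]
      have : wind K (⟨⟨J', hJ'⟩, y⟩ : WIx _ l x) p = 0 := by
        refine if_neg fun h2 => hne ?_
        have : y = fun k : {d : Fin N // l d ∈ J'} => p k.1 := by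
          ext k
          exact congrArg _ (h2 k).symm
        rw [this]
      rw [this, mul_zero]
    · rw [dif_neg hJJ, zero_mul]
  · intro hh
    exact absurd (mem_univ _) hh

theorem rank_WU {A : ℕ} (hh : 1 ≤ h) (hA : ∀ t, (univ.filter fun d => l d = t).card ≤ A)
    {x : ℕ} {f : Fw K N h} (hf : f ∈ WU K h l x) :
    RankLe (2 ^ (univ.image l).card * (h ^ A) ^ x) f := by
  classical
  suffices hs : ∃ b : WIx h l x → Wo N h → K, f = fun p => ∑ i, wind K i p.1 * b i p.2 by
    obtain ⟨b, hb⟩ := hs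
    exact rankLe_of_index (card_WIx hh hA x) (fun i => wind K i) b hb
  refine Submodule.span_induction ?_ ?_ ?_ ?_ hf
  · rintro _ ⟨g, hg, a, rfl⟩
    obtain ⟨c, hc⟩ := exists_wcomb hg
    refine ⟨fun i => c i • a, ?_⟩
    ext p
    simp only [hc, sum_mul, Pi.smul_apply, smul_eq_mul]
    exact sum_congr rfl fun i _ => by ring
  · exact ⟨fun _ => 0, by ext p; simp⟩
  · rintro f g _ _ ⟨b, rfl⟩ ⟨b', rfl⟩
    refine ⟨fun i => b i + b' i, ?_⟩
    ext p
    simp only [Pi.add_apply, mul_add, sum_add_distrib]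
  · rintro c f _ ⟨b, rfl⟩
    refine ⟨fun i => c • b i, ?_⟩
    ext p
    simp only [Pi.smul_apply, smul_eq_mul, mul_sum]
    exact sum_congr rfl fun i _ => by ring

theorem rank_WV {A : ℕ} (hh : 1 ≤ h) (hA : ∀ t, (univ.filter fun d => l d = t).card ≤ A)
    {x : ℕ} {f : Fw K N h} (hf : f ∈ WV K h l x) :
    RankLe (2 ^ (univ.image l).card * (h ^ A) ^ x) f := by
  classical
  suffices hs : ∃ b : WIx h l x → Wo N h → K, f = fun p => ∑ i, b i p.1 * wind K i p.2 by
    obtain ⟨b, hb⟩ := hs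
    exact rankLe_of_index (card_WIx hh hA x) b (fun i => wind K i) hb
  refine Submodule.span_induction ?_ ?_ ?_ ?_ hf
  · rintro _ ⟨g, hg, a, rfl⟩
    obtain ⟨c, hc⟩ := exists_wcomb hg
    refine ⟨fun i => c i • a, ?_⟩
    ext p
    simp only [hc, mul_sum, Pi.smul_apply, smul_eq_mul]
    exact sum_congr rfl fun i _ => by ring
  · exact ⟨fun _ => 0, by ext p; simp⟩
  · rintro f g _ _ ⟨b, rfl⟩ ⟨b', rfl⟩
    refine ⟨fun i => b i + b' i, ?_⟩
    ext p
    simp only [Pi.add_apply, add_mul, sum_add_distrib]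
  · rintro c f _ ⟨b, rfl⟩
    refine ⟨fun i => c • b i, ?_⟩
    ext p
    simp only [Pi.smul_apply, smul_eq_mul, mul_sum]
    exact sum_congr rfl fun i _ => by ring

/-- THE RANK BOUND: a regular matrix of pairs of words; letters of at most `A` digits for the
first reader and at most `B` digits for the second one -/
theorem card_le_of_NuW {A B : ℕ} (hh : 1 ≤ h) {lu lv : Fin N → ℕ}
    (hA : ∀ t, (univ.filter fun d => lu d = t).card ≤ A)
    (hB : ∀ t, (univ.filter fun d => lv d = t).card ≤ B)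
    {f : Fw K N h} (hdet : (Matrix.of fun p p' => f (p, p')).det ≠ 0) {κ : ℝ}
    (h1 : Nu (WV K h lv) (WU K h lu) ((h : ℝ) ^ B) ((h : ℝ) ^ A) f κ) :
    ((h : ℝ) ^ N) ≤ 2 ^ ((univ.image lu).card + (univ.image lv).card) * κ := by
  have h0v : (0 : ℝ) ≤ (h : ℝ) ^ B := by positivity
  have h0u : (0 : ℝ) ≤ (h : ℝ) ^ A := by positivity
  have h2 : RankLe (⌊(((2 ^ (univ.image lv).card : ℕ) : ℝ) *
      ((2 ^ (univ.image lu).card : ℕ) : ℝ)) * κ⌋₊) f := by
    refine Nu.rank (cV := 2 ^ (univ.image lv).card) (cU := 2 ^ (univ.image lu).card) ?_ ?_ h0v h1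
      (Nat.lt_floor_add_one _)
    · intro x g hg
      refine ⟨_, le_of_eq ?_, rank_WV hh hB hg⟩
      push_cast
      rfl
    · intro x g hg
      refine ⟨_, le_of_eq ?_, rank_WU hh hA hg⟩
      push_cast
      rfl
  have h3 := card_le_of_rankLe h2 hdet
  have hκ : 0 ≤ κ := Nu.nonneg h0v h0u h1
  have h4 : (Fintype.card (Wo N h) : ℝ) ≤ (((2 ^ (univ.image lv).card : ℕ) : ℝ) *
      ((2 ^ (univ.image lu).card : ℕ) : ℝ)) * κ :=
    (Nat.cast_le.2 h3).trans (Nat.floor_le (by positivity))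
  have h5 : (Fintype.card (Wo N h) : ℝ) = (h : ℝ) ^ N := by
    rw [Fintype.card_fun, Fintype.card_fin, Fintype.card_fin]
    push_cast
    rfl
  rw [h5] at h4
  refine h4.trans (le_of_eq ?_)
  push_cast
  rw [pow_add]
  ring

end Dim

end Pool.CDep
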