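import Pool.Agent.CDep.Machine
import Pool.Agent.CDep.Words
import Pool.Agent.CDep.Val

/-!
# Constant depth: the machine for pairs of words

`machine_words`: the norm of a coefficient of the image of a sum of `T` products of `S` members of
`Cls w0 w S k` under a substitution which is affine in two variables, the coefficients of which
depend on one letter of the first, respectively of the second word.
`machine_det`: the resulting bound when the matrix of the coefficients is regular.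
-/

set_option autoImplicit false

namespace Pool.CDep

open Finset Pool.Agent.Helper87.D3 Pool.CD Pool.Agent.Helper41.CD

section plug

variable {K : Type} [Field K] {N h : ℕ} {lu lv : Fin N → ℕ}

/-- images of affine forms -/
def WAff (lu lv : Fin N → ℕ) (F : Ser (Fw K N h)) : Prop :=
  ∃ (c : K) (α β : Wo N h → K), (fun p : Wo N h × Wo N h => α p.1) ∈ WU K h lu 1 ∧
    (fun p : Wo N h × Wo N h => β p.2) ∈ WV K h lv 1 ∧
    F = cst (algebraMap K _ c) + lam _ * cst (fun p => α p.1) + mu _ * cst (fun p => β p.2)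

theorem WAff.const (c : K) : WAff lu lv (algebraMap K (Ser (Fw K N h)) c) := by
  refine ⟨c, 0, 0, ?_, ?_, ?_⟩
  · exact Submodule.zero_mem _
  · exact Submodule.zero_mem _
  · have h1 : (fun p : Wo N h × Wo N h => (0 : Wo N h → K) p.1) = 0 := rfl
    have h2 : (fun p : Wo N h × Wo N h => (0 : Wo N h → K) p.2) = 0 := rfl
    rw [h1, h2, cst_zero, mul_zero, mul_zero, add_zero, add_zero,
      Pool.Agent.Helper59.CD.algebraMap_ser]

theorem WAff.add {F G : Ser (Fw K N h)} (hF : WAff lu lv F) (hG : WAff lu lv G) :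
    WAff lu lv (F + G) := by
  obtain ⟨c, α, β, hα, hβ, rfl⟩ := hF
  obtain ⟨c', α', β', hα', hβ', rfl⟩ := hG
  refine ⟨c + c', α + α', β + β', Submodule.add_mem _ hα hα', Submodule.add_mem _ hβ hβ', ?_⟩
  have h1 : (fun p : Wo N h × Wo N h => (α + α') p.1) =
      (fun p : Wo N h × Wo N h => α p.1) + fun p => α' p.1 := rfl
  have h2 : (fun p : Wo N h × Wo N h => (β + β') p.2) =
      (fun p : Wo N h × Wo N h => β p.2) + fun p => β' p.2 := rfl
  rw [h1, h2, map_add, cst_add, cst_add, cst_add]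
  ring

theorem WAff.smul {F : Ser (Fw K N h)} (hF : WAff lu lv F) (a : K) : WAff lu lv (a • F) := by
  obtain ⟨c, α, β, hα, hβ, rfl⟩ := hF
  refine ⟨a * c, a • α, a • β, Submodule.smul_mem _ _ hα, Submodule.smul_mem _ _ hβ, ?_⟩
  have h1 : (fun p : Wo N h × Wo N h => (a • α) p.1) =
      algebraMap K (Fw K N h) a * fun p => α p.1 := rfl
  have h2 : (fun p : Wo N h × Wo N h => (a • β) p.2) =
      algebraMap K (Fw K N h) a * fun p => β p.2 := rfl
  rw [h1, h2, map_mul, cst_mul, cst_mul, cst_mul, Algebra.smul_def,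
    Pool.Agent.Helper59.CD.algebraMap_ser]
  ring

theorem WAff.zero : WAff lu lv (0 : Ser (Fw K N h)) := by
  have := WAff.const (lu := lu) (lv := lv) (h := h) (0 : K)
  rwa [map_zero] at this

/-- polynomials of degree at most one -/
theorem WAff.aeval {σ : Type} (f : σ → Ser (Fw K N h)) (hf : ∀ s, WAff lu lv (f s))
    (P : MvPolynomial σ K) (hP : P.totalDegree ≤ 1) :
    WAff lu lv (MvPolynomial.aeval f P) := by
  classical
  rw [P.as_sum, map_sum]
  have key : ∀ m ∈ P.support,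
      WAff lu lv (MvPolynomial.aeval f (MvPolynomial.monomial m (P.coeff m))) := by
    intro m hm
    have h1 : m.degree ≤ 1 := by
      exact (MvPolynomial.le_totalDegree hm).trans hP
    rcases Nat.le_one_iff_eq_zero_or_eq_one.1 h1 with h2 | h2
    · have h3 : m = 0 := (Finsupp.degree_eq_zero_iff m).1 h2
      rw [h3, MvPolynomial.aeval_monomial]
      simp only [Finsupp.prod_zero_index, mul_one]
      exact WAff.const _
    · obtain ⟨s, hs⟩ : ∃ s, m = Finsupp.single s 1 := by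
        have h3 : m ≠ 0 := by
          rintro rfl
          simp at h2
        obtain ⟨s, hs⟩ := Finsupp.ne_iff.1 h3
        have h4 : m s ≤ m.degree := Finsupp.le_degree s m
        have h5 : m s = 1 := by
          have : m s ≠ 0 := hs
          omega
        refine ⟨s, ?_⟩
        have h6 : m = (m - Finsupp.single s 1) + Finsupp.single s 1 := by
          ext t
          by_cases ht : t = s
          · subst ht; simp [h5]
          · simp [Ne.symm ht]
        have h7 : (m - Finsupp.single s 1).degree = 0 := by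
          have := congrArg Finsupp.degree h6
          rw [map_add, Finsupp.degree_single, h2] at this
          omega
        rw [Finsupp.degree_eq_zero_iff] at h7
        rw [h7, zero_add] at h6
        exact h6
      rw [hs, MvPolynomial.aeval_monomial, Finsupp.prod_single_index (by simp), pow_one,
        ← Algebra.smul_def]
      exact (hf s).smul _
  have : ∀ t ⊆ P.support, WAff lu lv
      (∑ m ∈ t, MvPolynomial.aeval f (MvPolynomial.monomial m (P.coeff m))) := by
    intro t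
    induction t using Finset.induction_on with
    | empty => intro _; rw [sum_empty]; exact WAff.zero
    | insert a t ha ih =>
      intro ht
      rw [sum_insert ha]
      exact (key a (ht (mem_insert_self _ _))).add (ih fun i hi => ht (mem_insert_of_mem hi))
  exact this _ (Subset.refl _)

/-- a polynomial in `w0` images of affine forms -/
theorem base_good {w0 : ℕ} (hw0 : 1 ≤ w0) {hv hu : ℝ} (f : Fin w0 → Ser (Fw K N h))
    (hf : ∀ i, WAff lu lv (f i)) (Q : MvPolynomial (Fin w0) K) :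
    GoodSer (Bi (WV K h lv) (WU K h lu))
      (fun F κ => Nu (WV K h lv) (WU K h lu) hv hu F κ) w0 w0 (MvPolynomial.aeval f Q) := by
  choose c α β hα hβ hfe using hf
  have e1 : f = Pool.Agent.Helper59.CD.Lf c (fun i (p : Wo N h × Wo N h) => α i p.1)
      (fun i p => β i p.2) := by
    funext i
    rw [hfe i]
    rfl
  have hV : Filt (WV K h lv) := filt_WV
  have hU : Filt (WU K h lu) := filt_WU
  refine ⟨?_, ?_, ?_⟩
  · apply Pool.Agent.Helper59.CD.InB.aeval (big_Bi hV hU)
    intro i b e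
    rw [hfe i, cf_add, cf_add, cf_cst, cf_lam_mul, cf_mu_mul]
    refine Submodule.add_mem _ (Submodule.add_mem _ ?_ ?_) ?_
    · split_ifs with h1
      · rw [h1.1, h1.2, Algebra.algebraMap_eq_smul_one]
        exact Submodule.smul_mem _ _ (big_Bi hV hU).one
      · exact Submodule.zero_mem _
    · split_ifs with h1
      · rw [h1.1, h1.2]
        exact ⟨hα i, mem_WV_fst (α i)⟩
      · exact Submodule.zero_mem _
    · split_ifs with h1
      · rw [h1.1, h1.2]
        exact ⟨mem_WU_snd (β i), hβ i⟩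
      · exact Submodule.zero_mem _
  · rw [e1]
    exact ⟨_, Pool.Agent.Helper59.CD.cf_zero_zero_aeval c _ _ Q⟩
  · intro b e _
    have h1 := (Pool.Agent.Helper59.CD.cost_base
      (ν := fun F κ => Nu (WV K h lv) (WU K h lu) hv hu F κ) Nu.zero
      (fun _ _ _ _ h1 h2 => h1.add h2) (fun f g => Nu_sep lu lv hv hu f g) c α β Q b e).1
    rw [← e1] at h1
    refine h1.mono ?_
    have h2 : (1 : ℝ) ≤ (w0 : ℝ) ^ e := one_le_pow₀ (by exact_mod_cast hw0)
    have h3 : (0 : ℝ) ≤ (w0 : ℝ) ^ b := by positivity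
    nlinarith

/-- the substitution: affine in `lam` and `mu` -/
noncomputable def PhiW {σ : Type} (c : σ → K) (a b : σ → Wo N h → K) :
    MvPolynomial σ K →ₐ[K] Ser (Fw K N h) :=
  MvPolynomial.aeval fun i => cst (algebraMap K (Fw K N h) (c i)) +
    lam _ * cst (fun p : Wo N h × Wo N h => a i p.1) +
    mu _ * cst (fun p : Wo N h × Wo N h => b i p.2)

theorem PhiW_base {σ : Type} {w0 w S : ℕ} (hw0 : 1 ≤ w0) {hv hu : ℝ} (c : σ → K)
    (a b : σ → Wo N h → K) (ha : ∀ i, a i ∈ WGen K h lu 1) (hb : ∀ i, b i ∈ WGen K h lv 1)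
    (f : MvPolynomial σ K) (hf : f ∈ Cls (R := K) w0 w S 0) :
    GoodSer (Bi (WV K h lv) (WU K h lu))
      (fun F κ => Nu (WV K h lv) (WU K h lu) hv hu F κ) w0 w0 (PhiW c a b f) := by
  obtain ⟨L, Q, hL, rfl⟩ := hf
  have e1 : PhiW c a b (MvPolynomial.aeval L Q) =
      MvPolynomial.aeval (fun i => PhiW c a b (L i)) Q := by
    rw [MvPolynomial.comp_aeval_apply]
  rw [e1]
  refine base_good hw0 _ (fun i => WAff.aeval _ (fun s => ?_) (L i) (hL i)) Q
  exact ⟨c s, a s, b s, mem_WU_of_gen (ha s), mem_WV_of_gen (hb s), rfl⟩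

/-- **THE MACHINE**: any field of characteristic zero, any set of variables, any constants `c i`,
any functions `a i`, `b i` of one letter -/
theorem machine_words [CharZero K] {σ : Type} {w0 w S k : ℕ} (hw0 : 1 ≤ w0) (hw : 1 ≤ w)
    {HU HV : ℝ} (hHU : 0 ≤ HU) (hHV : 0 ≤ HV) {X Y : ℕ → ℝ}
    (hG : Grw w0 w S HU HV (2 * k + 1) X Y) (c : σ → K)
    (a b : σ → Wo N h → K) (ha : ∀ i, a i ∈ WGen K h lu 1) (hb : ∀ i, b i ∈ WGen K h lv 1)
    (T : ℕ) (f : Fin T → Fin S → MvPolynomial σ K) (hf : ∀ i j, f i j ∈ Cls w0 w S k)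
    (r E : ℕ) :
    Nu (WV K h lv) (WU K h lu) HV HU (cf r E (PhiW c a b (∑ i, ∏ j, f i j)))
      (T * (4 ^ (r + E) * X (2 * k + 1) ^ r * Y (2 * k + 1) ^ E)) := by
  have hV : Filt (WV K h lv) := filt_WV
  have hU : Filt (WU K h lu) := filt_WU
  exact machine_abs (cost_Nu hV hU hHV hHU) (big_Bi hV hU) (leaf_Bi hV hU HV HU)
    (PhiW c a b) hw0 hw hG (fun f hf => PhiW_base hw0 c a b ha hb f hf) T f hf r E

/-- the bound from a regular matrix -/
theorem machine_det' [CharZero K] {σ : Type} {w0 w S k A B : ℕ} (hw0 : 1 ≤ w0) (hw : 1 ≤ w)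
    (hh : 1 ≤ h) {X Y : ℕ → ℝ}
    (hG : Grw w0 w S ((h : ℝ) ^ A) ((h : ℝ) ^ B) (2 * k + 1) X Y)
    (hA : ∀ t, (univ.filter fun d => lu d = t).card ≤ A)
    (hB : ∀ t, (univ.filter fun d => lv d = t).card ≤ B) (c : σ → K)
    (a b : σ → Wo N h → K) (ha : ∀ i, a i ∈ WGen K h lu 1) (hb : ∀ i, b i ∈ WGen K h lv 1)
    (T : ℕ) (f : Fin T → Fin S → MvPolynomial σ K) (hf : ∀ i j, f i j ∈ Cls w0 w S k)
    (r E : ℕ)
    (hdet : (Matrix.of fun p p' => cf r E (PhiW c a b (∑ i, ∏ j, f i j)) (p, p')).det ≠ 0) :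
    (h : ℝ) ^ N ≤ 2 ^ ((univ.image lu).card + (univ.image lv).card) *
      (T * (4 ^ (r + E) * X (2 * k + 1) ^ r * Y (2 * k + 1) ^ E)) :=
  card_le_of_NuW hh hA hB hdet
    (machine_words hw0 hw (by positivity) (by positivity) hG c a b ha hb T f hf r E)

/-- dependence on at most `x` letters, for functions with values in any type -/
def LDep {α : Type} (l : Fin N → ℕ) (x : ℕ) (f : Wo N h → α) : Prop :=
  ∃ J : Finset ℕ, J ⊆ univ.image l ∧ J.card ≤ x ∧
    ∀ p p' : Wo N h, (∀ d, l d ∈ J → p d = p' d) → f p = f p'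

theorem LDep.cast {l : Fin N → ℕ} {x : ℕ} {f : Wo N h → ℤ} (hf : LDep l x f) :
    (fun p => (f p : K)) ∈ WGen K h l x := by
  obtain ⟨J, hJ, hc, hd⟩ := hf
  exact ⟨J, hJ, hc, fun p p' hp => congrArg (fun z : ℤ => (z : K)) (hd p p' hp)⟩

/-- **the bound for integer data** -/
theorem machine_det [CharZero K] {σ : Type} {w0 w S k A B : ℕ} (hw0 : 1 ≤ w0) (hw : 1 ≤ w)
    (hh : 1 ≤ h) {X Y : ℕ → ℝ}
    (hG : Grw w0 w S ((h : ℝ) ^ A) ((h : ℝ) ^ B) (2 * k + 1) X Y)
    (hA : ∀ t, (univ.filter fun d => lu d = t).card ≤ A)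
    (hB : ∀ t, (univ.filter fun d => lv d = t).card ≤ B) (D : IntDat σ N h)
    (ha : ∀ i, LDep lu 1 (D.a i)) (hb : ∀ i, LDep lv 1 (D.b i))
    (T : ℕ) (f : Fin T → Fin S → MvPolynomial σ K) (hf : ∀ i j, f i j ∈ Cls w0 w S k)
    (r E : ℕ) (hdet : (D.Mat K r E (∑ i, ∏ j, f i j)).det ≠ 0) :
    (h : ℝ) ^ N ≤ 2 ^ ((univ.image lu).card + (univ.image lv).card) *
      (T * (4 ^ (r + E) * X (2 * k + 1) ^ r * Y (2 * k + 1) ^ E)) := by
  have e1 : D.Phi K = PhiW (fun i => (D.C i : K)) (fun i p => (D.a i p : K))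
      (fun i p => (D.b i p : K)) := by
    unfold IntDat.Phi PhiW
    congr 1
  refine machine_det' hw0 hw hh hG hA hB (fun i => (D.C i : K)) (fun i p => (D.a i p : K))
    (fun i p => (D.b i p : K)) (fun i => (ha i).cast) (fun i => (hb i).cast) T f hf r E ?_
  rw [← e1]
  exact hdet

/-- the same with the hypotheses on the growth in the form of `Growth` -/
theorem machine_rank_growth [CharZero K] {σ : Type} {w0 w S k A B : ℕ} (hw0 : 1 ≤ w0)
    (hw : 1 ≤ w) (hh : 1 ≤ h) {X Y : ℕ → ℝ} (hX0 : 4 * w * X 0 = w0) (hY0 : 4 * w * Y 0 = w0)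
    (hG : Growth w S ((h : ℝ) ^ A) ((h : ℝ) ^ B) (2 * k + 1) X Y)
    (hA : ∀ t, (univ.filter fun d => lu d = t).card ≤ A)
    (hB : ∀ t, (univ.filter fun d => lv d = t).card ≤ B) (D : IntDat σ N h)
    (ha : ∀ i, LDep lu 1 (D.a i)) (hb : ∀ i, LDep lv 1 (D.b i))
    (T : ℕ) (f : Fin T → Fin S → MvPolynomial σ K) (hf : ∀ i j, f i j ∈ Cls w0 w S k)
    (r E : ℕ) (hdet : (D.Mat K r E (∑ i, ∏ j, f i j)).det ≠ 0) :
    (h : ℝ) ^ N ≤ 2 ^ ((univ.image lu).card + (univ.image lv).card) *
      (T * (4 ^ (r + E) * X (2 * k + 1) ^ r * Y (2 * k + 1) ^ E)) := by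
  have e1 : D.Phi K = PhiW (fun i => (D.C i : K)) (fun i p => (D.a i p : K))
      (fun i p => (D.b i p : K)) := by
    unfold IntDat.Phi PhiW
    congr 1
  have hV : Filt (WV K h lv) := filt_WV
  have hU : Filt (WU K h lu) := filt_WU
  have hHU : (0 : ℝ) ≤ (h : ℝ) ^ A := by positivity
  have hHV : (0 : ℝ) ≤ (h : ℝ) ^ B := by positivity
  have h1 := cls_cost (w0 := w0) (cost_Nu hV hU hHV hHU) (big_Bi hV hU) hw
    (leaf_Bi hV hU ((h : ℝ) ^ B) ((h : ℝ) ^ A)) (D.Phi K) X Y k hG (fun f hf => by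
      rw [hX0, hY0, e1]
      exact PhiW_base hw0 _ _ _ (fun i => (ha i).cast) (fun i => (hb i).cast) f hf) T f hf r E
  exact card_le_of_NuW hh hA hB hdet h1

end plug

end Pool.CDep
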