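import Pool.Agent.Helper41.CD.Gate
import Pool.Agent.CDep.Val
import Pool.Agent.CDep.Lift
import Pool.Agent.CDep.Params
import Pool.Agent.Helper98.CD.Numbers
import Pool.Agent.CDep.FinalNum
import Pool.Agent.CDep.Blocks
import Pool.Agent.CDep.Plug

/-! # Constant depth: the assembly -/

set_option autoImplicit false

namespace Pool.CDep

open Finset Pool.Agent.Helper87.D3 Pool.Agent.Helper41.CD Pool.CD

/-- the constant coefficient of a polynomial with small coefficients, at the identity matrix -/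
theorem T_pos {F Γ : Type} [Field F] [LinearOrderedCommGroupWithZero Γ] (v : Valuation F Γ)
    {n T S : ℕ} (f : Fin T → Fin S → MvPolynomial (Fin n × Fin n) F)
    (hv : ∀ m, v (MvPolynomial.coeff m ((∑ i, ∏ j, f i j) - permP n F)) < 1) : 1 ≤ T := by
  by_contra hT
  have hT0 : T = 0 := by omega
  subst hT0
  set g : Fin n × Fin n → Ser F := fun s => if s.1 = s.2 then 1 else 0 with hg
  have h1 := v_cf_aeval_lt (v := v) _ hv g (fun s => ?_) 0 0
  · have h2 : MvPolynomial.aeval g ((∑ i : Fin 0, ∏ j, f i j) - permP n F) = -1 := by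
      rw [univ_eq_empty, sum_empty, zero_sub, map_neg]
      congr 1
      have h3 : MvPolynomial.aeval g (permP n F) =
          ((MvPolynomial.aeval g : MvPolynomial (Fin n × Fin n) F →ₐ[F] Ser F) : _ →+* _)
            (permP n F) := rfl
      rw [h3]
      unfold permP
      rw [map_permanent']
      have h4 : ((Matrix.of fun i j => (MvPolynomial.X (i, j) :
          MvPolynomial (Fin n × Fin n) F)).map
          ((MvPolynomial.aeval g : MvPolynomial (Fin n × Fin n) F →ₐ[F] Ser F) : _ →+* _)) =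
          (1 : Matrix (Fin n) (Fin n) (Ser F)) := by
        ext1 i j
        show MvPolynomial.aeval g (MvPolynomial.X (i, j)) = _
        rw [MvPolynomial.aeval_X, hg, Matrix.one_apply]
      rw [h4, Matrix.permanent_one]
    rw [h2] at h1
    have h5 : cf 0 0 (-1 : Ser F) = -1 := by
      rw [← cf0_apply, map_neg, map_one]
    rw [h5, Valuation.map_neg, map_one] at h1
    exact lt_irrefl _ h1
  · show IntSer v (if s.1 = s.2 then (1 : Ser F) else 0)
    split_ifs
    · exact IntSer.one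
    · intro b e
      rw [cf_zero, map_zero]
      exact zero_le

theorem numThr_iff (m HU HV x y x' y' : ℝ) (h : NumThr' m HU HV x y x' y') :
    NumThr m HU HV x y x' y' := h

/-- **exponential lower bound for the top fan-in at every constant depth** -/
theorem constant_depth (k : ℕ) : ∃ C : ℝ, 0 < C ∧
    ∀ (F Γ : Type) [Field F] [LinearOrderedCommGroupWithZero Γ] (v : Valuation F Γ)
      (n T S w w0 : ℕ) (f : Fin T → Fin S → MvPolynomial (Fin n × Fin n) F),
      2 ≤ S → 1 ≤ w → w ≤ S → 1 ≤ w0 → (∀ i j, f i j ∈ Cls w0 w S k) →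
      (∀ m, v (MvPolynomial.coeff m ((∑ i, ∏ j, f i j) - permP n F)) < 1) →
      n * Real.exp (-(C * (Real.log S ^ (1 - 1 / ((Nat.fib (2 * k + 4) : ℝ) - 1)) *
        Real.log (2 * w) ^ (1 / ((Nat.fib (2 * k + 4) : ℝ) - 1)) + Real.log w0))) ≤
        C * Real.log (2 * T) := by
  have hF3 : 3 ≤ Nat.fib (2 * k + 4) := by
    have h1 : Nat.fib 4 ≤ Nat.fib (2 * k + 4) := Nat.fib_mono (by omega)
    exact h1
  obtain ⟨C', hC', hpar⟩ := final_params (Nat.fib (2 * k + 4)) hF3
  refine ⟨max 24 (2 * C'), lt_of_lt_of_le (by norm_num) (le_max_left _ _), ?_⟩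
  intro F Γ _ _ v n T S w w0 f hS hw hwS hw0 hf hv
  obtain ⟨σ, ω, μ, hσ, hω, hμ, hwω, hSp, hw0p, hfin⟩ := hpar S w w0 hS hw hwS hw0
  obtain ⟨A0, B0, s, c0, τ, hs, hB0, hBA, hA2, h1, h2, h3, h4, h5, h6, h7⟩ :=
    Pool.Helper98.CD.cf_numbers (2 * k + 1) σ (by omega) hσ
  have hL3 : 2 * k + 1 + 3 = 2 * k + 4 := by omega
  rw [hL3] at h6 h7
  obtain ⟨c, hc, hXY⟩ := growth_exists (2 * k + 1) σ ω μ A0 B0 s S w w0 c0 τ (by omega) hσ hω
    hμ hs hB0 hBA h1 h2 h3 h4 h5 hw hwω _ h7 hSp hw0p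
  set A : ℕ := 16 * s * ω * μ * A0 with hA
  set B : ℕ := 16 * s * ω * μ * B0 with hB
  obtain ⟨hX1, hY1, hN1, hstep⟩ := hXY
  have hG0 : 0 ≤ Real.log S ^ (1 - 1 / ((Nat.fib (2 * k + 4) : ℝ) - 1)) *
        Real.log (2 * w) ^ (1 / ((Nat.fib (2 * k + 4) : ℝ) - 1)) + Real.log w0 := by
    have e1 : 0 ≤ Real.log S := Real.log_natCast_nonneg S
    have e2 : (1 : ℝ) ≤ w := by exact_mod_cast hw
    have e3 : 0 ≤ Real.log (2 * w) := Real.log_nonneg (by linarith)
    have e4 : 0 ≤ Real.log w0 := Real.log_natCast_nonneg w0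
    positivity
  have hAle : (A : ℝ) ≤ C' * (Real.log S ^ (1 - 1 / ((Nat.fib (2 * k + 4) : ℝ) - 1)) *
        Real.log (2 * w) ^ (1 / ((Nat.fib (2 * k + 4) : ℝ) - 1)) + Real.log w0) := by
    refine le_trans ?_ hfin
    have e1 : A ≤ 64 * ω * μ * (18 * σ) ^ (Nat.fib (2 * k + 4) - 2) := by
      calc A = 16 * ω * μ * (s * A0) := by rw [hA]; ring
        _ ≤ 16 * ω * μ * (4 * (18 * σ) ^ (Nat.fib (2 * k + 4) - 2)) := Nat.mul_le_mul_left _ h6
        _ = 64 * ω * μ * (18 * σ) ^ (Nat.fib (2 * k + 4) - 2) := by ring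
    exact_mod_cast e1
  apply log_final hC' hG0 hAle
  have hT1 : 1 ≤ T := T_pos v f hv
  set t := n / 2 ^ (2 * A + 4) with ht
  rcases Nat.eq_zero_or_pos t with ht0 | htpos
  · rw [ht0, pow_zero]
    exact_mod_cast hT1
  -- the gadget
  have hM16 : 16 ≤ 16 * s * ω * μ := by
    have := Nat.mul_le_mul (Nat.mul_le_mul hs hω) hμ
    calc 16 = 16 * (1 * 1 * 1) := by norm_num
      _ ≤ 16 * (s * ω * μ) := Nat.mul_le_mul_left _ this
      _ = _ := by ring
  have hA01 : 1 ≤ A0 := hB0.trans hBA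
  have hA16 : 16 ≤ A := by
    calc 16 = 16 * 1 := by norm_num
      _ ≤ 16 * s * ω * μ * A0 := Nat.mul_le_mul hM16 hA01
  have hA1 : 1 ≤ A := by omega
  have hB1 : 1 ≤ B := by
    calc 1 = 1 * 1 := by norm_num
      _ ≤ 16 * s * ω * μ * B0 := Nat.mul_le_mul (by omega) hB0
  have hBA' : B ≤ A := Nat.mul_le_mul_left _ hBA
  have hB0A : B0 ≤ A := by
    calc B0 ≤ A0 := hBA
      _ = 1 * A0 := by ring
      _ ≤ 16 * s * ω * μ * A0 := Nat.mul_le_mul_right _ (by omega)
  set N : ℕ := A * (t * B0) with hN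
  have hN' : N = B * (t * A0) := by rw [hN, hA, hB]; ring
  have hNs : N = t * (16 * s * ω * μ) * A0 * B0 := by rw [hN, hA]; ring
  have hsize : (2 * N + 1) * 2 ^ (A + 1) + 1 ≤ n := by
    rw [hNs]
    refine (size_bound (A := A) (m := 16 * s * ω * μ) hA hB0A hA16 htpos).trans ?_
    rw [ht]
    exact Nat.div_mul_le_self _ _
  obtain ⟨G, hG, hloc⟩ := gadget_exists (h := 2) (tu A N) (tv B N) (2 * N) (A + 1) n
    (tu_ne_tv A B N) (tu_lt A N) (tv_lt B N) (by norm_num)
    (fun t _ => card_window hB1 hBA' t) hsize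
  have hr : (univ.image (tu A N)).card = t * B0 := card_image_tu hA1
  have hE : (univ.image (tv B N)).card = t * A0 := by
    rw [hN']
    exact card_image_tv hB1
  rw [hr, hE] at hG
  -- the determinant
  have hdet := G.det_val hG v _ hv
  obtain ⟨f', hf', hdet'⟩ := exists_charZero G f hf hdet
  -- the growth
  have hwr : (1 : ℝ) ≤ w := by exact_mod_cast hw
  have hw4 : (0 : ℝ) < 4 * w := by linarith
  have hw0r : (1 : ℝ) ≤ w0 := by exact_mod_cast hw0
  let X : ℕ → ℝ := fun i => if i = 0 then w0 / (4 * w) else (2 : ℝ) ^ ((A : ℝ) / 2 - c i)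
  let Y : ℕ → ℝ := fun i => if i = 0 then w0 / (4 * w) else (2 : ℝ) ^ ((B : ℝ) / 2 - c i)
  have hX0 : 4 * w * X 0 = w0 := by
    show 4 * w * (if (0 : ℕ) = 0 then (w0 : ℝ) / (4 * w) else _) = w0
    rw [if_pos rfl]
    field_simp
  have hY0 : 4 * w * Y 0 = w0 := by
    show 4 * w * (if (0 : ℕ) = 0 then (w0 : ℝ) / (4 * w) else _) = w0
    rw [if_pos rfl]
    field_simp
  have hXs : ∀ i, 1 ≤ i → X i = (2 : ℝ) ^ ((A : ℝ) / 2 - c i) := fun i hi =>
    if_neg (by omega)
  have hYs : ∀ i, 1 ≤ i → Y i = (2 : ℝ) ^ ((B : ℝ) / 2 - c i) := fun i hi =>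
    if_neg (by omega)
  have hgrow : Growth w S (((2 : ℕ) : ℝ) ^ A) (((2 : ℕ) : ℝ) ^ B) (2 * k + 1) X Y := by
    push_cast
    refine ⟨?_, ?_, ?_, ?_, ?_⟩
    · have : 0 < 4 * w * X 0 := by rw [hX0]; linarith
      exact pos_of_mul_pos_right this hw4.le
    · have : 0 < 4 * w * Y 0 := by rw [hY0]; linarith
      exact pos_of_mul_pos_right this hw4.le
    · intro i hi
      rcases Nat.eq_zero_or_pos i with h0 | h0
      · rw [h0, hX0, hXs _ (by omega)]
        exact hX1
      · rw [hXs i h0, hXs _ (by omega)]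
        exact (hstep i h0 (by omega)).1
    · intro i hi
      rcases Nat.eq_zero_or_pos i with h0 | h0
      · rw [h0, hY0, hYs _ (by omega)]
        exact hY1
      · rw [hYs i h0, hYs _ (by omega)]
        exact (hstep i h0 (by omega)).2.1
    · intro i hi
      rcases Nat.eq_zero_or_pos i with h0 | h0
      · rw [h0, hX0, hY0, hXs _ (by omega), hYs _ (by omega)]
        exact hN1
      · rw [hXs i h0, hYs i h0, hXs _ (by omega), hYs _ (by omega)]
        exact (hstep i h0 (by omega)).2.2.2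
  have hrank := machine_rank_growth (K := LField F) hw0 hw (by norm_num) hX0 hY0 hgrow
    (fun t => card_tu hA1 t) (fun t => card_tv hB1 t) G hloc.a hloc.b T f' hf'
    (t * B0) (t * A0) hdet'
  rw [hr, hE, hXs _ (by omega), hYs _ (by omega)] at hrank
  push_cast at hrank
  have hcL : 4 ≤ c (2 * k + 1) := by
    have e1 := hc (2 * k + 1) (by omega) le_rfl
    have e2 : (1 : ℝ) ≤ ω := by exact_mod_cast hω
    linarith
  have hfinal : (2 : ℝ) ^ (t * B0 + t * A0) ≤ T := by
    refine count_final (A := A) (B := B) (N := N) hcL rfl hN'.symm ?_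
    refine hrank.trans (le_of_eq ?_)
    ring
  refine le_trans ?_ hfinal
  apply pow_le_pow_right₀ (by norm_num)
  have : t * 1 ≤ t * B0 := Nat.mul_le_mul_left _ hB0
  omega

end Pool.CDep
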