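import Mathlib

/-! # Constant depth: the classes of polynomials (definitions of the final statement)

`Cls w0 w S k` is the class of the polynomials computed with `k` levels: level `0` consists of the
arbitrary polynomials in `w0` affine forms; an element of level `k + 1` is an arbitrary polynomial
in `w` polynomials, each of which is a sum of `S` products of `S` elements of level `k`. -/

set_option autoImplicit false

namespace Pool.CD

open Finset

section defs

variable {R σ : Type} [CommRing R]

/-- `g` is a polynomial (any polynomial in `w` variables) of `w` elements with the property `P` -/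
def Func (w : ℕ) (P : MvPolynomial σ R → Prop) (g : MvPolynomial σ R) : Prop :=
  ∃ (f : Fin w → MvPolynomial σ R) (Q : MvPolynomial (Fin w) R),
    (∀ i, P (f i)) ∧ g = MvPolynomial.aeval f Q

/-- `g` is a sum of `T` products of `S` elements with the property `P` -/
def SumProd (T S : ℕ) (P : MvPolynomial σ R → Prop) (g : MvPolynomial σ R) : Prop :=
  ∃ f : Fin T → Fin S → MvPolynomial σ R, (∀ i j, P (f i j)) ∧ g = ∑ i, ∏ j, f i j

/-- level `0`: arbitrary polynomials of `w0` affine forms; level `k + 1`: arbitrary polynomials of
`w` sums of `S` products of `S` elements of level `k` -/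
def Cls (w0 w S : ℕ) : ℕ → MvPolynomial σ R → Prop
  | 0 => Func w0 fun g => g.totalDegree ≤ 1
  | k + 1 => Func w (SumProd S S (Cls w0 w S k))

end defs

end Pool.CD
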