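import Pool.Agent.CDep.Params

/-!
# CDep: the final inequalities
-/

set_option autoImplicit false

namespace Pool.CDep

open Real

theorem sq_le_two_pow (A : ℕ) : A ^ 2 ≤ 2 ^ (A + 1) := by
  rcases Nat.lt_or_ge A 4 with h | h
  · interval_cases A <;> norm_num
  · have key : ∀ k : ℕ, 4 ≤ k → k ^ 2 ≤ 2 ^ k := by
      intro k hk
      induction k, hk using Nat.le_induction with
      | base => norm_num
      | succ k hk ih =>
        rw [pow_succ 2 k]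
        nlinarith
    refine (key A h).trans (Nat.pow_le_pow_right (by norm_num) (by omega))

/-- the size of the gadget -/
theorem size_le {t m A0 B0 : ℕ} (ht : 1 ≤ t) (hm : 1 ≤ m) (hB : B0 ≤ A0) :
    (2 * (t * m * A0 * B0) + 1) * 2 ^ (m * A0 + 1) + 1 ≤ t * 2 ^ (2 * (m * A0) + 4) := by
  set A := m * A0 with hA
  have h1 : t * m * A0 * B0 ≤ t * A ^ 2 := by
    have h2 : B0 ≤ A := hB.trans (Nat.le_mul_of_pos_left _ hm)
    calc t * m * A0 * B0 = t * (A * B0) := by rw [hA]; ring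
      _ ≤ t * (A * A) := Nat.mul_le_mul_left _ (Nat.mul_le_mul_left _ h2)
      _ = t * A ^ 2 := by ring
  have h3 : t * m * A0 * B0 ≤ t * 2 ^ (A + 1) := h1.trans (Nat.mul_le_mul_left _ (sq_le_two_pow A))
  have h4 : 1 ≤ 2 ^ A := Nat.one_le_two_pow
  have e1 : 2 ^ (A + 1) = 2 * 2 ^ A := by ring
  have e2 : 2 ^ (2 * A + 4) = 16 * (2 ^ A * 2 ^ A) := by ring
  rw [e1] at h3 ⊢
  rw [e2]
  set X := 2 ^ A
  calc (2 * (t * m * A0 * B0) + 1) * (2 * X) + 1 ≤ (2 * (t * (2 * X)) + 1) * (2 * X) + 1 := by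
        gcongr
    _ ≤ t * (16 * (X * X)) := by nlinarith [Nat.mul_le_mul ht (Nat.mul_le_mul h4 h4), Nat.mul_le_mul h4 h4]

/-- the number of summands from the rank bound -/
theorem rank_bound {N r E A B T : ℕ} {c : ℝ} (hr : r * A = N) (hE : E * B = N) (hc : 4 ≤ c)
    (h : (2 : ℝ) ^ N ≤ 2 ^ (r + E) * (T * 4 ^ (r + E) * ((2 : ℝ) ^ ((A : ℝ) / 2 - c)) ^ r *
      ((2 : ℝ) ^ ((B : ℝ) / 2 - c)) ^ E)) : (2 : ℝ) ^ (r + E) ≤ T := by
  have h1 : ((2 : ℝ) ^ ((A : ℝ) / 2 - c)) ^ r * ((2 : ℝ) ^ ((B : ℝ) / 2 - c)) ^ E =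
      (2 : ℝ) ^ N * (2 : ℝ) ^ (-(c * (r + E))) := by
    rw [← rpow_natCast, ← rpow_natCast, ← rpow_natCast, ← rpow_mul (by norm_num),
      ← rpow_mul (by norm_num), ← rpow_add (by norm_num), ← rpow_add (by norm_num)]
    congr 1
    have e1 : (r : ℝ) * A = N := by exact_mod_cast hr
    have e2 : (E : ℝ) * B = N := by exact_mod_cast hE
    linarith
  have h2 : (2 : ℝ) ^ N * 1 ≤ (2 : ℝ) ^ N * (T * (8 ^ (r + E) * (2 : ℝ) ^ (-(c * (r + E))))) := by
    have e3 : (8 : ℝ) ^ (r + E) = 2 ^ (r + E) * 4 ^ (r + E) := by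
      rw [← mul_pow]; norm_num
    have e4 : (2 : ℝ) ^ N * 1 ≤ 2 ^ (r + E) * (T * 4 ^ (r + E) * (((2 : ℝ) ^ ((A : ℝ) / 2 - c)) ^ r *
        ((2 : ℝ) ^ ((B : ℝ) / 2 - c)) ^ E)) := by
      rw [mul_one, ← mul_assoc (_ * _) (_ ^ r)]
      exact h
    refine e4.trans (le_of_eq ?_)
    rw [h1, e3]
    ring
  have h3 := le_of_mul_le_mul_left h2 (by positivity)
  have h4 : (8 : ℝ) ^ (r + E) * (2 : ℝ) ^ (-(c * (r + E))) ≤ (2 ^ (r + E))⁻¹ := by
    have e1 : (8 : ℝ) ^ (r + E) = (2 : ℝ) ^ (3 * ((r : ℝ) + E)) := by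
      have : (8 : ℝ) = 2 ^ (3 : ℝ) := by norm_num
      rw [this, ← rpow_natCast, ← rpow_mul (by norm_num)]
      push_cast
      ring_nf
    have e2 : ((2 : ℝ) ^ (r + E))⁻¹ = (2 : ℝ) ^ (-((r : ℝ) + E)) := by
      rw [rpow_neg (by norm_num), ← rpow_natCast]
      push_cast
      rfl
    rw [e1, e2, ← rpow_add (by norm_num)]
    apply rpow_le_rpow_of_exponent_le (by norm_num)
    have : (0 : ℝ) ≤ (r : ℝ) + E := by positivity
    nlinarith
  have h5 : (1 : ℝ) ≤ T * (2 ^ (r + E))⁻¹ :=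
    h3.trans (mul_le_mul_of_nonneg_left h4 (by positivity))
  have h6 : (0 : ℝ) < 2 ^ (r + E) := by positivity
  rw [← div_eq_mul_inv, le_div_iff₀ h6, one_mul] at h5
  exact h5

/-- the number of copies of the gadget -/
theorem final_bound {n A A0 B0 T : ℕ} (hT : 1 ≤ T) (hB0 : 1 ≤ B0) (hA0 : B0 ≤ A0)
    (h : ∀ t : ℕ, 1 ≤ t → t * 2 ^ (2 * A + 4) ≤ n → 2 ^ (t * (A0 + B0)) ≤ T) :
    (n : ℝ) / 2 ^ (2 * A + 4) ≤ logb 2 (2 * T) := by
  have hT' : (1 : ℝ) ≤ T := by exact_mod_cast hT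
  have hT2 : logb 2 (2 * T) = 1 + logb 2 T := by
    rw [logb_mul (by norm_num) (by positivity), logb_self_eq_one (by norm_num)]
  have hT3 : 0 ≤ logb 2 T := logb_nonneg (by norm_num) hT'
  have hp : (0 : ℝ) < 2 ^ (2 * A + 4) := by positivity
  set t := n / 2 ^ (2 * A + 4) with ht
  have h1 : (n : ℝ) / 2 ^ (2 * A + 4) ≤ t + 1 := by
    rw [div_le_iff₀ hp]
    have h2 : n < 2 ^ (2 * A + 4) * (t + 1) := by
      have := Nat.lt_mul_div_succ n (show 0 < 2 ^ (2 * A + 4) by positivity)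
      rwa [← ht] at this
    have h3 : (n : ℝ) ≤ ((2 ^ (2 * A + 4) * (t + 1) : ℕ) : ℝ) := by exact_mod_cast h2.le
    push_cast at h3
    linarith
  refine h1.trans ?_
  rcases Nat.eq_zero_or_pos t with h0 | h0
  · rw [h0, hT2]
    push_cast
    linarith
  · have h4 := h t h0 (Nat.div_mul_le_self n _)
    have h5 : ((2 ^ (t * (A0 + B0)) : ℕ) : ℝ) ≤ T := by exact_mod_cast h4
    have h6 : ((t * (A0 + B0) : ℕ) : ℝ) ≤ logb 2 T := by
      rw [le_logb_iff_rpow_le (by norm_num) (by linarith), rpow_natCast]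
      push_cast at h5 ⊢
      exact h5
    have h7 : (t : ℝ) ≤ ((t * (A0 + B0) : ℕ) : ℝ) := by
      have : t ≤ t * (A0 + B0) := Nat.le_mul_of_pos_right _ (by omega)
      exact_mod_cast this
    rw [hT2]
    linarith

/-- the parameters together with the final inequality -/
theorem final_exp (F : ℕ) (hF : 3 ≤ F) : ∃ C : ℝ, 0 < C ∧ ∀ S w w0 : ℕ, 2 ≤ S → 1 ≤ w →
    w ≤ S → 1 ≤ w0 → ∃ σ ω μ : ℕ, 1 ≤ σ ∧ 1 ≤ ω ∧ 1 ≤ μ ∧ 16 * w ≤ 2 ^ ω ∧
      S ≤ 2 ^ (5 * σ * ω * μ * (8 * σ) ^ (F - 2)) ∧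
      (16 * w0) ^ 8 ≤ 2 ^ (5 * ω * μ * (8 * σ) ^ (F - 2)) ∧
      ∀ n T A : ℕ, A ≤ 64 * ω * μ * (18 * σ) ^ (F - 2) →
        (n : ℝ) / 2 ^ (2 * A + 4) ≤ logb 2 (2 * T) →
        (n : ℝ) * Real.exp (-(C * (Real.log S ^ (1 - 1 / ((F : ℝ) - 1)) *
          Real.log (2 * w) ^ (1 / ((F : ℝ) - 1)) + Real.log w0))) ≤ Real.log (2 * T) := by
  obtain ⟨C, hC, h⟩ := final_params F hF
  have hl2 : 0 < log 2 := log_pos (by norm_num)
  have hl2' : log 2 ≤ 1 := by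
    have := log_two_lt_d9
    linarith
  have hl2'' : 1 / 2 ≤ log 2 := by
    have := log_two_gt_d9
    linarith
  refine ⟨2 * C + 10, by positivity, fun S w w0 hS hw hwS hw0 => ?_⟩
  obtain ⟨σ, ω, μ, h1, h2, h3, h4, h5, h6, h7⟩ := h S w w0 hS hw hwS hw0
  refine ⟨σ, ω, μ, h1, h2, h3, h4, h5, h6, fun n T A hA hn => ?_⟩
  set V := Real.log S ^ (1 - 1 / ((F : ℝ) - 1)) * Real.log (2 * w) ^ (1 / ((F : ℝ) - 1)) +
    Real.log w0 with hV
  have hA' : (A : ℝ) ≤ C * V := by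
    refine le_trans ?_ h7
    exact_mod_cast hA
  -- `V` is not small
  have hV1 : 1 / 2 ≤ V := by
    have hF' : (3 : ℝ) ≤ F := by exact_mod_cast hF
    set η := 1 / ((F : ℝ) - 1) with hη
    have hη0 : 0 < η := by rw [hη]; apply one_div_pos.2; linarith
    have hη1 : η ≤ 1 := by
      rw [hη, div_le_one (by linarith)]
      linarith
    have hw0' : 0 ≤ log w0 := log_nonneg (by exact_mod_cast hw0)
    have e1 : log 2 ^ (1 - η) ≤ log S ^ (1 - η) := by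
      apply rpow_le_rpow hl2.le _ (by linarith)
      exact log_le_log (by norm_num) (by exact_mod_cast hS)
    have e2 : log 2 ^ η ≤ log (2 * w) ^ η := by
      apply rpow_le_rpow hl2.le _ hη0.le
      apply log_le_log (by norm_num)
      have : (1 : ℝ) ≤ w := by exact_mod_cast hw
      linarith
    have e3 : log 2 ^ (1 - η) * log 2 ^ η = log 2 := by
      rw [← rpow_add hl2]
      have : 1 - η + η = 1 := by ring
      rw [this, rpow_one]
    have e4 : log 2 ^ (1 - η) * log 2 ^ η ≤ log S ^ (1 - η) * log (2 * w) ^ η := by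
      apply mul_le_mul e1 e2 (by positivity) (le_trans (by positivity) e1)
    rw [hV]
    linarith
  have hn0 : (0 : ℝ) ≤ n := by positivity
  have h8 : logb 2 (2 * T) * log 2 = log (2 * T) := by
    rw [logb]; field_simp
  rw [← h8]
  have h9 : (n : ℝ) / 2 ^ (2 * A + 4) * log 2 ≤ logb 2 (2 * T) * log 2 :=
    mul_le_mul_of_nonneg_right hn hl2.le
  refine le_trans ?_ h9
  rw [div_mul_eq_mul_div, mul_div_assoc]
  apply mul_le_mul_of_nonneg_left _ hn0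
  have h10 : ((2 : ℝ) ^ (2 * A + 4)) = exp (log 2 * (2 * A + 4)) := by
    rw [← rpow_natCast, rpow_def_of_pos (by norm_num)]
    push_cast
    rfl
  rw [h10, div_eq_mul_inv, ← exp_neg]
  have h11 : exp (-1) ≤ log 2 := by
    have e1 : exp (-1) < 1 / 2 := by
      rw [exp_neg, inv_lt_comm₀ (exp_pos 1) (by norm_num)]
      have := exp_one_gt_d9
      norm_num
      linarith
    linarith
  calc exp (-((2 * C + 10) * V)) ≤ exp (-1 + -(log 2 * (2 * A + 4))) := by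
        apply exp_le_exp.2
        have e1 : log 2 * (2 * A + 4) ≤ 2 * A + 4 := by
          have : (0 : ℝ) ≤ 2 * A + 4 := by positivity
          nlinarith
        nlinarith
    _ = exp (-1) * exp (-(log 2 * (2 * A + 4))) := exp_add _ _
    _ ≤ log 2 * exp (-(log 2 * (2 * A + 4))) := by
        apply mul_le_mul_of_nonneg_right h11 (exp_pos _).le

/-- the asymptotic form -/
theorem cor_exp {C ε : ℝ} (hC : 0 < C) (hε : 0 < ε) (hε1 : ε ≤ 1) : ∃ δ : ℝ, 0 < δ ∧ ∃ n0 : ℕ,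
    ∀ n : ℕ, n0 ≤ n → ∀ (T : ℕ) (U : ℝ), U ≤ δ * Real.log n →
      (n : ℝ) * Real.exp (-(C * U)) ≤ Real.log (2 * T) →
      Real.exp ((n : ℝ) ^ (1 - ε)) ≤ T := by
  refine ⟨ε / (2 * C), by positivity, ?_⟩
  have h1 : ∀ᶠ x : ℝ in Filter.atTop, 2 ≤ x ^ (ε / 2) :=
    (tendsto_rpow_atTop (by positivity)).eventually_ge_atTop 2
  have h2 : ∀ᶠ x : ℝ in Filter.atTop, 2 ≤ x ^ (1 - ε / 2) :=
    (tendsto_rpow_atTop (show 0 < 1 - ε / 2 by linarith)).eventually_ge_atTop 2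
  obtain ⟨n0, hn0⟩ := Filter.eventually_atTop.1
    (((h1.and h2).and (Filter.eventually_ge_atTop (16 : ℝ))).natCast_atTop)
  refine ⟨n0, fun n hn T U hU hT => ?_⟩
  obtain ⟨⟨h3, h4⟩, h5⟩ := hn0 n hn
  have hn1 : (0 : ℝ) < n := by linarith
  have h6 : (n : ℝ) ^ (1 - ε / 2) ≤ log (2 * T) := by
    refine le_trans ?_ hT
    have e1 : (n : ℝ) ^ (1 - ε / 2) = n * exp (-(ε / 2 * log n)) := by
      rw [rpow_sub hn1, rpow_one, rpow_def_of_pos hn1, exp_neg, div_eq_mul_inv]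
      congr 3
      ring
    rw [e1]
    apply mul_le_mul_of_nonneg_left _ hn1.le
    apply exp_le_exp.2
    have : C * U ≤ C * (ε / (2 * C) * log n) := mul_le_mul_of_nonneg_left hU hC.le
    have e2 : C * (ε / (2 * C) * log n) = ε / 2 * log n := by field_simp
    linarith
  set y := (n : ℝ) ^ (1 - ε / 2) with hy
  have h7 : (n : ℝ) ^ (1 - ε) ≤ y / 2 := by
    have e1 : (n : ℝ) ^ (1 - ε) * (n : ℝ) ^ (ε / 2) = y := by
      rw [← rpow_add hn1, hy]
      congr 1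
      ring
    have e2 : (n : ℝ) ^ (1 - ε) * 2 ≤ y := by
      rw [← e1]
      apply mul_le_mul_of_nonneg_left h3 (by positivity)
    linarith
  have hT0 : (0 : ℝ) < 2 * T := by
    by_contra hlt
    have e1 : (2 * T : ℝ) = 0 := le_antisymm (not_lt.1 hlt) (by positivity)
    rw [e1, log_zero] at h6
    linarith
  have h8 : exp y ≤ 2 * T := by
    rw [← le_log_iff_exp_le hT0]
    exact h6
  have h9 : 2 ≤ exp (y / 2) := by
    have := add_one_le_exp (y / 2)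
    linarith
  have h10 : exp (y / 2) * 2 ≤ 2 * T := by
    calc exp (y / 2) * 2 ≤ exp (y / 2) * exp (y / 2) :=
          mul_le_mul_of_nonneg_left h9 (exp_pos _).le
      _ = exp y := by rw [← exp_add]; congr 1; ring
      _ ≤ 2 * T := h8
  have h11 : exp ((n : ℝ) ^ (1 - ε)) ≤ exp (y / 2) := exp_le_exp.2 h7
  linarith

end Pool.CDep
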