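import Pool.Agent.CDep.Val
import Pool.Agent.Helper97.Form.Perm

/-! # Constant depth: the gadget (comparison of two words read in blocks of two kinds) -/

set_option autoImplicit false
set_option linter.unusedSimpArgs false

namespace Pool.CDep

open Finset

/-- the digits which have been read by exactly one of the two readers -/
def win {N : ℕ} (lu lv : Fin N → ℕ) (t : ℕ) : Finset (Fin N) :=
  univ.filter fun d => ¬ ((lu d < t) ↔ (lv d < t))

theorem mem_win {N : ℕ} {lu lv : Fin N → ℕ} {t : ℕ} {d : Fin N} :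
    d ∈ win lu lv t ↔ ¬ ((lu d < t) ↔ (lv d < t)) := by simp [win]

section comp

variable {N h : ℕ} (lu lv : Fin N → ℕ)

/-- consistency of two memories `f`, `g` at the times `t`, `t + 1` with the word `w` on the block
which is read at the time `t` -/
def comp (t : ℕ) (f g w : Fin N → Fin h) : Prop := ∀ d,
  ((lu d = t ∨ lv d = t) → d ∈ win lu lv t → f d = w d) ∧
  ((lu d = t ∨ lv d = t) → d ∉ win lu lv t → g d = w d) ∧
  (¬ (lu d = t ∨ lv d = t) → d ∈ win lu lv t → g d = f d)

/-- the memory `f` at the time `t` leads to acceptance -/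
def acc (t : ℕ) (f p q : Fin N → Fin h) : Prop := ∀ d,
  (d ∈ win lu lv t → f d = if lu d < t then q d else p d) ∧
  (¬ lu d < t → ¬ lv d < t → p d = q d)

/-- the memory which is compatible with acceptance -/
def mem0 (h0 : 0 < h) (t : ℕ) (p q : Fin N → Fin h) : Fin N → Fin h := fun d =>
  if d ∈ win lu lv t then (if lu d < t then q d else p d) else ⟨0, h0⟩

variable {lu lv}

theorem eq_mem0 (h0 : 0 < h) {t : ℕ} {g p q : Fin N → Fin h} (hg : acc lu lv t g p q)
    (hz : ∀ d, d ∉ win lu lv t → (g d).val = 0) : g = mem0 lu lv h0 t p q := by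
  funext d
  unfold mem0
  by_cases hd : d ∈ win lu lv t
  · rw [if_pos hd]
    exact (hg d).1 hd
  · rw [if_neg hd]
    exact Fin.ext (hz d hd)

theorem comp_acc (h0 : 0 < h) (hdis : ∀ d d', lu d ≠ lv d') (t : ℕ) (f p q : Fin N → Fin h)
    (w : Fin N → Fin h) (hwp : (∃ d, lu d = t) → w = p) (hwq : (∃ d, lv d = t) → w = q) :
    (comp lu lv t f (mem0 lu lv h0 (t + 1) p q) w ∧
      acc lu lv (t + 1) (mem0 lu lv h0 (t + 1) p q) p q) ↔ acc lu lv t f p q := by
  unfold comp acc
  rw [← forall_and]
  refine forall_congr' fun d => ?_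
  have hd := hdis d d
  simp only [mem0, mem_win]
  rcases lt_trichotomy (lu d) t with hu | hu | hu
  · rcases lt_trichotomy (lv d) t with hv | hv | hv
    · have a1 : lu d < t + 1 := by omega
      have a2 : lv d < t + 1 := by omega
      have a3 : lu d ≠ t := by omega
      have a4 : lv d ≠ t := by omega
      simp [hu, hv, a1, a2, a3, a4]
    · have a1 : lu d < t + 1 := by omega
      have a2 : lv d < t + 1 := by omega
      have a5 : ¬ lv d < t := by omega
      have a3 : lu d ≠ t := by omega
      rw [hwq ⟨d, hv⟩]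
      simp [hu, a1, a2, a3, a5, hv]
    · have a1 : lu d < t + 1 := by omega
      have a2 : ¬ lv d < t + 1 := by omega
      have a5 : ¬ lv d < t := by omega
      have a3 : lu d ≠ t := by omega
      have a4 : lv d ≠ t := by omega
      simp [hu, a1, a2, a3, a4, a5, eq_comm]
  · have a6 : ¬ lu d < t := by omega
    rcases lt_trichotomy (lv d) t with hv | hv | hv
    · have a1 : lu d < t + 1 := by omega
      have a2 : lv d < t + 1 := by omega
      rw [hwp ⟨d, hu⟩]
      simp [hu, hv, a1, a2, a6]
    · exact absurd (hu.trans hv.symm) hd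
    · have a1 : lu d < t + 1 := by omega
      have a2 : ¬ lv d < t + 1 := by omega
      have a5 : ¬ lv d < t := by omega
      rw [hwp ⟨d, hu⟩]
      simp [hu, a1, a2, a5, a6, eq_comm]
  · have a6 : ¬ lu d < t := by omega
    have a7 : ¬ lu d < t + 1 := by omega
    have a3 : lu d ≠ t := by omega
    rcases lt_trichotomy (lv d) t with hv | hv | hv
    · have a2 : lv d < t + 1 := by omega
      have a4 : lv d ≠ t := by omega
      simp [hv, a2, a3, a4, a6, a7, eq_comm]
    · have a2 : lv d < t + 1 := by omega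
      have a5 : ¬ lv d < t := by omega
      rw [hwq ⟨d, hv⟩]
      simp [hv, a2, a3, a5, a6, a7]
    · have a2 : ¬ lv d < t + 1 := by omega
      have a5 : ¬ lv d < t := by omega
      have a4 : lv d ≠ t := by omega
      simp [a2, a3, a4, a5, a6, a7]

theorem comp_congr {t : ℕ} {f g w w' : Fin N → Fin h}
    (hw : ∀ d, (lu d = t ∨ lv d = t) → w d = w' d) :
    comp lu lv t f g w ↔ comp lu lv t f g w' := by
  unfold comp
  refine forall_congr' fun d => ?_
  by_cases hd : lu d = t ∨ lv d = t
  · rw [hw d hd]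
  · simp [hd]

end comp

section vertices

variable {N : ℕ} (lu lv : Fin N → ℕ) (Tm h : ℕ)

/-- the vertices of the layered graph: a time and a memory -/
abbrev Vx : Type :=
  {v : Fin (Tm + 1) × (Fin N → Fin h) // ∀ d, d ∉ win lu lv v.1.val → (v.2 d).val = 0}

theorem card_Vx {Kw : ℕ} (hh : 1 ≤ h) (hw : ∀ t ≤ Tm, (win lu lv t).card ≤ Kw) :
    Fintype.card (Vx lu lv Tm h) ≤ (Tm + 1) * h ^ Kw := by
  let F : Vx lu lv Tm h → (t : Fin (Tm + 1)) × ({d // d ∈ win lu lv t.val} → Fin h) :=
    fun v => ⟨v.1.1, fun d => v.1.2 d.1⟩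
  have hF : Function.Injective F := by
    rintro ⟨⟨t, f⟩, hf⟩ ⟨⟨t', f'⟩, hf'⟩ he
    simp only [F, Sigma.mk.injEq] at he
    obtain ⟨h1, h2⟩ := he
    subst h1
    have h3 := eq_of_heq h2
    have h4 : f = f' := by
      funext d
      by_cases hd : d ∈ win lu lv t.val
      · exact congrFun h3 ⟨d, hd⟩
      · exact Fin.ext ((hf d hd).trans (hf' d hd).symm)
    subst h4
    rfl
  refine (Fintype.card_le_of_injective F hF).trans ?_
  rw [Fintype.card_sigma]
  have h1 : ∀ t ∈ (univ : Finset (Fin (Tm + 1))),
      Fintype.card ({d // d ∈ win lu lv t.val} → Fin h) ≤ h ^ Kw := by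
    intro t _
    rw [Fintype.card_fun, Fintype.card_fin, Fintype.card_coe]
    exact Nat.pow_le_pow_right hh (hw t.val (by omega))
  refine (sum_le_card_nsmul _ _ _ h1).trans ?_
  rw [card_univ, Fintype.card_fin, smul_eq_mul]

end vertices

section graph

variable {N : ℕ} (lu lv : Fin N → ℕ) (Tm h k0 : ℕ)

open Classical in
/-- the edges which are read by nobody -/
noncomputable def cC : Vx lu lv Tm h ⊕ Fin k0 → Vx lu lv Tm h ⊕ Fin k0 → ℤ
  | Sum.inl i, Sum.inl j =>
      if j.1.1.val = i.1.1.val + 1 ∧ (¬ ∃ d, lu d = i.1.1.val) ∧ (¬ ∃ d, lv d = i.1.1.val) ∧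
        comp lu lv i.1.1.val i.1.2 j.1.2 i.1.2 then 1 else 0
  | _, _ => 0

open Classical in
/-- the edges which are read by the first reader -/
noncomputable def cA (p : Fin N → Fin h) :
    Vx lu lv Tm h ⊕ Fin k0 → Vx lu lv Tm h ⊕ Fin k0 → ℤ
  | Sum.inl i, Sum.inl j =>
      if j.1.1.val = i.1.1.val + 1 ∧ (∃ d, lu d = i.1.1.val) ∧
        comp lu lv i.1.1.val i.1.2 j.1.2 p then 1 else 0
  | _, _ => 0

open Classical in
/-- the edges which are read by the second reader -/
noncomputable def cB (q : Fin N → Fin h) :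
    Vx lu lv Tm h ⊕ Fin k0 → Vx lu lv Tm h ⊕ Fin k0 → ℤ
  | Sum.inl i, Sum.inl j =>
      if j.1.1.val = i.1.1.val + 1 ∧ (∃ d, lv d = i.1.1.val) ∧
        comp lu lv i.1.1.val i.1.2 j.1.2 q then 1 else 0
  | _, _ => 0

/-- the edges from the extra vertex -/
def cS : Vx lu lv Tm h ⊕ Fin k0 → ℤ
  | Sum.inl i => if i.1.1.val = 0 then 1 else 0
  | Sum.inr _ => 0

/-- the edges to the extra vertex -/
def cT : Vx lu lv Tm h ⊕ Fin k0 → ℤ
  | Sum.inl i => if i.1.1.val = Tm then 1 else 0
  | Sum.inr _ => 0

/-- number of letters which are read at the time `t` or later -/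
def later (l : Fin N → ℕ) (t : ℕ) : ℕ := ((univ.image l).filter fun s => t ≤ s).card

open Classical in
theorem later_succ (l : Fin N → ℕ) (t : ℕ) :
    later l t = later l (t + 1) + if ∃ d, l d = t then 1 else 0 := by
  unfold later
  by_cases ht : ∃ d, l d = t
  · rw [if_pos ht]
    have h1 : (univ.image l).filter (fun s => t ≤ s) =
        insert t ((univ.image l).filter fun s => t + 1 ≤ s) := by
      ext s
      simp only [mem_filter, mem_insert, mem_image, mem_univ, true_and]
      constructor
      · rintro ⟨h1, h2⟩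
        rcases eq_or_lt_of_le h2 with h3 | h3
        · exact Or.inl h3.symm
        · exact Or.inr ⟨h1, h3⟩
      · rintro (h1 | ⟨h1, h2⟩)
        · rw [h1]
          exact ⟨ht, le_rfl⟩
        · exact ⟨h1, by omega⟩
    rw [h1, card_insert_of_notMem]
    simp
  · rw [if_neg ht, add_zero]
    congr 1
    ext s
    simp only [mem_filter, mem_image, mem_univ, true_and]
    constructor
    · rintro ⟨h1, h2⟩
      refine ⟨h1, ?_⟩
      rcases eq_or_lt_of_le h2 with h3 | h3
      · rw [← h3] at h1
        exact absurd h1 ht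
      · exact h3
    · rintro ⟨h1, h2⟩
      exact ⟨h1, by omega⟩

theorem later_end {l : Fin N → ℕ} (hl : ∀ d, l d < Tm) : later l Tm = 0 := by
  unfold later
  rw [card_eq_zero, filter_eq_empty_iff]
  intro s hs
  obtain ⟨d, _, rfl⟩ := mem_image.1 hs
  have := hl d
  omega

theorem later_zero (l : Fin N → ℕ) : later l 0 = (univ.image l).card := by
  unfold later
  simp

variable {A : Type} [CommRing A]

/-- the weights of the layered graph -/
noncomputable def gN (x y : A) (p q : Fin N → Fin h) (i j : Vx lu lv Tm h ⊕ Fin k0) : A :=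
  (cC lu lv Tm h k0 i j : A) + x * (cA lu lv Tm h k0 p i j : A) +
    y * (cB lu lv Tm h k0 q i j : A)

open Classical in
/-- the value of a vertex -/
noncomputable def gX (x y : A) (p q : Fin N → Fin h) : Vx lu lv Tm h ⊕ Fin k0 → A
  | Sum.inl i => x ^ later lu i.1.1.val * y ^ later lv i.1.1.val *
      (if acc lu lv i.1.1.val i.1.2 p q then 1 else 0)
  | Sum.inr _ => 0

/-- the rank function -/
def gr : Vx lu lv Tm h ⊕ Fin k0 → ℕ
  | Sum.inl i => Tm - i.1.1.val
  | Sum.inr _ => 0

theorem gN_acyclic (x y : A) (p q : Fin N → Fin h) (i j : Vx lu lv Tm h ⊕ Fin k0)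
    (hne : gN lu lv Tm h k0 x y p q i j ≠ 0) : gr lu lv Tm h k0 j < gr lu lv Tm h k0 i := by
  rcases i with i | i <;> rcases j with j | j
  · by_cases hj : j.1.1.val = i.1.1.val + 1
    · have := j.1.1.2
      unfold gr
      simp only
      omega
    · exfalso
      apply hne
      unfold gN cC cA cB
      simp [hj]
  all_goals
    exfalso
    apply hne
    unfold gN cC cA cB
    simp

variable {lu lv Tm h k0}

theorem gX_rec (h0 : 0 < h) (hdis : ∀ d d', lu d ≠ lv d') (hu : ∀ d, lu d < Tm)
    (hv : ∀ d, lv d < Tm) (x y : A) (p q : Fin N → Fin h) (i : Vx lu lv Tm h ⊕ Fin k0) :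
    gX lu lv Tm h k0 x y p q i = (cT lu lv Tm h k0 i : A) +
      ∑ j, gN lu lv Tm h k0 x y p q i j * gX lu lv Tm h k0 x y p q j := by
  classical
  rcases i with i | i
  swap
  · have : ∀ j, gN lu lv Tm h k0 x y p q (Sum.inr i) j = 0 := by
      intro j
      unfold gN cC cA cB
      simp
    simp [this, gX, cT]
  obtain ⟨⟨t, f⟩, hf⟩ := i
  rcases Nat.lt_or_ge t.val Tm with ht | ht
  · -- an inner vertex
    have hT : (cT lu lv Tm h k0 (Sum.inl ⟨(t, f), hf⟩) : A) = 0 := by
      unfold cT
      simp only
      rw [if_neg (by omega), Int.cast_zero]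
    rw [hT, zero_add]
    let t' : Fin (Tm + 1) := ⟨t.val + 1, by omega⟩
    let m0 := mem0 lu lv h0 (t.val + 1) p q
    have hm0 : ∀ d, d ∉ win lu lv t'.val → (m0 d).val = 0 := by
      intro d hd
      show (mem0 lu lv h0 (t.val + 1) p q d).val = 0
      unfold mem0
      rw [if_neg hd]
    let j0 : Vx lu lv Tm h := ⟨(t', m0), hm0⟩
    rw [sum_eq_single (Sum.inl j0)]
    · -- the value
      set w : Fin N → Fin h := if (∃ d, lu d = t.val) then p else
        (if (∃ d, lv d = t.val) then q else f) with hw
      have hnot : ¬ ((∃ d, lu d = t.val) ∧ (∃ d, lv d = t.val)) := by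
        rintro ⟨⟨d, hd⟩, ⟨d', hd'⟩⟩
        exact hdis d d' (hd.trans hd'.symm)
      have hwp : (∃ d, lu d = t.val) → w = p := fun h1 => by rw [hw, if_pos h1]
      have hwq : (∃ d, lv d = t.val) → w = q := fun h1 => by
        rw [hw, if_neg (fun h2 => hnot ⟨h2, h1⟩), if_pos h1]
      have key := comp_acc h0 hdis t.val f p q w hwp hwq
      have hN : gN lu lv Tm h k0 x y p q (Sum.inl ⟨(t, f), hf⟩) (Sum.inl j0) =
          (if ∃ d, lu d = t.val then x else 1) * (if ∃ d, lv d = t.val then y else 1) *
            (if comp lu lv t.val f m0 w then 1 else 0) := by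
        unfold gN cC cA cB
        simp only [j0, t', true_and]
        by_cases c1 : ∃ d, lu d = t.val
        · have c2 : ¬ ∃ d, lv d = t.val := fun h2 => hnot ⟨c1, h2⟩
          rw [hwp c1]
          simp only [c1, c2, not_true_eq_false, false_and, and_false, if_false, true_and, if_true,
            Int.cast_zero, mul_zero, add_zero, zero_add, mul_one]
          split_ifs <;> simp
        · by_cases c2 : ∃ d, lv d = t.val
          · rw [hwq c2]
            simp only [c1, c2, not_true_eq_false, not_false_eq_true, false_and, and_false,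
              if_false, true_and, if_true, Int.cast_zero, mul_zero, zero_add, one_mul]
            split_ifs <;> simp
          · have hwf : w = f := by rw [hw, if_neg c1, if_neg c2]
            rw [hwf]
            simp only [c1, c2, not_false_eq_true, false_and, if_false, true_and,
              Int.cast_zero, mul_zero, add_zero, mul_one]
            split_ifs <;> simp
      rw [hN]
      unfold gX
      simp only [j0, t']
      rw [later_succ lu t.val, later_succ lv t.val]
      by_cases ha : acc lu lv t.val f p q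
      · obtain ⟨b1, b2⟩ := key.2 ha
        rw [if_pos ha, if_pos b1, if_pos b2]
        split_ifs <;> ring
      · rw [if_neg ha]
        by_cases b1 : comp lu lv t.val f m0 w
        · have b2 : ¬ acc lu lv (t.val + 1) m0 p q := fun b2 => ha (key.1 ⟨b1, b2⟩)
          rw [if_neg b2]
          ring
        · rw [if_neg b1]
          ring
    · -- the other vertices
      rintro (j | j) _ hj
      · obtain ⟨⟨s, g⟩, hg⟩ := j
        by_cases hs : s.val = t.val + 1
        · have hs' : s = t' := Fin.ext hs
          subst hs'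
          have : ¬ acc lu lv t'.val g p q := by
            intro ha
            apply hj
            have hgm := eq_mem0 h0 ha hg
            congr 1
            apply Subtype.ext
            exact Prod.ext rfl hgm
          unfold gX
          simp only
          rw [if_neg this, mul_zero, mul_zero]
        · have : gN lu lv Tm h k0 x y p q (Sum.inl ⟨(t, f), hf⟩) (Sum.inl ⟨(s, g), hg⟩) = 0 := by
            unfold gN cC cA cB
            simp [hs]
          rw [this, zero_mul]
      · unfold gX
        simp only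
        rw [mul_zero]
    · intro hcon
      exact absurd (mem_univ _) hcon
  · -- the last layer
    have ht' : t.val = Tm := by omega
    have hN : ∀ j, gN lu lv Tm h k0 x y p q (Sum.inl ⟨(t, f), hf⟩) j = 0 := by
      rintro (j | j)
      · have hj : ¬ (j.1.1.val = t.val + 1) := by
          have := j.1.1.2
          omega
        unfold gN cC cA cB
        simp [hj]
      · unfold gN cC cA cB
        simp
    rw [sum_eq_zero fun j _ => by rw [hN j, zero_mul], add_zero]
    have hacc : acc lu lv t.val f p q := by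
      intro d
      have h1 := hu d
      have h2 := hv d
      refine ⟨fun hd => ?_, fun h3 _ => absurd (by omega) h3⟩
      rw [mem_win] at hd
      exact absurd (iff_of_true (by omega) (by omega)) hd
    unfold gX cT
    simp only
    rw [if_pos hacc, if_pos ht', ht', later_end Tm hu, later_end Tm hv]
    simp

/-- the total weight of the paths from the start -/
theorem sum_gX (h0 : 0 < h) (x y : A) (p q : Fin N → Fin h) :
    ∑ i, (cS lu lv Tm h k0 i : A) * gX lu lv Tm h k0 x y p q i =
      if p = q then x ^ (univ.image lu).card * y ^ (univ.image lv).card else 0 := by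
  classical
  have hwin : ∀ d, d ∉ win lu lv 0 := by
    intro d
    rw [mem_win, not_not]
    exact iff_of_false (Nat.not_lt_zero _) (Nat.not_lt_zero _)
  let i0 : Vx lu lv Tm h := ⟨(⟨0, by omega⟩, fun _ => ⟨0, h0⟩), fun _ _ => rfl⟩
  rw [sum_eq_single (Sum.inl i0)]
  · have h1 : (cS lu lv Tm h k0 (Sum.inl i0) : A) = 1 := by
      unfold cS
      simp [i0]
    rw [h1, one_mul]
    unfold gX
    simp only [i0]
    rw [later_zero, later_zero]
    by_cases hpq : p = q
    · rw [if_pos hpq, if_pos, mul_one]
      intro d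
      exact ⟨fun hd => absurd hd (hwin d), fun _ _ => congrFun hpq d⟩
    · rw [if_neg hpq, if_neg, mul_zero]
      intro ha
      apply hpq
      funext d
      exact (ha d).2 (Nat.not_lt_zero _) (Nat.not_lt_zero _)
  · rintro (j | j) _ hj
    · obtain ⟨⟨s, g⟩, hg⟩ := j
      have hs : s.val ≠ 0 := by
        intro hs
        apply hj
        congr 1
        apply Subtype.ext
        refine Prod.ext (Fin.ext hs) ?_
        funext d
        refine Fin.ext (hg d ?_)
        simp only
        rw [hs]
        exact hwin d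
      have h1 : (cS lu lv Tm h k0 (Sum.inl ⟨(s, g), hg⟩) : A) = 0 := by
        unfold cS
        simp [hs]
      rw [h1, zero_mul]
    · have h1 : (cS lu lv Tm h k0 (Sum.inr j) : A) = 0 := by
        unfold cS
        simp
      rw [h1, zero_mul]
  · intro hcon
    exact absurd (mem_univ _) hcon

theorem cA_loc (hdis : ∀ d d', lu d ≠ lv d') (i j : Vx lu lv Tm h ⊕ Fin k0) :
    ∃ J : Finset ℕ, J ⊆ univ.image lu ∧ J.card ≤ 1 ∧
      ∀ p p' : Fin N → Fin h, (∀ d, lu d ∈ J → p d = p' d) →
        cA lu lv Tm h k0 p i j = cA lu lv Tm h k0 p' i j := by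
  classical
  rcases i with i | i
  · rcases j with j | j
    · by_cases c1 : ∃ d, lu d = i.1.1.val
      · refine ⟨{i.1.1.val}, ?_, by simp, fun p p' hpp => ?_⟩
        · obtain ⟨d, hd⟩ := c1
          rw [singleton_subset_iff, ← hd]
          exact mem_image_of_mem _ (mem_univ _)
        · unfold cA
          have hc : comp lu lv i.1.1.val i.1.2 j.1.2 p ↔ comp lu lv i.1.1.val i.1.2 j.1.2 p' := by
            refine comp_congr fun d hd => ?_
            rcases hd with hd | hd
            · exact hpp d (by rw [mem_singleton]; exact hd)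
            · obtain ⟨d', hd'⟩ := c1
              exact absurd (hd'.trans hd.symm) (hdis d' d)
          simp only [hc]
      · refine ⟨∅, empty_subset _, by simp, fun p p' _ => ?_⟩
        unfold cA
        simp only [c1, false_and, and_false, if_false]
    · exact ⟨∅, empty_subset _, by simp, fun p p' _ => rfl⟩
  · exact ⟨∅, empty_subset _, by simp, fun p p' _ => rfl⟩

theorem cB_loc (hdis : ∀ d d', lu d ≠ lv d') (i j : Vx lu lv Tm h ⊕ Fin k0) :
    ∃ J : Finset ℕ, J ⊆ univ.image lv ∧ J.card ≤ 1 ∧
      ∀ p p' : Fin N → Fin h, (∀ d, lv d ∈ J → p d = p' d) →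
        cB lu lv Tm h k0 p i j = cB lu lv Tm h k0 p' i j := by
  classical
  rcases i with i | i
  · rcases j with j | j
    · by_cases c1 : ∃ d, lv d = i.1.1.val
      · refine ⟨{i.1.1.val}, ?_, by simp, fun p p' hpp => ?_⟩
        · obtain ⟨d, hd⟩ := c1
          rw [singleton_subset_iff, ← hd]
          exact mem_image_of_mem _ (mem_univ _)
        · unfold cB
          have hc : comp lu lv i.1.1.val i.1.2 j.1.2 p ↔ comp lu lv i.1.1.val i.1.2 j.1.2 p' := by
            refine comp_congr fun d hd => ?_
            rcases hd with hd | hd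
            · obtain ⟨d', hd'⟩ := c1
              exact absurd (hd.trans hd'.symm) (hdis d d')
            · exact hpp d (by rw [mem_singleton]; exact hd)
          simp only [hc]
      · refine ⟨∅, empty_subset _, by simp, fun p p' _ => ?_⟩
        unfold cB
        simp only [c1, false_and, and_false, if_false]
    · exact ⟨∅, empty_subset _, by simp, fun p p' _ => rfl⟩
  · exact ⟨∅, empty_subset _, by simp, fun p p' _ => rfl⟩

end graph

/-- integral data whose coefficients of `lam` and `mu` depend on one letter -/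
structure IsLoc {σ : Type} {N h : ℕ} (D : IntDat σ N h) (lu lv : Fin N → ℕ) : Prop where
  a : ∀ s, ∃ J : Finset ℕ, J ⊆ univ.image lu ∧ J.card ≤ 1 ∧
    ∀ p p' : Fin N → Fin h, (∀ d, lu d ∈ J → p d = p' d) → D.a s p = D.a s p'
  b : ∀ s, ∃ J : Finset ℕ, J ⊆ univ.image lv ∧ J.card ≤ 1 ∧
    ∀ p p' : Fin N → Fin h, (∀ d, lv d ∈ J → p d = p' d) → D.b s p = D.b s p'

/-- the gadget -/
theorem gadget_exists {N h : ℕ} (lu lv : Fin N → ℕ) (Tm Kw n : ℕ)
    (hdis : ∀ d d', lu d ≠ lv d') (hu : ∀ d, lu d < Tm) (hv : ∀ d, lv d < Tm) (hh : 1 ≤ h)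
    (hw : ∀ t ≤ Tm, (win lu lv t).card ≤ Kw) (hn : (Tm + 1) * h ^ Kw + 1 ≤ n) :
    ∃ D : IntDat (Fin n × Fin n) N h,
      D.IsGad (univ.image lu).card (univ.image lv).card ∧ IsLoc D lu lv := by
  classical
  have hcard := card_Vx lu lv Tm h hh hw
  set k0 : ℕ := n - 1 - Fintype.card (Vx lu lv Tm h) with hk0
  have hn' : Fintype.card (Option (Vx lu lv Tm h ⊕ Fin k0)) = n := by
    rw [Fintype.card_option, Fintype.card_sum, Fintype.card_fin]
    omega
  let e : Fin n ≃ Option (Vx lu lv Tm h ⊕ Fin k0) :=
    (finCongr hn'.symm).trans (Fintype.equivFin _).symm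
  let Ci : Option (Vx lu lv Tm h ⊕ Fin k0) → Option (Vx lu lv Tm h ⊕ Fin k0) → ℤ :=
    fun i j => match i, j with
      | none, none => 0
      | none, some j => cS lu lv Tm h k0 j
      | some i, none => cT lu lv Tm h k0 i
      | some i, some j => (if i = j then 1 else 0) + cC lu lv Tm h k0 i j
  let Ai : (Fin N → Fin h) → Option (Vx lu lv Tm h ⊕ Fin k0) →
      Option (Vx lu lv Tm h ⊕ Fin k0) → ℤ :=
    fun p i j => match i, j with
      | some i, some j => cA lu lv Tm h k0 p i j
      | _, _ => 0
  let Bi : (Fin N → Fin h) → Option (Vx lu lv Tm h ⊕ Fin k0) →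
      Option (Vx lu lv Tm h ⊕ Fin k0) → ℤ :=
    fun q i j => match i, j with
      | some i, some j => cB lu lv Tm h k0 q i j
      | _, _ => 0
  refine ⟨⟨fun s => Ci (e s.1) (e s.2), fun s p => Ai p (e s.1) (e s.2),
    fun s q => Bi q (e s.1) (e s.2)⟩, ?_, ?_⟩
  · intro A _ x y p q
    have h1 := Pool.Agent.Helper97.Form.perm_acy (gr lu lv Tm h k0) (0 : A)
      (fun j => (cS lu lv Tm h k0 j : A)) (fun i => (cT lu lv Tm h k0 i : A))
      (gX lu lv Tm h k0 x y p q) (gN lu lv Tm h k0 x y p q)
      (gN_acyclic lu lv Tm h k0 x y p q) (gX_rec hh hdis hu hv x y p q)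
    rw [zero_add, sum_gX hh x y p q] at h1
    rw [← h1, ← Pool.Agent.Helper97.Form.permanent_reindex e e]
    congr 1
    ext i j
    show ((Ci (e i) (e j) : ℤ) : A) + x * ((Ai p (e i) (e j) : ℤ) : A) +
      y * ((Bi q (e i) (e j) : ℤ) : A) = Pool.Agent.Helper97.Form.acy (0 : A) _ _ _ (e i) (e j)
    rcases e i with _ | i' <;> rcases e j with _ | j'
    · simp [Ci, Ai, Bi, Pool.Agent.Helper97.Form.acy]
    · simp [Ci, Ai, Bi, Pool.Agent.Helper97.Form.acy]
    · simp [Ci, Ai, Bi, Pool.Agent.Helper97.Form.acy]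
    · simp only [Ci, Ai, Bi, Pool.Agent.Helper97.Form.acy, Matrix.of_apply, gN, Int.cast_add, Int.cast_ite,
        Int.cast_one, Int.cast_zero]
      ring
  · constructor
    · intro s
      show ∃ J : Finset ℕ, J ⊆ univ.image lu ∧ J.card ≤ 1 ∧
        ∀ p p' : Fin N → Fin h, (∀ d, lu d ∈ J → p d = p' d) →
          Ai p (e s.1) (e s.2) = Ai p' (e s.1) (e s.2)
      rcases e s.1 with _ | i'
      · exact ⟨∅, empty_subset _, by simp, fun p p' _ => rfl⟩
      · rcases e s.2 with _ | j'
        · exact ⟨∅, empty_subset _, by simp, fun p p' _ => rfl⟩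
        · exact cA_loc hdis i' j'
    · intro s
      show ∃ J : Finset ℕ, J ⊆ univ.image lv ∧ J.card ≤ 1 ∧
        ∀ p p' : Fin N → Fin h, (∀ d, lv d ∈ J → p d = p' d) →
          Bi p (e s.1) (e s.2) = Bi p' (e s.1) (e s.2)
      rcases e s.1 with _ | i'
      · exact ⟨∅, empty_subset _, by simp, fun p p' _ => rfl⟩
      · rcases e s.2 with _ | j'
        · exact ⟨∅, empty_subset _, by simp, fun p p' _ => rfl⟩
        · exact cB_loc hdis i' j'

end Pool.CDep
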