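import Mathlib

/-!
# CDep: block lengths `P`, `Q` with `P ^ 2 - 2 Q ^ 2 = ± 1`
-/

set_option autoImplicit false

namespace Pool.CDep

/-- `P ^ 2 - 2 Q ^ 2 = ± 1` -/
def Pell (P Q : ℕ) : Prop := P ^ 2 = 2 * Q ^ 2 + 1 ∨ P ^ 2 + 1 = 2 * Q ^ 2

theorem Pell.next {P Q : ℕ} (h : Pell P Q) : Pell (P + 2 * Q) (P + Q) := by
  rcases h with h | h
  · right; nlinarith
  · left; nlinarith

theorem pell_exists (X : ℕ) (hX : 1 ≤ X) :
    ∃ P Q : ℕ, Pell P Q ∧ Q ≤ P ∧ P ≤ 2 * Q ∧ X ≤ Q ∧ Q ≤ 3 * X := by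
  induction X, hX using Nat.le_induction with
  | base => exact ⟨1, 1, Or.inr (by norm_num), by norm_num, by norm_num, by norm_num, by norm_num⟩
  | succ X hX ih =>
    obtain ⟨P, Q, h, h1, h2, h3, h4⟩ := ih
    rcases Nat.lt_or_ge X Q with h5 | h5
    · exact ⟨P, Q, h, h1, h2, h5, by omega⟩
    · refine ⟨P + 2 * Q, P + Q, h.next, by omega, by omega, by omega, by omega⟩

theorem Pell.coprime {P Q : ℕ} (h : Pell P Q) : Nat.Coprime P Q := by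
  rw [Nat.coprime_iff_gcd_eq_one]
  obtain ⟨x, hx⟩ := Nat.gcd_dvd_left P Q
  obtain ⟨y, hy⟩ := Nat.gcd_dvd_right P Q
  set d := Nat.gcd P Q with hd
  have h1 : d ∣ 1 := by
    have hP : d ∣ P ^ 2 := Dvd.dvd.pow (Nat.gcd_dvd_left P Q) (by norm_num)
    have hQ : d ∣ 2 * Q ^ 2 := Dvd.dvd.mul_left (Dvd.dvd.pow (Nat.gcd_dvd_right P Q) (by norm_num)) 2
    rcases h with h | h
    · rw [h] at hP
      exact (Nat.dvd_add_right hQ).mp hP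
    · rw [← h] at hQ
      exact (Nat.dvd_add_right hP).mp hQ
  exact Nat.dvd_one.mp h1

theorem sq_ne_two_sq {a c : ℕ} (h : a ≠ 0 ∨ c ≠ 0) : 2 * a ^ 2 ≠ c ^ 2 := by
  intro h1
  have ha : a ≠ 0 := by
    rintro rfl
    rcases h with h | h
    · exact h rfl
    · apply h
      have : c ^ 2 = 0 := by rw [← h1]; norm_num
      exact pow_eq_zero_iff (by norm_num) |>.mp this
  have h2 := irrational_sqrt_two
  apply h2
  refine ⟨(c : ℚ) / a, ?_⟩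
  push_cast
  have ha' : (0 : ℝ) < a := by positivity
  rw [eq_comm, Real.sqrt_eq_iff_mul_self_eq (by norm_num) (by positivity)]
  field_simp
  exact_mod_cast (by rw [← h1])

/-- the imbalance of blocks -/
theorem Pell.imbal {P Q : ℕ} (h : Pell P Q) {a c : ℕ} (hac : a ≠ 0 ∨ c ≠ 0) (ha : 2 * a ≤ Q) :
    3 * (Q : ℝ) ^ 2 ≤ 4 * (|(a : ℝ) * P - c * Q| * (a * P + c * Q)) := by
  have h0 : |(a : ℝ) * P - c * Q| * (a * P + c * Q) = |((a : ℤ) ^ 2 * P ^ 2 - c ^ 2 * Q ^ 2 : ℤ)| := by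
    have : (0 : ℝ) ≤ a * P + c * Q := by positivity
    rw [← abs_of_nonneg this, ← abs_mul]
    push_cast
    congr 1
    ring
  rw [h0]
  have h1 : 3 * (Q : ℤ) ^ 2 ≤ 4 * |((a : ℤ) ^ 2 * P ^ 2 - c ^ 2 * Q ^ 2 : ℤ)| := by
    have h2 : (2 * (a : ℤ) ^ 2 - c ^ 2) ≠ 0 := by
      intro h3
      apply sq_ne_two_sq hac
      zify
      linarith
    have h3 : 4 * (a : ℤ) ^ 2 ≤ Q ^ 2 := by
      have : (2 * (a : ℤ)) ≤ Q := by exact_mod_cast ha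
      nlinarith [Int.natCast_nonneg a]
    rcases lt_or_gt_of_ne h2 with h4 | h4
    · have h5 : 2 * (a : ℤ) ^ 2 - c ^ 2 ≤ -1 := by omega
      have h6 : (Q : ℤ) ^ 2 * (2 * (a : ℤ) ^ 2 - c ^ 2) ≤ - (Q : ℤ) ^ 2 := by nlinarith [sq_nonneg (Q : ℤ)]
      rcases h with h | h
      · have hP : (P : ℤ) ^ 2 = 2 * Q ^ 2 + 1 := by exact_mod_cast h
        have h7 : (a : ℤ) ^ 2 * P ^ 2 - c ^ 2 * Q ^ 2 = Q ^ 2 * (2 * (a : ℤ) ^ 2 - c ^ 2) + a ^ 2 := by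
          rw [hP]; ring
        rw [h7]
        have := neg_abs_le ((Q : ℤ) ^ 2 * (2 * (a : ℤ) ^ 2 - c ^ 2) + a ^ 2)
        linarith
      · have hP : (P : ℤ) ^ 2 = 2 * Q ^ 2 - 1 := by
          have : (P : ℤ) ^ 2 + 1 = 2 * Q ^ 2 := by exact_mod_cast h
          linarith
        have h7 : (a : ℤ) ^ 2 * P ^ 2 - c ^ 2 * Q ^ 2 = Q ^ 2 * (2 * (a : ℤ) ^ 2 - c ^ 2) - a ^ 2 := by
          rw [hP]; ring
        rw [h7]
        have := neg_abs_le ((Q : ℤ) ^ 2 * (2 * (a : ℤ) ^ 2 - c ^ 2) - a ^ 2)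
        nlinarith [sq_nonneg (a : ℤ)]
    · have h5 : 1 ≤ 2 * (a : ℤ) ^ 2 - c ^ 2 := by omega
      have h6 : (Q : ℤ) ^ 2 ≤ (Q : ℤ) ^ 2 * (2 * (a : ℤ) ^ 2 - c ^ 2) := by nlinarith [sq_nonneg (Q : ℤ)]
      rcases h with h | h
      · have hP : (P : ℤ) ^ 2 = 2 * Q ^ 2 + 1 := by exact_mod_cast h
        have h7 : (a : ℤ) ^ 2 * P ^ 2 - c ^ 2 * Q ^ 2 = Q ^ 2 * (2 * (a : ℤ) ^ 2 - c ^ 2) + a ^ 2 := by
          rw [hP]; ring
        rw [h7]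
        have := le_abs_self ((Q : ℤ) ^ 2 * (2 * (a : ℤ) ^ 2 - c ^ 2) + a ^ 2)
        nlinarith [sq_nonneg (a : ℤ)]
      · have hP : (P : ℤ) ^ 2 = 2 * Q ^ 2 - 1 := by
          have : (P : ℤ) ^ 2 + 1 = 2 * Q ^ 2 := by exact_mod_cast h
          linarith
        have h7 : (a : ℤ) ^ 2 * P ^ 2 - c ^ 2 * Q ^ 2 = Q ^ 2 * (2 * (a : ℤ) ^ 2 - c ^ 2) - a ^ 2 := by
          rw [hP]; ring
        rw [h7]
        have := le_abs_self ((Q : ℤ) ^ 2 * (2 * (a : ℤ) ^ 2 - c ^ 2) - a ^ 2)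
        linarith
  exact_mod_cast h1

end Pool.CDep
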