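import Pool.Agent.Helper10.CD.Nu
import Pool.Agent.Helper87.D3.Series

/-!
# Constant depth: words whose digits carry labels

A word is a function `ι → Fin h` (`ι = Fin N` in the application); the label `l d` of a digit `d`
is the time at which the digit is read, the digits with the same label form a block.
-/

set_option autoImplicit false
set_option linter.unusedSectionVars false

namespace Pool.CDG

open Finset Pool.CD
open Pool.Agent.Helper87.D3 (RankLe rankLe_of_index card_le_of_rankLe mul_mem_span Big)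

/-- words: digit strings -/
abbrev Wo (N h : ℕ) : Type := Fin N → Fin h

/-- functions on pairs of words -/
abbrev Fw (K : Type) (N h : ℕ) : Type := Wo N h × Wo N h → K

section gen
variable {ι : Type} [Fintype ι] [DecidableEq ι]
variable (K : Type) [Field K]

/-- functions which depend only on the digits whose label is in a set of at most `x` labels -/
def Gen (h : ℕ) (l : ι → ℕ) (x : ℕ) : Set ((ι → Fin h) → K) :=
  {f | ∃ J : Finset ℕ, J ⊆ univ.image l ∧ J.card ≤ x ∧
    ∀ p p' : ι → Fin h, (∀ d, l d ∈ J → p d = p' d) → f p = f p'}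

variable {K} {h : ℕ} {l : ι → ℕ}

theorem Gen_one : (1 : (ι → Fin h) → K) ∈ Gen K h l 0 :=
  ⟨∅, empty_subset _, le_rfl, fun _ _ _ => rfl⟩

theorem Gen_const (c : K) : (fun _ => c : (ι → Fin h) → K) ∈ Gen K h l 0 :=
  ⟨∅, empty_subset _, le_rfl, fun _ _ _ => rfl⟩

theorem Gen_mono {x y : ℕ} (hxy : x ≤ y) : Gen K h l x ⊆ Gen K h l y := by
  rintro f ⟨J, hJ, hc, hd⟩
  exact ⟨J, hJ, hc.trans hxy, hd⟩

theorem Gen_mul {x y : ℕ} {f g : (ι → Fin h) → K} (hf : f ∈ Gen K h l x)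
    (hg : g ∈ Gen K h l y) : f * g ∈ Gen K h l (x + y) := by
  obtain ⟨J, hJ, hc, hd⟩ := hf
  obtain ⟨J', hJ', hc', hd'⟩ := hg
  refine ⟨J ∪ J', union_subset hJ hJ', (card_union_le _ _).trans (by omega), fun p p' hp => ?_⟩
  rw [Pi.mul_apply, Pi.mul_apply, hd p p' fun d hdJ => hp d (mem_union_left _ hdJ),
    hd' p p' fun d hdJ => hp d (mem_union_right _ hdJ)]

variable (K h l) in
/-- degree at most `x` in the blocks of the first word -/
def UU (x : ℕ) : Submodule K ((ι → Fin h) × (ι → Fin h) → K) :=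
  Submodule.span K {f | ∃ g ∈ Gen K h l x, ∃ a : (ι → Fin h) → K, f = fun p => g p.1 * a p.2}

variable (K h l) in
/-- degree at most `x` in the blocks of the second word -/
def VV (x : ℕ) : Submodule K ((ι → Fin h) × (ι → Fin h) → K) :=
  Submodule.span K {f | ∃ g ∈ Gen K h l x, ∃ a : (ι → Fin h) → K, f = fun p => a p.1 * g p.2}

theorem one_mem_UU : (1 : (ι → Fin h) × (ι → Fin h) → K) ∈ UU K h l 0 :=
  Submodule.subset_span ⟨1, Gen_one, 1, by ext p; simp⟩

theorem one_mem_VV : (1 : (ι → Fin h) × (ι → Fin h) → K) ∈ VV K h l 0 :=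
  Submodule.subset_span ⟨1, Gen_one, 1, by ext p; simp⟩

theorem mul_mem_UU {x y : ℕ} {f g : (ι → Fin h) × (ι → Fin h) → K} (hf : f ∈ UU K h l x)
    (hg : g ∈ UU K h l y) : f * g ∈ UU K h l (x + y) := by
  refine mul_mem_span ?_ hf hg
  rintro _ ⟨g1, h1, a1, rfl⟩ _ ⟨g2, h2, a2, rfl⟩
  exact ⟨g1 * g2, Gen_mul h1 h2, a1 * a2, by ext p; simp only [Pi.mul_apply]; ring⟩

theorem mul_mem_VV {x y : ℕ} {f g : (ι → Fin h) × (ι → Fin h) → K} (hf : f ∈ VV K h l x)
    (hg : g ∈ VV K h l y) : f * g ∈ VV K h l (x + y) := by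
  refine mul_mem_span ?_ hf hg
  rintro _ ⟨g1, h1, a1, rfl⟩ _ ⟨g2, h2, a2, rfl⟩
  exact ⟨g1 * g2, Gen_mul h1 h2, a1 * a2, by ext p; simp only [Pi.mul_apply]; ring⟩

theorem mono_UU {x y : ℕ} (hxy : x ≤ y) : UU K h l x ≤ UU K h l y := by
  refine Submodule.span_mono ?_
  rintro f ⟨g, hg, a, rfl⟩
  exact ⟨g, Gen_mono hxy hg, a, rfl⟩

theorem mono_VV {x y : ℕ} (hxy : x ≤ y) : VV K h l x ≤ VV K h l y := by
  refine Submodule.span_mono ?_
  rintro f ⟨g, hg, a, rfl⟩
  exact ⟨g, Gen_mono hxy hg, a, rfl⟩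

theorem Filt_UU : Filt (UU K h l) where
  one := one_mem_UU
  mul _ _ _ _ ha hb := mul_mem_UU ha hb

theorem Filt_VV : Filt (VV K h l) where
  one := one_mem_VV
  mul _ _ _ _ ha hb := mul_mem_VV ha hb

/-- a function of the first word -/
theorem gen_mem_UU {x : ℕ} {g : (ι → Fin h) → K} (hg : g ∈ Gen K h l x) :
    (fun p : (ι → Fin h) × (ι → Fin h) => g p.1) ∈ UU K h l x :=
  Submodule.subset_span ⟨g, hg, 1, by ext p; simp⟩

/-- a function of the second word -/
theorem gen_mem_VV {x : ℕ} {g : (ι → Fin h) → K} (hg : g ∈ Gen K h l x) :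
    (fun p : (ι → Fin h) × (ι → Fin h) => g p.2) ∈ VV K h l x :=
  Submodule.subset_span ⟨g, hg, 1, by ext p; simp⟩

/-- an arbitrary function of the second word -/
theorem snd_mem_UU (a : (ι → Fin h) → K) :
    (fun p : (ι → Fin h) × (ι → Fin h) => a p.2) ∈ UU K h l 0 :=
  Submodule.subset_span ⟨1, Gen_one, a, by ext p; simp⟩

/-- an arbitrary function of the first word -/
theorem fst_mem_VV (a : (ι → Fin h) → K) :
    (fun p : (ι → Fin h) × (ι → Fin h) => a p.1) ∈ VV K h l 0 :=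
  Submodule.subset_span ⟨1, Gen_one, a, by ext p; simp⟩

theorem Gen_top (g : (ι → Fin h) → K) : g ∈ Gen K h l (univ.image l).card :=
  ⟨univ.image l, Subset.refl _, le_rfl, fun p p' hp => by
    have : p = p' := funext fun d => hp d (mem_image_of_mem _ (mem_univ d))
    rw [this]⟩

theorem single_sum' (f : (ι → Fin h) × (ι → Fin h) → K) :
    f = ∑ w : ι → Fin h, fun p => (if p.1 = w then (1 : K) else 0) * f (w, p.2) := by
  funext p
  rw [Finset.sum_apply, Finset.sum_eq_single p.1]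
  · rw [if_pos rfl, one_mul]
  · intro w _ hw
    rw [if_neg (Ne.symm hw), zero_mul]
  · intro hp
    exact absurd (Finset.mem_univ _) hp

theorem Full_UU : Full (UU K h l) := by
  intro f
  refine ⟨(univ.image l).card, ?_⟩
  rw [single_sum' f]
  refine Submodule.sum_mem _ fun w _ => Submodule.subset_span ?_
  exact ⟨fun p => if p = w then 1 else 0, Gen_top _, fun q => f (w, q), rfl⟩

theorem Full_VV : Full (VV K h l) := by
  intro f
  refine ⟨(univ.image l).card, ?_⟩
  rw [single_sum' f]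
  refine Submodule.sum_mem _ fun w _ => Submodule.subset_span ?_
  exact ⟨fun q => f (w, q), Gen_top _, fun p => if p = w then 1 else 0, rfl⟩

/-! ### dimensions -/

/-- index type of the indicator functions -/
abbrev Ix (h : ℕ) (l : ι → ℕ) (x : ℕ) : Type :=
  (J : {J // J ∈ (univ.image l).powerset.filter (fun J => J.card ≤ x)}) ×
    ({d : ι // l d ∈ J.1} → Fin h)

theorem card_labels_le {A : ℕ} (hA : ∀ t, (univ.filter fun d => l d = t).card ≤ A)
    (J : Finset ℕ) : Fintype.card {d : ι // l d ∈ J} ≤ A * J.card := by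
  rw [Fintype.card_subtype]
  have h1 : (univ.filter fun d => l d ∈ J) = J.biUnion fun t => univ.filter fun d => l d = t := by
    ext d
    simp
  rw [h1]
  refine card_biUnion_le.trans ?_
  refine (sum_le_card_nsmul _ _ _ fun t _ => hA t).trans ?_
  rw [smul_eq_mul, mul_comm]

theorem card_Ix_le (hh : 1 ≤ h) {A : ℕ} (hA : ∀ t, (univ.filter fun d => l d = t).card ≤ A)
    (x : ℕ) : Fintype.card (Ix h l x) ≤ 2 ^ (univ.image l).card * (h ^ A) ^ x := by
  rw [Fintype.card_sigma]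
  have h1 : ∀ J : {J // J ∈ (univ.image l).powerset.filter (fun J => J.card ≤ x)},
      Fintype.card ({d : ι // l d ∈ J.1} → Fin h) ≤ (h ^ A) ^ x := by
    intro J
    rw [Fintype.card_fun, Fintype.card_fin, ← pow_mul]
    refine Nat.pow_le_pow_right hh ((card_labels_le hA J.1).trans ?_)
    exact Nat.mul_le_mul_left _ (mem_filter.1 J.2).2
  refine (sum_le_sum fun J _ => h1 J).trans ?_
  rw [sum_const, smul_eq_mul, card_univ]
  refine Nat.mul_le_mul_right _ ?_
  rw [Fintype.card_coe]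
  refine (card_filter_le _ _).trans ?_
  rw [card_powerset]

open Classical in
/-- indicator functions -/
noncomputable def ind (K : Type) [Field K] {h : ℕ} {l : ι → ℕ} {x : ℕ} (i : Ix h l x) :
    (ι → Fin h) → K :=
  fun p => if ∀ d : {d : ι // l d ∈ i.1.1}, p d.1 = i.2 d then 1 else 0

theorem exists_comb {x : ℕ} {g : (ι → Fin h) → K} (hg : g ∈ Gen K h l x) :
    ∃ c : Ix h l x → K, g = fun p => ∑ i, c i * ind K i p := by
  classical
  obtain ⟨J, hJ, hc, hd⟩ := hg
  have hmem : J ∈ (univ.image l).powerset.filter (fun J => J.card ≤ x) := by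
    rw [mem_filter, mem_powerset]
    exact ⟨hJ, hc⟩
  refine ⟨fun i => if i.1.1 = J then
    (if h2 : ∃ p : ι → Fin h, ∀ k : {d : ι // l d ∈ i.1.1}, p k.1 = i.2 k then g h2.choose
      else 0) else 0, ?_⟩
  ext p
  let i0 : Ix h l x := ⟨⟨J, hmem⟩, fun k => p k.1⟩
  have hex : ∃ p' : ι → Fin h, ∀ k : {d : ι // l d ∈ i0.1.1}, p' k.1 = i0.2 k :=
    ⟨p, fun k => rfl⟩
  rw [sum_eq_single i0]
  · have h1 : ind K i0 p = 1 := if_pos fun k => rfl
    beta_reduce
    rw [h1, mul_one, if_pos rfl, dif_pos hex]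
    refine hd _ _ fun k hk => ?_
    exact (hex.choose_spec ⟨k, hk⟩).symm
  · rintro ⟨⟨J', hJ'⟩, y⟩ _ hne
    beta_reduce
    by_cases hJJ : J' = J
    · subst hJJ
      rw [if_pos rfl]
      have : ind K (⟨⟨J', hJ'⟩, y⟩ : Ix h l x) p = 0 := by
        refine if_neg fun h2 => hne ?_
        have : y = fun k : {d : ι // l d ∈ J'} => p k.1 := by
          ext k
          exact congrArg _ (h2 k).symm
        rw [this]
      rw [this, mul_zero]
    · rw [if_neg hJJ, zero_mul]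
  · intro hn
    exact absurd (mem_univ _) hn

theorem rank_UU (hh : 1 ≤ h) {A : ℕ} (hA : ∀ t, (univ.filter fun d => l d = t).card ≤ A)
    {x : ℕ} {f : (ι → Fin h) × (ι → Fin h) → K} (hf : f ∈ UU K h l x) :
    RankLe (2 ^ (univ.image l).card * (h ^ A) ^ x) f := by
  classical
  suffices hs : ∃ b : Ix h l x → (ι → Fin h) → K, f = fun p => ∑ i, ind K i p.1 * b i p.2 by
    obtain ⟨b, hb⟩ := hs
    exact rankLe_of_index (card_Ix_le hh hA x) (fun i => ind K i) b hb
  refine Submodule.span_induction ?_ ?_ ?_ ?_ hf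
  · rintro _ ⟨g, hg, a, rfl⟩
    obtain ⟨c, hc⟩ := exists_comb hg
    refine ⟨fun i => c i • a, ?_⟩
    ext p
    simp only [hc, sum_mul, Pi.smul_apply, smul_eq_mul]
    exact sum_congr rfl fun i _ => by ring
  · exact ⟨fun _ => 0, by ext p; simp⟩
  · rintro f g _ _ ⟨b, rfl⟩ ⟨b', rfl⟩
    refine ⟨fun i => b i + b' i, ?_⟩
    ext p
    simp only [Pi.add_apply, mul_add, sum_add_distrib]
  · rintro c f _ ⟨b, rfl⟩
    refine ⟨fun i => c • b i, ?_⟩
    ext p
    simp only [Pi.smul_apply, smul_eq_mul, mul_sum]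
    exact sum_congr rfl fun i _ => by ring

theorem rank_VV (hh : 1 ≤ h) {A : ℕ} (hA : ∀ t, (univ.filter fun d => l d = t).card ≤ A)
    {x : ℕ} {f : (ι → Fin h) × (ι → Fin h) → K} (hf : f ∈ VV K h l x) :
    RankLe (2 ^ (univ.image l).card * (h ^ A) ^ x) f := by
  classical
  suffices hs : ∃ b : Ix h l x → (ι → Fin h) → K, f = fun p => ∑ i, b i p.1 * ind K i p.2 by
    obtain ⟨b, hb⟩ := hs
    exact rankLe_of_index (card_Ix_le hh hA x) b (fun i => ind K i) hb
  refine Submodule.span_induction ?_ ?_ ?_ ?_ hf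
  · rintro _ ⟨g, hg, a, rfl⟩
    obtain ⟨c, hc⟩ := exists_comb hg
    refine ⟨fun i => c i • a, ?_⟩
    ext p
    simp only [hc, mul_sum, Pi.smul_apply, smul_eq_mul]
    exact sum_congr rfl fun i _ => by ring
  · exact ⟨fun _ => 0, by ext p; simp⟩
  · rintro f g _ _ ⟨b, rfl⟩ ⟨b', rfl⟩
    refine ⟨fun i => b i + b' i, ?_⟩
    ext p
    simp only [Pi.add_apply, add_mul, sum_add_distrib]
  · rintro c f _ ⟨b, rfl⟩
    refine ⟨fun i => c • b i, ?_⟩
    ext p
    simp only [Pi.smul_apply, smul_eq_mul, mul_sum]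
    exact sum_congr rfl fun i _ => by ring

/-! ### the norm -/

/-- a product of a function of the first and a function of the second word has norm at most `1` -/
theorem Nu_pair (lu lv : ι → ℕ) (hv hu : ℝ) (a b : (ι → Fin h) → K) :
    Nu (VV K h lv) (UU K h lu) hv hu (fun p => a p.1 * b p.2) 1 := by
  have h1 := Nu.ofMul (hv := hv) (hu := hu) (fst_mem_VV (l := lv) a) (snd_mem_UU (l := lu) b)
  rw [pow_zero, pow_zero, mul_one] at h1
  exact h1

theorem Nu_of_rankLe (lu lv : ι → ℕ) (hv hu : ℝ) {N : ℕ} {f : (ι → Fin h) × (ι → Fin h) → K}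
    (hf : RankLe N f) : Nu (VV K h lv) (UU K h lu) hv hu f N := by
  obtain ⟨a, b, rfl⟩ := hf
  have h1 := Nu.sum (V := VV K h lv) (U := UU K h lu) (hv := hv) (hu := hu)
    (Finset.univ : Finset (Fin N)) (fun i (p : (ι → Fin h) × (ι → Fin h)) => a i p.1 * b i p.2)
    (fun _ => 1) fun i _ => Nu_pair lu lv hv hu (a i) (b i)
  rw [Finset.sum_const, Finset.card_univ, Fintype.card_fin, nsmul_eq_mul, mul_one] at h1
  have h2 : (fun p : (ι → Fin h) × (ι → Fin h) => ∑ i, a i p.1 * b i p.2) =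
      ∑ i, fun p : (ι → Fin h) × (ι → Fin h) => a i p.1 * b i p.2 := by
    funext p
    rw [Finset.sum_apply]
  rw [h2]
  exact h1

/-- THE RANK OF AN ELEMENT OF NORM `κ` -/
theorem rankLe_of_Nu (hh : 1 ≤ h) {lu lv : ι → ℕ} {A B : ℕ}
    (hA : ∀ t, (univ.filter fun d => lu d = t).card ≤ A)
    (hB : ∀ t, (univ.filter fun d => lv d = t).card ≤ B)
    {f : (ι → Fin h) × (ι → Fin h) → K} {κ : ℝ}
    (h1 : Nu (VV K h lv) (UU K h lu) ((h ^ B : ℕ) : ℝ) ((h ^ A : ℕ) : ℝ) f κ) :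
    RankLe (⌊(2 ^ ((univ.image lu).card + (univ.image lv).card) : ℝ) * κ⌋₊) f := by
  have h0v : (0 : ℝ) ≤ ((h ^ B : ℕ) : ℝ) := Nat.cast_nonneg _
  refine Nu.rank (cV := 2 ^ (univ.image lv).card) (cU := 2 ^ (univ.image lu).card) ?_ ?_ h0v h1 ?_
  · intro x g hg
    exact ⟨_, by push_cast; exact le_rfl, rank_VV hh hB hg⟩
  · intro x g hg
    exact ⟨_, by push_cast; exact le_rfl, rank_UU hh hA hg⟩
  · have h2 : (((2 ^ (univ.image lv).card : ℕ) : ℝ) * ((2 ^ (univ.image lu).card : ℕ) : ℝ)) =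
        2 ^ ((univ.image lu).card + (univ.image lv).card) := by
      push_cast
      rw [pow_add]
      ring
    rw [h2]
    exact Nat.lt_floor_add_one _

/-- THE RANK BOUND, predicate form -/
theorem card_le_of_Nu (hh : 1 ≤ h) {lu lv : ι → ℕ} {A B : ℕ}
    (hA : ∀ t, (univ.filter fun d => lu d = t).card ≤ A)
    (hB : ∀ t, (univ.filter fun d => lv d = t).card ≤ B)
    {f : (ι → Fin h) × (ι → Fin h) → K} (hdet : (Matrix.of fun p p' => f (p, p')).det ≠ 0) {κ : ℝ}
    (h1 : Nu (VV K h lv) (UU K h lu) ((h ^ B : ℕ) : ℝ) ((h ^ A : ℕ) : ℝ) f κ) :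
    (Fintype.card (ι → Fin h) : ℝ) ≤
      2 ^ ((univ.image lu).card + (univ.image lv).card) * κ := by
  have hκ : 0 ≤ κ := Nu.nonneg (Nat.cast_nonneg _) (Nat.cast_nonneg _) h1
  exact (Nat.cast_le.2 (card_le_of_rankLe (rankLe_of_Nu hh hA hB h1) hdet)).trans
    (Nat.floor_le (by positivity))

/-- THE RANK BOUND for the infimum -/
theorem card_le_of_nu (hh : 1 ≤ h) {lu lv : ι → ℕ} {A B : ℕ}
    (hA : ∀ t, (univ.filter fun d => lu d = t).card ≤ A)
    (hB : ∀ t, (univ.filter fun d => lv d = t).card ≤ B)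
    {f : (ι → Fin h) × (ι → Fin h) → K} (hdet : (Matrix.of fun p p' => f (p, p')).det ≠ 0) :
    (Fintype.card (ι → Fin h) : ℝ) ≤
      2 ^ ((univ.image lu).card + (univ.image lv).card) *
        nu (VV K h lv) (UU K h lu) ((h ^ B : ℕ) : ℝ) ((h ^ A : ℕ) : ℝ) f := by
  refine le_of_forall_pos_le_add fun ε hε => ?_
  have h1 := card_le_of_Nu hh hA hB hdet
    (Nu_of_lt Full_VV Filt_UU (lt_add_of_pos_right
      (nu (VV K h lv) (UU K h lu) ((h ^ B : ℕ) : ℝ) ((h ^ A : ℕ) : ℝ) f)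
      (show (0 : ℝ) < ε / 2 ^ ((univ.image lu).card + (univ.image lv).card) by positivity)))
  refine h1.trans (le_of_eq ?_)
  rw [mul_add]
  field_simp

/-- the number of words -/
theorem card_word (N h : ℕ) : (Fintype.card (Wo N h) : ℝ) = (h : ℝ) ^ N := by
  rw [Fintype.card_fun, Fintype.card_fin, Fintype.card_fin]
  push_cast
  rfl

/-- the bigraded family used for the coefficients -/
theorem Big_UV {lu lv : ι → ℕ} : Big (fun b e => UU K h lu b ⊓ VV K h lv e) :=
  ⟨⟨one_mem_UU, one_mem_VV⟩, fun hx hy => ⟨mul_mem_UU hx.1 hy.1, mul_mem_VV hx.2 hy.2⟩⟩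

end gen

end Pool.CDG
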